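import Mathlib

set_option autoImplicit false

namespace Pool.Agent.H22R3

open Finset

/-- pairs (first term, difference) of the k-term progressions contained in [1,n] -/
def pairs (k n : ℕ) : Finset (ℕ × ℕ) :=
  ((Icc 1 n) ×ˢ (Icc 1 n)).filter (fun p => p.1 + (k - 1) * p.2 ≤ n)

theorem mem_pairs {k n : ℕ} (hk : 2 ≤ k) {p : ℕ × ℕ} :
    p ∈ pairs k n ↔ 1 ≤ p.1 ∧ 1 ≤ p.2 ∧ p.1 + (k - 1) * p.2 ≤ n := by
  unfold pairs
  simp only [mem_filter, mem_product, mem_Icc]
  constructor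
  · rintro ⟨⟨⟨h1, h2⟩, h3, h4⟩, h5⟩
    exact ⟨h1, h3, h5⟩
  · rintro ⟨h1, h3, h5⟩
    have : p.2 ≤ (k - 1) * p.2 := Nat.le_mul_of_pos_left _ (by omega)
    exact ⟨⟨⟨h1, by omega⟩, h3, by omega⟩, h5⟩

/-- the total number of k-term progressions in [1,n] -/
theorem card_pairs_eq (k n : ℕ) (hk : 2 ≤ k) :
    (pairs k n).card = ∑ d ∈ Icc 1 (n / (k - 1)), (n - (k - 1) * d) := by
  have h1 : pairs k n = (Icc 1 (n / (k - 1))).biUnion
      (fun d => (Icc 1 (n - (k - 1) * d)).image (fun a => (a, d))) := by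
    ext ⟨a, d⟩
    rw [mem_pairs hk]
    simp only [mem_biUnion, mem_Icc, mem_image, Prod.mk.injEq]
    constructor
    · rintro ⟨h1, h2, h3⟩
      refine ⟨d, ⟨h2, ?_⟩, a, ⟨h1, by omega⟩, rfl, rfl⟩
      rw [Nat.le_div_iff_mul_le (by omega)]
      rw [mul_comm]; omega
    · rintro ⟨d', ⟨h1, h2⟩, a', ⟨h3, h4⟩, rfl, rfl⟩
      exact ⟨h3, h1, by omega⟩
  rw [h1, card_biUnion]
  · apply sum_congr rfl
    intro d _
    rw [card_image_of_injective]
    · simp
    · intro x y hxy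
      simpa using hxy
  · intro d _ d' _ hdd'
    rw [Function.onFun, disjoint_left]
    intro x hx hx'
    simp only [mem_image] at hx hx'
    obtain ⟨_, _, rfl⟩ := hx
    obtain ⟨_, _, h⟩ := hx'
    simp only [Prod.mk.injEq] at h
    exact hdd' h.2.symm

theorem card_pairs_asymp (k n : ℕ) (hk : 2 ≤ k) :
    |((pairs k n).card : ℝ) - (n : ℝ) ^ 2 / (2 * ((k : ℝ) - 1))| ≤ (k : ℝ) * n := by
  have hK : (1 : ℝ) ≤ ((k : ℝ) - 1) := by
    have : (2 : ℝ) ≤ k := by exact_mod_cast hk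
    linarith
  set K : ℕ := k - 1 with hKdef
  have hKr : ((K : ℕ) : ℝ) = (k : ℝ) - 1 := by
    rw [hKdef]; push_cast [Nat.cast_sub (show 1 ≤ k by omega)]; ring
  set D : ℕ := n / K with hD
  have hKpos : 0 < K := by omega
  have h1 : K * D ≤ n := Nat.mul_div_le n K
  have h2 : n < K * (D + 1) := by
    have := Nat.lt_mul_div_succ n hKpos
    simpa using this
  have hcard : ((pairs k n).card : ℝ) = (D : ℝ) * n - K * (D * (D + 1) / 2) := by
    rw [card_pairs_eq k n hk, ← hKdef, ← hD]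
    rw [Nat.cast_sum]
    have : ∀ d ∈ Icc 1 D, ((n - K * d : ℕ) : ℝ) = (n : ℝ) - K * d := by
      intro d hd
      rw [mem_Icc] at hd
      have : K * d ≤ n := le_trans (Nat.mul_le_mul_left K hd.2) h1
      push_cast [Nat.cast_sub this]
      ring
    rw [sum_congr rfl this, sum_sub_distrib, ← mul_sum]
    have h3 : ∀ m : ℕ, ∑ d ∈ Icc 1 m, (d : ℝ) = m * (m + 1) / 2 := by
      intro m
      induction m with
      | zero => simp
      | succ m ih =>
        rw [sum_Icc_succ_top (by omega), ih]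
        push_cast
        ring
    rw [h3]
    simp
  rw [hcard, ← hKr]
  have h1r : (K : ℝ) * D ≤ n := by exact_mod_cast h1
  have h2r : (n : ℝ) < K * (D + 1) := by exact_mod_cast h2
  have hKr1 : (1 : ℝ) ≤ K := by rw [hKr]; exact hK
  have hn0 : (0 : ℝ) ≤ n := Nat.cast_nonneg n
  have hD0 : (0 : ℝ) ≤ D := Nat.cast_nonneg D
  have key : (D : ℝ) * n - K * (D * (D + 1) / 2) - (n : ℝ) ^ 2 / (2 * K)
      = -(((n : ℝ) - K * D) ^ 2 + K ^ 2 * D) / (2 * K) := by
    field_simp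
    ring
  rw [key, neg_div, abs_neg, abs_of_nonneg (by positivity)]
  rw [div_le_iff₀ (by linarith)]
  rcases Nat.eq_zero_or_pos n with hn | hn
  · subst hn
    have hD00 : D = 0 := by rw [hD]; simp
    rw [hD00]; simp
  · have hn1 : (1 : ℝ) ≤ n := by exact_mod_cast hn
    have e1 : ((n : ℝ) - K * D) ^ 2 ≤ K * n := by
      have a1 : (n : ℝ) - K * D ≤ K := by nlinarith
      have a2 : (0 : ℝ) ≤ (n : ℝ) - K * D := by linarith
      have a3 : (n : ℝ) - K * D ≤ n := by nlinarith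
      calc ((n : ℝ) - K * D) ^ 2 = ((n : ℝ) - K * D) * ((n : ℝ) - K * D) := by ring
        _ ≤ K * n := mul_le_mul a1 a3 a2 (by linarith)
    have e2 : (K : ℝ) ^ 2 * D ≤ K * n := by nlinarith
    have e3 : (K : ℝ) ≤ k := by rw [hKr]; linarith
    nlinarith [mul_nonneg (by linarith : (0:ℝ) ≤ K) hn0]

/-- pairs with prescribed residues -/
def cls (k N n : ℕ) (α δ : ZMod N) : Finset (ℕ × ℕ) :=
  (pairs k n).filter (fun p => (p.1 : ZMod N) = α ∧ (p.2 : ZMod N) = δ)

theorem cls_shift (k N n : ℕ) [NeZero N] (hk : 2 ≤ k) (α δ α' δ' : ZMod N) :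
    (cls k N n α δ).card ≤ (cls k N (n + k * N) α' δ').card := by
  set s := (α' - α).val
  set t := (δ' - δ).val
  have hs : s < N := ZMod.val_lt _
  have ht : t < N := ZMod.val_lt _
  apply card_le_card_of_injOn (fun p => (p.1 + s, p.2 + t))
  · intro p hp
    simp only [cls, coe_filter, mem_pairs hk, Set.mem_ofPred_eq] at hp ⊢
    obtain ⟨⟨h1, h2, h3⟩, h4, h5⟩ := hp
    refine ⟨⟨by omega, by omega, ?_⟩, ?_, ?_⟩
    · have e1 : (k - 1) * (p.2 + t) = (k - 1) * p.2 + (k - 1) * t := by ring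
      have e2 : (k - 1) * t ≤ (k - 1) * N := Nat.mul_le_mul_left _ ht.le
      have e3 : k * N = (k - 1) * N + N := by
        obtain ⟨m, rfl⟩ : ∃ m, k = m + 1 := ⟨k - 1, by omega⟩
        simp; ring
      rw [e1, e3]
      omega
    · push_cast
      rw [h4, ZMod.natCast_zmod_val]; ring
    · push_cast
      rw [h5, ZMod.natCast_zmod_val]; ring
  · intro p _ q _ hpq
    simp only [Prod.mk.injEq] at hpq
    ext
    · omega
    · omega

theorem cls_mono (k N n m : ℕ) (hk : 2 ≤ k) (α δ : ZMod N) :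
    (cls k N (n + m) α δ).card ≤ (cls k N n α δ).card + m * (n + m) := by
  have h1 : cls k N (n + m) α δ ⊆ cls k N n α δ ∪
      ((Icc 1 (n + m)).biUnion (fun d => (Ico (n + 1 - (k - 1) * d) (n + 1 - (k - 1) * d + m)).image
        (fun a => (a, d)))) ∪ ((Icc 1 (n + m)).biUnion (fun d =>
          (Ico (n + 1 - (k - 1) * d) (n + 1 - (k - 1) * d + m)).image
        (fun a => (a, d)))) := by
    intro p hp
    simp only [cls, mem_filter, mem_pairs hk, mem_union, mem_biUnion, mem_image, mem_Ico,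
      mem_Icc] at hp ⊢
    obtain ⟨⟨h1, h2, h3⟩, h4, h5⟩ := hp
    by_cases h : p.1 + (k - 1) * p.2 ≤ n
    · left; left; exact ⟨⟨h1, h2, h⟩, h4, h5⟩
    · right
      have : p.2 ≤ (k - 1) * p.2 := Nat.le_mul_of_pos_left _ (by omega)
      exact ⟨p.2, ⟨h2, by omega⟩, p.1, ⟨by omega, by omega⟩, rfl⟩
  rw [union_assoc, union_self] at h1
  refine (card_le_card h1).trans ((card_union_le _ _).trans ?_)
  apply Nat.add_le_add_left
  refine card_biUnion_le.trans ?_
  calc ∑ d ∈ Icc 1 (n + m), ((Ico (n + 1 - (k - 1) * d) (n + 1 - (k - 1) * d + m)).image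
        (fun a => (a, d))).card ≤ ∑ d ∈ Icc 1 (n + m), m := by
        apply sum_le_sum
        intro d _
        refine card_image_le.trans ?_
        simp
    _ = m * (n + m) := by simp [mul_comm]

theorem cls_close (k N n : ℕ) [NeZero N] (hk : 2 ≤ k) (α δ α' δ' : ZMod N) :
    |((cls k N n α δ).card : ℝ) - (cls k N n α' δ').card| ≤ (k * N * (n + k * N) : ℝ) := by
  have h1 := (cls_shift k N n hk α δ α' δ').trans (cls_mono k N n (k * N) hk α' δ')
  have h2 := (cls_shift k N n hk α' δ' α δ).trans (cls_mono k N n (k * N) hk α δ)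
  have h1' : ((cls k N n α δ).card : ℝ) ≤ (cls k N n α' δ').card + (k * N * (n + k * N) : ℝ) := by
    exact_mod_cast h1
  have h2' : ((cls k N n α' δ').card : ℝ) ≤ (cls k N n α δ).card + (k * N * (n + k * N) : ℝ) := by
    exact_mod_cast h2
  rw [abs_le]
  constructor <;> linarith

theorem sum_cls (k N n : ℕ) [NeZero N] :
    ∑ p : ZMod N × ZMod N, ((cls k N n p.1 p.2).card : ℝ) = (pairs k n).card := by
  have h : (pairs k n).card = ∑ p : ZMod N × ZMod N, (cls k N n p.1 p.2).card := by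
    rw [card_eq_sum_card_fiberwise (f := fun q : ℕ × ℕ => ((q.1 : ZMod N), (q.2 : ZMod N)))
      (t := univ) (fun _ _ => by simp)]
    apply sum_congr rfl
    intro p _
    congr 1
    ext q
    simp [cls, Prod.ext_iff]
  rw [h]
  push_cast
  rfl

theorem cls_asymp (k N : ℕ) [NeZero N] (hk : 2 ≤ k) : ∃ C : ℝ, 0 ≤ C ∧ ∀ (n : ℕ) (α δ : ZMod N),
    |((cls k N n α δ).card : ℝ) - (n : ℝ) ^ 2 / (2 * ((k : ℝ) - 1) * (N : ℝ) ^ 2)| ≤ C * n := by
  have hN : (0 : ℝ) < N := by exact_mod_cast Nat.pos_of_ne_zero (NeZero.ne N)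
  have hk2 : (2 : ℝ) ≤ k := by exact_mod_cast hk
  refine ⟨(k * N * (1 + k * N)) + k, by positivity, ?_⟩
  intro n α δ
  rcases Nat.eq_zero_or_pos n with hn | hn
  · subst hn
    have : cls k N 0 α δ = ∅ := by
      rw [eq_empty_iff_forall_notMem]
      intro p hp
      simp only [cls, mem_filter, mem_pairs hk] at hp
      omega
    rw [this]; simp
  have hn1 : (1 : ℝ) ≤ n := by exact_mod_cast hn
  have hcard : (Fintype.card (ZMod N × ZMod N) : ℝ) = (N : ℝ) ^ 2 := by
    rw [Fintype.card_prod, ZMod.card]; push_cast; ring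
  have h1 : |(N : ℝ) ^ 2 * ((cls k N n α δ).card : ℝ) - (pairs k n).card|
      ≤ (N : ℝ) ^ 2 * (k * N * (n + k * N)) := by
    rw [← sum_cls k N n, ← hcard]
    have : (Fintype.card (ZMod N × ZMod N) : ℝ) * ((cls k N n α δ).card : ℝ)
        - ∑ p : ZMod N × ZMod N, ((cls k N n p.1 p.2).card : ℝ)
        = ∑ p : ZMod N × ZMod N, (((cls k N n α δ).card : ℝ) - (cls k N n p.1 p.2).card) := by
      rw [sum_sub_distrib]; simp
    rw [this]
    refine (abs_sum_le_sum_abs _ _).trans ?_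
    calc ∑ p : ZMod N × ZMod N, |((cls k N n α δ).card : ℝ) - (cls k N n p.1 p.2).card|
        ≤ ∑ p : ZMod N × ZMod N, (k * N * (n + k * N) : ℝ) :=
          sum_le_sum (fun p _ => cls_close k N n hk α δ p.1 p.2)
      _ = _ := by simp
  have h2 := card_pairs_asymp k n hk
  have h3 : ((cls k N n α δ).card : ℝ) - (n : ℝ) ^ 2 / (2 * ((k : ℝ) - 1) * (N : ℝ) ^ 2)
      = (((N : ℝ) ^ 2 * ((cls k N n α δ).card : ℝ) - (pairs k n).card)
        + (((pairs k n).card : ℝ) - (n : ℝ) ^ 2 / (2 * ((k : ℝ) - 1)))) / (N : ℝ) ^ 2 := by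
    have : (k : ℝ) - 1 ≠ 0 := by linarith
    field_simp
    ring
  rw [h3, abs_div, abs_of_pos (by positivity : (0:ℝ) < (N : ℝ) ^ 2), div_le_iff₀ (by positivity)]
  have hN1 : (1 : ℝ) ≤ N := by exact_mod_cast Nat.one_le_iff_ne_zero.mpr (NeZero.ne N)
  have hN2 : (1 : ℝ) ≤ (N : ℝ) ^ 2 := one_le_pow₀ hN1
  calc |((N : ℝ) ^ 2 * ((cls k N n α δ).card : ℝ) - (pairs k n).card)
        + (((pairs k n).card : ℝ) - (n : ℝ) ^ 2 / (2 * ((k : ℝ) - 1)))|
      ≤ (N : ℝ) ^ 2 * (k * N * (n + k * N)) + k * n :=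
        (abs_add_le _ _).trans (add_le_add h1 h2)
    _ ≤ (N : ℝ) ^ 2 * (k * N * (1 + k * N) * n) + (k * n) * (N : ℝ) ^ 2 := by
        apply add_le_add
        · apply mul_le_mul_of_nonneg_left _ (by positivity)
          have : (k : ℝ) * N * (n + k * N) ≤ k * N * (n + k * N * n) := by
            apply mul_le_mul_of_nonneg_left _ (by positivity)
            have : (k : ℝ) * N ≤ k * N * n := by
              have h0 : (0 : ℝ) ≤ (k : ℝ) * N := by positivity
              nlinarith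
            linarith
          calc (k : ℝ) * N * (n + k * N) ≤ k * N * (n + k * N * n) := this
            _ = k * N * (1 + k * N) * n := by ring
        · have h0 : (0 : ℝ) ≤ (k : ℝ) * n := by positivity
          nlinarith
    _ = (k * N * (1 + k * N) + k) * n * (N : ℝ) ^ 2 := by ring

/-- monochromatic pairs of a colouring of the integers -/
def monoPairs {r : ℕ} (k n : ℕ) (χ : ℕ → Fin r) : Finset (ℕ × ℕ) :=
  (pairs k n).filter (fun p => ∀ i < k, χ (p.1 + i * p.2) = χ p.1)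

/-- monochromatic pairs of a colouring of a cyclic group -/
def monoZ {r : ℕ} (k N : ℕ) [NeZero N] (c : ZMod N → Fin r) : Finset (ZMod N × ZMod N) :=
  univ.filter (fun p => ∀ i < k, c (p.1 + (i : ZMod N) * p.2) = c p.1)

/-- A periodic colouring has the expected asymptotic number of monochromatic progressions. -/
theorem periodic_count (k N r : ℕ) [NeZero N] (hk : 2 ≤ k) (c : ZMod N → Fin r) :
    ∃ C : ℝ, ∀ n : ℕ, |((monoPairs k n (fun x => c (x : ZMod N))).card : ℝ)
      - ((monoZ k N c).card : ℝ) / (2 * ((k : ℝ) - 1) * (N : ℝ) ^ 2) * (n : ℝ) ^ 2| ≤ C * n := by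
  obtain ⟨C, hC, h⟩ := cls_asymp k N hk
  refine ⟨(monoZ k N c).card * C, ?_⟩
  intro n
  have h1 : (monoPairs k n (fun x => c (x : ZMod N))).card
      = ∑ p ∈ monoZ k N c, (cls k N n p.1 p.2).card := by
    rw [card_eq_sum_card_fiberwise (f := fun q : ℕ × ℕ => ((q.1 : ZMod N), (q.2 : ZMod N)))
      (t := monoZ k N c)]
    · apply sum_congr rfl
      intro p hp
      congr 1
      ext q
      simp only [monoPairs, cls, mem_filter, Prod.ext_iff]
      constructor
      · rintro ⟨⟨h1, h2⟩, h3, h4⟩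
        exact ⟨h1, h3, h4⟩
      · rintro ⟨h1, h3, h4⟩
        refine ⟨⟨h1, ?_⟩, h3, h4⟩
        simp only [monoZ, mem_filter, mem_univ, true_and] at hp
        intro i hi
        push_cast
        rw [h3, h4]
        exact hp i hi
    · intro q hq
      simp only [monoPairs, coe_filter, Set.mem_ofPred_eq] at hq
      simp only [monoZ, coe_filter, mem_univ, true_and, Set.mem_ofPred_eq]
      intro i hi
      have := hq.2 i hi
      push_cast at this
      exact this
  rw [h1]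
  push_cast
  have h2 : ((monoZ k N c).card : ℝ) / (2 * ((k : ℝ) - 1) * (N : ℝ) ^ 2) * (n : ℝ) ^ 2
      = ∑ p ∈ monoZ k N c, (n : ℝ) ^ 2 / (2 * ((k : ℝ) - 1) * (N : ℝ) ^ 2) := by
    rw [sum_const, nsmul_eq_mul]; ring
  rw [h2, ← sum_sub_distrib]
  refine (abs_sum_le_sum_abs _ _).trans ?_
  calc ∑ p ∈ monoZ k N c, |((cls k N n p.1 p.2).card : ℝ)
        - (n : ℝ) ^ 2 / (2 * ((k : ℝ) - 1) * (N : ℝ) ^ 2)|
      ≤ ∑ p ∈ monoZ k N c, C * n := sum_le_sum (fun p _ => h n p.1 p.2)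
    _ = (monoZ k N c).card * C * n := by rw [sum_const, nsmul_eq_mul]; ring

end Pool.Agent.H22R3
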