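import Pool.Agent.H22R3.APCount

set_option autoImplicit false

namespace Pool.Agent.H22R3

open Finset

/-- block pattern -/
def pat (i : ℕ) : Fin 2 := if i = 1 ∨ i = 3 ∨ i = 4 ∨ i = 7 ∨ i = 9 then 1 else 0

/-- weight of a triple of blocks -/
def hh (i l s : ℕ) : ℤ := if pat i = pat l ∧ pat i = pat ((i + l + s) / 2) then 1 else 0

theorem pat_sum : ∑ i ∈ range 10, ∑ l ∈ range 10, (hh i l 0 + hh i l 1) = 44 := by decide +kernel

theorem sum_range_mul' {M : Type*} [AddCommMonoid M] (a b : ℕ) (f : ℕ → M) :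
    ∑ x ∈ range (a * b), f x = ∑ i ∈ range a, ∑ y ∈ range b, f (b * i + y) := by
  induction a with
  | zero => simp
  | succ n ih =>
    rw [Nat.succ_mul, sum_range_add, sum_range_succ, ih, mul_comm n b]

theorem row_sum (m : ℕ) (hm : 0 < m) (G : ℕ → ℤ) (s : ℕ) (hs : s ≤ m) :
    ∑ w ∈ range m, G ((s + w) / m) = ((m : ℤ) - s) * G 0 + s * G 1 := by
  obtain ⟨t, rfl⟩ : ∃ t, m = t + s := ⟨m - s, by omega⟩
  rw [sum_range_add]
  have h1 : ∀ w ∈ range t, G ((s + w) / (t + s)) = G 0 := by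
    intro w hw
    rw [mem_range] at hw
    rw [Nat.div_eq_of_lt (by omega)]
  have h2 : ∀ w ∈ range s, G ((s + (t + w)) / (t + s)) = G 1 := by
    intro w hw
    rw [mem_range] at hw
    have : s + (t + w) = w + (t + s) := by omega
    rw [this, Nat.add_div_right _ (by omega), Nat.div_eq_of_lt (by omega)]
  rw [sum_congr rfl h1, sum_congr rfl h2]
  simp

theorem sum_odd (m : ℕ) : ∑ u ∈ range m, (2 * (u : ℤ) + 1) = (m : ℤ) ^ 2 := by
  induction m with
  | zero => simp
  | succ n ih => rw [sum_range_succ, ih]; push_cast; ring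

theorem square_sum (m : ℕ) (hm : 0 < m) (G : ℕ → ℤ) :
    ∑ u ∈ range m, (∑ w ∈ range m, G ((u + w) / m) + ∑ w ∈ range m, G ((u + 1 + w) / m))
      = (m : ℤ) ^ 2 * (G 0 + G 1) := by
  have h : ∀ u ∈ range m, (∑ w ∈ range m, G ((u + w) / m) + ∑ w ∈ range m, G ((u + 1 + w) / m))
      = 2 * (m : ℤ) * G 0 + (2 * (u : ℤ) + 1) * (G 1 - G 0) := by
    intro u hu
    rw [mem_range] at hu
    rw [row_sum m hm G u (by omega), row_sum m hm G (u + 1) (by omega)]
    push_cast
    ring
  rw [sum_congr rfl h, sum_add_distrib, sum_const, card_range, nsmul_eq_mul,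
    ← sum_mul (range m) (fun u : ℕ => 2 * (u : ℤ) + 1) (G 1 - G 0), sum_odd]
  ring

theorem block_sum (m : ℕ) (hm : 0 < m) (G : ℕ → ℤ) :
    ∑ y ∈ range (m * 2), ∑ z ∈ range (m * 2), (if y % 2 = z % 2 then G (((y + z) / 2) / m) else 0)
      = (m : ℤ) ^ 2 * (G 0 + G 1) := by
  rw [sum_range_mul', ← square_sum m hm G]
  apply sum_congr rfl
  intro u _
  rw [sum_range_succ, sum_range_one]
  rw [sum_range_mul', sum_range_mul']
  congr 1
  · apply sum_congr rfl
    intro w _
    rw [sum_range_succ, sum_range_one]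
    rw [if_pos (by omega), if_neg (by omega), add_zero]
    congr 2
    omega
  · apply sum_congr rfl
    intro w _
    rw [sum_range_succ, sum_range_one]
    rw [if_neg (by omega), if_pos (by omega), zero_add]
    congr 2
    omega

/-- the number of good ordered pairs of the blow-up -/
theorem total_sum (m : ℕ) (hm : 0 < m) :
    ∑ x ∈ range (10 * (m * 2)), ∑ z ∈ range (10 * (m * 2)),
      (if x % 2 = z % 2 ∧ pat (x / (m * 2)) = pat (z / (m * 2)) ∧
        pat (x / (m * 2)) = pat ((x + z) / 2 / (m * 2)) then (1 : ℤ) else 0) = 44 * (m : ℤ) ^ 2 := by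
  have hm2 : 0 < m * 2 := by omega
  rw [sum_range_mul']
  have h1 : ∀ i ∈ range 10, ∑ y ∈ range (m * 2), ∑ z ∈ range (10 * (m * 2)),
      (if (m * 2 * i + y) % 2 = z % 2 ∧ pat ((m * 2 * i + y) / (m * 2)) = pat (z / (m * 2)) ∧
        pat ((m * 2 * i + y) / (m * 2)) = pat (((m * 2 * i + y) + z) / 2 / (m * 2))
        then (1 : ℤ) else 0)
      = ∑ l ∈ range 10, (m : ℤ) ^ 2 * (hh i l 0 + hh i l 1) := by
    intro i _
    rw [sum_congr rfl (fun y _ => sum_range_mul' 10 (m * 2) _), sum_comm]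
    apply sum_congr rfl
    intro l _
    rw [← block_sum m hm (fun s => hh i l s)]
    apply sum_congr rfl
    intro y hy
    apply sum_congr rfl
    intro z hz
    rw [mem_range] at hy hz
    have e1 : (m * 2 * i + y) / (m * 2) = i := by
      rw [Nat.mul_add_div hm2, Nat.div_eq_of_lt hy, add_zero]
    have e2 : (m * 2 * l + z) / (m * 2) = l := by
      rw [Nat.mul_add_div hm2, Nat.div_eq_of_lt hz, add_zero]
    have e3 : (m * 2 * i + y) % 2 = y % 2 := by
      rw [mul_assoc, mul_comm 2 i, ← mul_assoc, Nat.mul_add_mod_self_right]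
    have e4 : (m * 2 * l + z) % 2 = z % 2 := by
      rw [mul_assoc, mul_comm 2 l, ← mul_assoc, Nat.mul_add_mod_self_right]
    have e5 : y % 2 = z % 2 → (m * 2 * i + y + (m * 2 * l + z)) / 2 / (m * 2)
        = (i + l + (y + z) / 2 / m) / 2 := by
      intro hyz
      have a1 : (m * 2 * i + y + (m * 2 * l + z)) / 2 = m * (i + l) + (y + z) / 2 := by
        have : m * 2 * i + y + (m * 2 * l + z) = 2 * (m * (i + l)) + (y + z) := by ring
        rw [this, Nat.mul_add_div (by norm_num)]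
      rw [a1, ← Nat.div_div_eq_div_mul, Nat.mul_add_div hm]
    rw [e1, e2, e3, e4]
    by_cases hyz : y % 2 = z % 2
    · rw [if_pos hyz, e5 hyz, hh]
      simp [hyz]
    · rw [if_neg hyz, if_neg]
      tauto
  rw [sum_congr rfl h1]
  simp only [← mul_sum]
  rw [pat_sum]
  ring

/-- relation between ordered pairs and progressions -/
theorem pairs_relation (n : ℕ) (χ : ℕ → Fin 2) :
    ∑ x ∈ range n, ∑ z ∈ range n,
      (if x % 2 = z % 2 ∧ χ x = χ z ∧ χ x = χ ((x + z) / 2) then (1 : ℤ) else 0)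
      = n + 2 * ((monoPairs 3 n (fun x => χ (x - 1))).card : ℤ) := by
  classical
  set P : ℕ × ℕ → Prop := fun q => q.1 % 2 = q.2 % 2 ∧ χ q.1 = χ q.2 ∧ χ q.1 = χ ((q.1 + q.2) / 2)
    with hP
  have h0 : ∑ x ∈ range n, ∑ z ∈ range n,
      (if x % 2 = z % 2 ∧ χ x = χ z ∧ χ x = χ ((x + z) / 2) then (1 : ℤ) else 0)
      = (((range n ×ˢ range n).filter P).card : ℤ) := by
    rw [card_filter, ← sum_product']
    push_cast
    rfl
  rw [h0]
  have hsplit : (range n ×ˢ range n).filter P =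
      (((range n ×ˢ range n).filter (fun q => P q ∧ q.1 = q.2)) ∪
      ((range n ×ˢ range n).filter (fun q => P q ∧ q.1 < q.2))) ∪
      ((range n ×ˢ range n).filter (fun q => P q ∧ q.2 < q.1)) := by
    ext q
    simp only [mem_union, mem_filter]
    rcases lt_trichotomy q.1 q.2 with h | h | h <;> constructor <;> intro h' <;> tauto
  have hd1 : Disjoint ((range n ×ˢ range n).filter (fun q => P q ∧ q.1 = q.2))
      ((range n ×ˢ range n).filter (fun q => P q ∧ q.1 < q.2)) := by
    rw [disjoint_left]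
    intro q h1 h2
    simp only [mem_filter] at h1 h2
    omega
  have hd2 : Disjoint (((range n ×ˢ range n).filter (fun q => P q ∧ q.1 = q.2)) ∪
      ((range n ×ˢ range n).filter (fun q => P q ∧ q.1 < q.2)))
      ((range n ×ˢ range n).filter (fun q => P q ∧ q.2 < q.1)) := by
    rw [disjoint_left]
    intro q h1 h2
    simp only [mem_filter, mem_union] at h1 h2
    omega
  have hc1 : ((range n ×ˢ range n).filter (fun q => P q ∧ q.1 = q.2)).card = n := by
    have : (range n ×ˢ range n).filter (fun q => P q ∧ q.1 = q.2)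
        = (range n).image (fun x => (x, x)) := by
      ext ⟨a, b⟩
      simp only [mem_filter, mem_product, mem_range, mem_image, Prod.mk.injEq, hP]
      constructor
      · rintro ⟨⟨h1, h2⟩, _, h3⟩
        exact ⟨a, h1, rfl, h3⟩
      · rintro ⟨x, hx, rfl, rfl⟩
        refine ⟨⟨hx, hx⟩, ⟨rfl, rfl, ?_⟩, rfl⟩
        congr 1
        omega
    rw [this, card_image_of_injective _ (fun x y h => (Prod.mk.inj h).1), card_range]
  have hc2 : ((range n ×ˢ range n).filter (fun q => P q ∧ q.2 < q.1)).card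
      = ((range n ×ˢ range n).filter (fun q => P q ∧ q.1 < q.2)).card := by
    apply card_bij (fun q _ => (q.2, q.1))
    · rintro ⟨a, b⟩ h
      simp only [mem_filter, mem_product, mem_range, hP] at h ⊢
      obtain ⟨⟨h1, h2⟩, ⟨h3, h4, h5⟩, h6⟩ := h
      refine ⟨⟨h2, h1⟩, ⟨h3.symm, h4.symm, ?_⟩, h6⟩
      rw [← h4, h5, add_comm]
    · rintro ⟨a, b⟩ _ ⟨a', b'⟩ _ h
      simp only [Prod.mk.injEq] at h ⊢
      exact ⟨h.2, h.1⟩
    · rintro ⟨a, b⟩ h
      refine ⟨(b, a), ?_, rfl⟩
      simp only [mem_filter, mem_product, mem_range, hP] at h ⊢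
      obtain ⟨⟨h1, h2⟩, ⟨h3, h4, h5⟩, h6⟩ := h
      refine ⟨⟨h2, h1⟩, ⟨h3.symm, h4.symm, ?_⟩, h6⟩
      rw [← h4, h5, add_comm]
  have hc3 : ((range n ×ˢ range n).filter (fun q => P q ∧ q.1 < q.2)).card
      = (monoPairs 3 n (fun x => χ (x - 1))).card := by
    symm
    apply card_bij (fun q _ => (q.1 - 1, q.1 - 1 + 2 * q.2))
    · rintro ⟨a, d⟩ h
      simp only [monoPairs, mem_filter, mem_pairs (by norm_num : 2 ≤ 3)] at h
      obtain ⟨⟨h1, h2, h3⟩, h4⟩ := h
      have g1 := h4 1 (by norm_num)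
      have g2 := h4 2 (by norm_num)
      simp only [mem_filter, mem_product, mem_range, hP]
      refine ⟨⟨by omega, by omega⟩, ⟨by omega, ?_, ?_⟩, by omega⟩
      · rw [← g2]; congr 1; omega
      · rw [← g1]; congr 1; omega
    · rintro ⟨a, d⟩ h ⟨a', d'⟩ h' heq
      simp only [monoPairs, mem_filter, mem_pairs (by norm_num : 2 ≤ 3)] at h h'
      simp only [Prod.mk.injEq] at heq ⊢
      omega
    · rintro ⟨a, b⟩ h
      simp only [mem_filter, mem_product, mem_range, hP] at h
      obtain ⟨⟨h1, h2⟩, ⟨h3, h4, h5⟩, h6⟩ := h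
      refine ⟨(a + 1, (b - a) / 2), ?_, ?_⟩
      · simp only [monoPairs, mem_filter, mem_pairs (by norm_num : 2 ≤ 3)]
        refine ⟨⟨by omega, by omega, by omega⟩, ?_⟩
        intro i hi
        have e0 : a + 1 - 1 = a := by omega
        interval_cases i
        · simp
        · rw [e0, h5]; congr 1; omega
        · rw [e0, h4]; congr 1; omega
      · simp only [Prod.mk.injEq]
        omega
  rw [hsplit, card_union_of_disjoint hd2, card_union_of_disjoint hd1, hc1, hc2, hc3]
  push_cast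
  ring

/-- the block colouring -/
def blockCol (m : ℕ) (x : ℕ) : Fin 2 := pat ((x - 1) / (m * 2))

theorem block_count (m : ℕ) (hm : 0 < m) :
    ((monoPairs 3 (20 * m) (blockCol m)).card : ℤ) = 22 * (m : ℤ) ^ 2 - 10 * m := by
  have h1 := total_sum m hm
  have h2 := pairs_relation (10 * (m * 2)) (fun x => pat (x / (m * 2)))
  rw [h1] at h2
  have h3 : monoPairs 3 (10 * (m * 2)) (fun x => pat ((x - 1) / (m * 2)))
      = monoPairs 3 (20 * m) (blockCol m) := by
    have : 10 * (m * 2) = 20 * m := by ring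
    rw [this]
    rfl
  rw [h3] at h2
  push_cast at h2
  linarith

theorem mono_step (n t : ℕ) (χ : ℕ → Fin 2) :
    (monoPairs 3 n χ).card ≤ (monoPairs 3 (n + t) χ).card ∧
    (monoPairs 3 (n + t) χ).card ≤ (monoPairs 3 n χ).card + t * (n + t) := by
  constructor
  · apply card_le_card
    intro q hq
    simp only [monoPairs, mem_filter, mem_pairs (by norm_num : 2 ≤ 3)] at hq ⊢
    exact ⟨⟨hq.1.1, hq.1.2.1, by omega⟩, hq.2⟩
  · have hsub : monoPairs 3 (n + t) χ ⊆ monoPairs 3 n χ ∪
        ((range t ×ˢ Icc 1 (n + t)).image (fun q => (n + 1 + q.1 - 2 * q.2, q.2))) := by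
      rintro ⟨a, d⟩ hq
      simp only [monoPairs, mem_filter, mem_pairs (by norm_num : 2 ≤ 3)] at hq
      obtain ⟨⟨h1, h2, h3⟩, h4⟩ := hq
      rw [mem_union]
      by_cases h : a + 2 * d ≤ n
      · left
        simp only [monoPairs, mem_filter, mem_pairs (by norm_num : 2 ≤ 3)]
        exact ⟨⟨h1, h2, by omega⟩, h4⟩
      · right
        rw [mem_image]
        refine ⟨(a + 2 * d - (n + 1), d), ?_, ?_⟩
        · simp only [mem_product, mem_range, mem_Icc]
          omega
        · simp only [Prod.mk.injEq, and_true]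
          omega
    refine (card_le_card hsub).trans ((card_union_le _ _).trans ?_)
    apply Nat.add_le_add_left
    refine card_image_le.trans ?_
    rw [card_product, card_range, Nat.card_Icc]
    simp

theorem two_colours_three (n : ℕ) : ∃ χ : ℕ → Fin 2,
    |((monoPairs 3 n χ).card : ℝ) - 11 / 200 * (n : ℝ) ^ 2| ≤ 60 * (n : ℝ) := by
  by_cases hn : n < 20
  · refine ⟨fun _ => 0, ?_⟩
    have h1 := (mono_step 0 n (fun _ => 0)).2
    have h0 : (monoPairs 3 0 (fun _ => (0 : Fin 2))).card = 0 := by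
      rw [card_eq_zero, eq_empty_iff_forall_notMem]
      intro q hq
      simp only [monoPairs, mem_filter, mem_pairs (by norm_num : 2 ≤ 3)] at hq
      omega
    rw [h0] at h1
    simp only [zero_add] at h1
    have h2 : ((monoPairs 3 n (fun _ => (0 : Fin 2))).card : ℝ) ≤ n * n := by exact_mod_cast h1
    have h3 : (n : ℝ) < 20 := by exact_mod_cast hn
    have h4 : (0 : ℝ) ≤ n := Nat.cast_nonneg _
    have h5 : (0 : ℝ) ≤ ((monoPairs 3 n (fun _ => (0 : Fin 2))).card : ℝ) := Nat.cast_nonneg _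
    rw [abs_le]
    constructor <;> nlinarith
  · push Not at hn
    have hm : 0 < n / 20 := Nat.div_pos hn (by norm_num)
    obtain ⟨m, hmd⟩ : ∃ m, m = n / 20 := ⟨_, rfl⟩
    obtain ⟨t, ht⟩ : ∃ t, t = n % 20 := ⟨_, rfl⟩
    have hn2 : n = 20 * m + t := by omega
    have ht20 : t < 20 := by omega
    refine ⟨blockCol m, ?_⟩
    have h1 := block_count m (by omega)
    have h2 := mono_step (20 * m) t (blockCol m)
    rw [← hn2] at h2
    have h1' : ((monoPairs 3 (20 * m) (blockCol m)).card : ℝ) = 22 * (m : ℝ) ^ 2 - 10 * m := by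
      exact_mod_cast h1
    have h3 : ((monoPairs 3 (20 * m) (blockCol m)).card : ℝ) ≤ ((monoPairs 3 n (blockCol m)).card : ℝ) := by
      exact_mod_cast h2.1
    have h4 : ((monoPairs 3 n (blockCol m)).card : ℝ) ≤
        ((monoPairs 3 (20 * m) (blockCol m)).card : ℝ) + t * n := by
      exact_mod_cast h2.2
    have h5 : (n : ℝ) = 20 * m + t := by exact_mod_cast hn2
    have h6 : (t : ℝ) ≤ 20 := by exact_mod_cast ht20.le
    have h7 : (0 : ℝ) ≤ t := Nat.cast_nonneg _
    have h8 : (0 : ℝ) ≤ m := Nat.cast_nonneg _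
    have h9 : (t : ℝ) * n ≤ 20 * n := by
      apply mul_le_mul_of_nonneg_right h6 (Nat.cast_nonneg _)
    rw [abs_le]
    constructor <;> nlinarith

end Pool.Agent.H22R3
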