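import Mathlib

set_option autoImplicit false

/-!
The generating function by edges of the labelled even graphs.
-/

namespace Pool.Agent.H22R3.EG

open Polynomial Finset

open Classical in
/-- The sum of `X ^ |E(G)|` over the even graphs `G` on `Fin p` which are fixed by `α`. -/
noncomputable def W {p : ℕ} (α : Equiv.Perm (Fin p)) : ℚ[X] :=
  ∑ G ∈ (Finset.univ : Finset (SimpleGraph (Fin p))).filter
    (fun G => (∀ v, Even (G.degree v)) ∧ ∀ u v, G.Adj (α u) (α v) ↔ G.Adj u v),
    X ^ G.edgeFinset.card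

variable {p : ℕ}

/-- the sign of an edge with respect to a set of vertices -/
noncomputable def tau (S : Finset (Fin p)) (e : Sym2 (Fin p)) : ℚ[X] :=
  ∏ v ∈ S, (if v ∈ e then -1 else 1)

open Classical in
lemma mem_ef (G : SimpleGraph (Fin p)) (e : Sym2 (Fin p)) : e ∈ G.edgeFinset ↔ e ∈ G.edgeSet :=
  SimpleGraph.mem_edgeFinset

open Classical in
lemma sum_graphs (F : Finset (Sym2 (Fin p)) → ℚ[X]) :
    ∑ G : SimpleGraph (Fin p), F G.edgeFinset =
      ∑ s ∈ (⊤ : SimpleGraph (Fin p)).edgeFinset.powerset, F s := by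
  apply Finset.sum_bij (fun G _ => G.edgeFinset)
  · intro G _
    rw [Finset.mem_powerset]
    exact SimpleGraph.edgeFinset_mono le_top
  · intro G _ G' _ h
    exact SimpleGraph.edgeFinset_inj.mp h
  · intro s hs
    rw [Finset.mem_powerset] at hs
    refine ⟨SimpleGraph.fromEdgeSet (s : Set (Sym2 (Fin p))), Finset.mem_univ _, ?_⟩
    ext e
    refine (mem_ef _ e).trans ?_
    rw [SimpleGraph.edgeSet_fromEdgeSet]
    constructor
    · intro h
      exact h.1
    · intro h
      refine ⟨h, ?_⟩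
      have := hs h
      rw [SimpleGraph.mem_edgeFinset, SimpleGraph.edgeSet_top] at this
      exact this
  · intro G _
    rfl

open Classical in
lemma W_one_eq : C ((2 : ℚ) ^ p) * W (1 : Equiv.Perm (Fin p)) =
    ∑ s ∈ (⊤ : SimpleGraph (Fin p)).edgeFinset.powerset,
      X ^ s.card * ∏ v : Fin p, (1 + (-1) ^ (s.filter fun e => v ∈ e).card) := by
  rw [← sum_graphs (fun s => X ^ s.card * ∏ v : Fin p, (1 + (-1) ^ (s.filter fun e => v ∈ e).card))]
  unfold W
  rw [Finset.sum_filter, Finset.mul_sum]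
  apply Finset.sum_congr rfl
  intro G _
  have hdeg : ∀ v, (G.edgeFinset.filter fun e => v ∈ e).card = G.degree v := by
    intro v
    rw [← SimpleGraph.incidenceFinset_eq_filter, SimpleGraph.card_incidenceFinset_eq_degree]
  have hone : ∀ u v, G.Adj ((1 : Equiv.Perm (Fin p)) u) ((1 : Equiv.Perm (Fin p)) v) ↔ G.Adj u v :=
    fun u v => Iff.rfl
  have hfix : (∀ u v, G.Adj ((1 : Equiv.Perm (Fin p)) u) ((1 : Equiv.Perm (Fin p)) v) ↔
      G.Adj u v) ↔ True := by
    simp
  simp only [hdeg]
  by_cases hev : ∀ v, Even (G.degree v)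
  · rw [if_pos ⟨hev, hone⟩]
    have h1 : ∏ v : Fin p, (1 + (-1) ^ (G.degree v) : ℚ[X]) = C ((2 : ℚ) ^ p) := by
      rw [Finset.prod_congr rfl (g := fun _ => (C 2 : ℚ[X]))]
      · rw [Finset.prod_const, Finset.card_univ, Fintype.card_fin, C_pow]
      · intro v _
        rw [(hev v).neg_one_pow]
        have : (C (2 : ℚ) : ℚ[X]) = 2 := rfl
        rw [this]
        norm_num
    rw [h1, mul_comm]
  · rw [if_neg (fun h => hev h.1), mul_zero]
    push Not at hev
    obtain ⟨v, hv⟩ := hev
    rw [Finset.prod_eq_zero (Finset.mem_univ v), mul_zero]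
    rw [(Nat.not_even_iff_odd.mp hv).neg_one_pow]
    ring

open Classical in
lemma W_one_eq' : C ((2 : ℚ) ^ p) * W (1 : Equiv.Perm (Fin p)) =
    ∑ S ∈ (Finset.univ : Finset (Fin p)).powerset,
      ∏ e ∈ (⊤ : SimpleGraph (Fin p)).edgeFinset, (1 + X * tau S e) := by
  rw [W_one_eq]
  have h1 : ∀ s ∈ (⊤ : SimpleGraph (Fin p)).edgeFinset.powerset,
      X ^ s.card * ∏ v : Fin p, (1 + (-1) ^ (s.filter fun e => v ∈ e).card) =
      ∑ S ∈ (Finset.univ : Finset (Fin p)).powerset, ∏ e ∈ s, (X * tau S e : ℚ[X]) := by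
    intro s _
    rw [Finset.prod_one_add, Finset.mul_sum]
    apply Finset.sum_congr rfl
    intro S _
    rw [Finset.prod_mul_distrib, Finset.prod_const]
    congr 1
    unfold tau
    rw [Finset.prod_comm]
    apply Finset.prod_congr rfl
    intro v _
    rw [Finset.prod_ite, Finset.prod_const, Finset.prod_const_one, mul_one]
  rw [Finset.sum_congr rfl h1, Finset.sum_comm]
  apply Finset.sum_congr rfl
  intro S _
  rw [Finset.prod_one_add]

/-- the edges with exactly one end in `S` -/
def cut (S : Finset (Fin p)) : Finset (Sym2 (Fin p)) :=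
  (S ×ˢ Sᶜ).image fun q => s(q.1, q.2)

lemma card_cut (S : Finset (Fin p)) : (cut S).card = S.card * (p - S.card) := by
  unfold cut
  rw [Finset.card_image_of_injOn, Finset.card_product, Finset.card_compl, Fintype.card_fin]
  rintro ⟨a, b⟩ h1 ⟨a', b'⟩ h2 h
  rw [Finset.mem_coe, Finset.mem_product, Finset.mem_compl] at h1 h2
  simp only [Sym2.eq_iff] at h
  rcases h with ⟨rfl, rfl⟩ | ⟨rfl, rfl⟩
  · rfl
  · exact absurd h1.1 h2.2

lemma mem_cut {S : Finset (Fin p)} {a b : Fin p} :
    s(a, b) ∈ cut S ↔ (a ∈ S ∧ b ∉ S) ∨ (b ∈ S ∧ a ∉ S) := by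
  unfold cut
  rw [Finset.mem_image]
  constructor
  · rintro ⟨⟨c, d⟩, h1, h2⟩
    rw [Finset.mem_product, Finset.mem_compl] at h1
    rw [Sym2.eq_iff] at h2
    rcases h2 with ⟨rfl, rfl⟩ | ⟨rfl, rfl⟩
    · exact Or.inl h1
    · exact Or.inr h1
  · rintro (h | h)
    · exact ⟨(a, b), by rw [Finset.mem_product, Finset.mem_compl]; exact h, rfl⟩
    · exact ⟨(b, a), by rw [Finset.mem_product, Finset.mem_compl]; exact h, Sym2.eq_swap⟩

lemma tau_mk (S : Finset (Fin p)) {a b : Fin p} (hab : a ≠ b) :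
    tau S s(a, b) = (if a ∈ S then -1 else 1) * (if b ∈ S then -1 else 1) := by
  unfold tau
  have h : ∀ v, (if v ∈ s(a, b) then (-1 : ℚ[X]) else 1) =
      (if v = a then -1 else 1) * (if v = b then -1 else 1) := by
    intro v
    by_cases h1 : v = a
    · subst h1
      rw [if_pos (Sym2.mem_mk_left v b), if_pos rfl, if_neg hab, mul_one]
    · by_cases h2 : v = b
      · subst h2
        rw [if_pos (Sym2.mem_mk_right a v), if_neg h1, if_pos rfl, one_mul]
      · rw [if_neg (by rw [Sym2.mem_iff]; tauto), if_neg h1, if_neg h2, one_mul]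
  rw [Finset.prod_congr rfl fun v _ => h v, Finset.prod_mul_distrib,
    Finset.prod_ite_eq', Finset.prod_ite_eq']

open Classical in
lemma prod_edges (S : Finset (Fin p)) :
    ∏ e ∈ (⊤ : SimpleGraph (Fin p)).edgeFinset, (1 + X * tau S e) =
      (1 + X) ^ (p.choose 2 - S.card * (p - S.card)) * (1 - X) ^ (S.card * (p - S.card)) := by
  have hsub : cut S ⊆ (⊤ : SimpleGraph (Fin p)).edgeFinset := by
    intro e
    induction e using Sym2.ind with
    | _ a b =>
      intro h
      rw [mem_cut] at h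
      rw [SimpleGraph.mem_edgeFinset, SimpleGraph.mem_edgeSet, SimpleGraph.top_adj]
      rintro rfl
      rcases h with h | h <;> exact h.2 h.1
  rw [← Finset.prod_sdiff hsub]
  have h1 : ∏ e ∈ cut S, (1 + X * tau S e) = (1 - X) ^ (S.card * (p - S.card)) := by
    rw [← card_cut, ← Finset.prod_const]
    apply Finset.prod_congr rfl
    intro e he
    have he' := hsub he
    induction e using Sym2.ind with
    | _ a b =>
      rw [SimpleGraph.mem_edgeFinset, SimpleGraph.mem_edgeSet, SimpleGraph.top_adj] at he'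
      rw [mem_cut] at he
      rw [tau_mk S he']
      rcases he with h | h
      · rw [if_pos h.1, if_neg h.2]; ring
      · rw [if_neg h.2, if_pos h.1]; ring
  have h2 : ∏ e ∈ (⊤ : SimpleGraph (Fin p)).edgeFinset \ cut S, (1 + X * tau S e) =
      (1 + X) ^ (p.choose 2 - S.card * (p - S.card)) := by
    have hc : ((⊤ : SimpleGraph (Fin p)).edgeFinset \ cut S).card =
        p.choose 2 - S.card * (p - S.card) := by
      rw [Finset.card_sdiff_of_subset hsub, card_cut,
        SimpleGraph.card_edgeFinset_top_eq_card_choose_two, Fintype.card_fin]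
    rw [← hc, ← Finset.prod_const]
    apply Finset.prod_congr rfl
    intro e he
    rw [Finset.mem_sdiff] at he
    obtain ⟨he', he⟩ := he
    induction e using Sym2.ind with
    | _ a b =>
      rw [SimpleGraph.mem_edgeFinset, SimpleGraph.mem_edgeSet, SimpleGraph.top_adj] at he'
      rw [mem_cut] at he
      rw [tau_mk S he']
      by_cases ha : a ∈ S
      · have hb : b ∈ S := by
          by_contra hb
          exact he (Or.inl ⟨ha, hb⟩)
        rw [if_pos ha, if_pos hb]; ring
      · have hb : b ∉ S := by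
          intro hb
          exact he (Or.inr ⟨hb, ha⟩)
        rw [if_neg ha, if_neg hb]; ring
  rw [h1, h2]

/-- the labelled even graphs -/
theorem W_one (p : ℕ) : W (1 : Equiv.Perm (Fin p)) = ∑ k ∈ range (p + 1),
    C ((p.choose k : ℚ) / 2 ^ p) *
      ((1 + X) ^ (p.choose 2 - k * (p - k)) * (1 - X) ^ (k * (p - k))) := by
  classical
  have h2 : (C ((2 : ℚ) ^ p) : ℚ[X]) ≠ 0 := by
    rw [Ne, C_eq_zero]
    positivity
  apply mul_left_cancel₀ h2
  rw [W_one_eq', Finset.sum_congr rfl fun S _ => prod_edges S]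
  rw [Finset.sum_powerset_apply_card (fun k => ((1 + X) ^ (p.choose 2 - k * (p - k)) *
    (1 - X) ^ (k * (p - k)) : ℚ[X])), Finset.card_univ, Fintype.card_fin, Finset.mul_sum]
  apply Finset.sum_congr rfl
  intro k _
  have h3 : (C ((2 : ℚ) ^ p) : ℚ[X]) * C ((p.choose k : ℚ) / 2 ^ p) = (p.choose k : ℚ[X]) := by
    rw [← C_mul, mul_div_cancel₀ _ (by positivity), map_natCast]
  rw [nsmul_eq_mul, ← h3]
  ring

end Pool.Agent.H22R3.EG
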