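import Pool.Agent.H22R3.Sparse

set_option autoImplicit false

/-!
Products of factors `1 + X ^ k`, `1 - X ^ k` with `k` in a fixed finite set, and the impossibility of
writing a polynomial with a lacunary structure at `1` as a sum of few of them.
-/

namespace Pool.Agent.H22R3.EG

open Polynomial Finset

/-- common denominator of the logarithmic derivatives -/
noncomputable def Q (K : Finset ℕ) : ℚ[X] := ∏ k ∈ K, ((1 + X ^ k) * (1 - X ^ k))

variable {K : Finset ℕ}

lemma plus_ne {k : ℕ} : (1 + X ^ k : ℚ[X]) ≠ 0 := by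
  intro h
  have := congrArg (eval 1) h
  norm_num at this

lemma minus_ne {k : ℕ} (hk : k ≠ 0) : (1 - X ^ k : ℚ[X]) ≠ 0 := by
  intro h
  have := congrArg (eval 0) h
  simp [hk] at this

lemma Q_ne (hK : 0 ∉ K) : Q K ≠ 0 := by
  unfold Q
  rw [Finset.prod_ne_zero_iff]
  intro k hk
  exact mul_ne_zero plus_ne (minus_ne fun h => hK (h ▸ hk))

lemma R_plus {k : ℕ} (hk : k ∈ K) : R K 1 (1 + X ^ k) :=
  R_add (R_mono (Nat.zero_le 1) R_one) (R_X_pow hk)

lemma R_minus {k : ℕ} (hk : k ∈ K) : R K 1 (1 - X ^ k) :=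
  R_sub (R_mono (Nat.zero_le 1) R_one) (R_X_pow hk)

lemma R_prod (s : Finset ℕ) (hs : s ⊆ K) :
    R K (2 * s.card) (∏ k ∈ s, ((1 + X ^ k) * (1 - X ^ k))) := by
  classical
  induction s using Finset.induction_on with
  | empty => simpa using R_one
  | insert a s ha ih =>
    rw [Finset.prod_insert ha, Finset.card_insert_of_notMem ha]
    have h1 : a ∈ K := hs (Finset.mem_insert_self a s)
    have h2 := R_mul (R_mul (R_plus h1) (R_minus h1)) (ih ((Finset.subset_insert a s).trans hs))
    exact R_mono (by omega) h2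

lemma R_Q : R K (2 * K.card) (Q K) := R_prod K (subset_refl K)

/-- `u` is nonzero and its logarithmic derivative is a fraction with denominator `Q K` and a
numerator with few exponents -/
def U (K : Finset ℕ) (u : ℚ[X]) : Prop :=
  u ≠ 0 ∧ ∃ P, R K (2 * K.card) P ∧ Q K * th u = P * u

lemma th_one : th (1 : ℚ[X]) = 0 := by
  unfold th
  rw [derivative_one, mul_zero]

lemma R_zero {m : ℕ} : R K m 0 := by
  intro n hn
  rw [coeff_zero] at hn
  exact absurd rfl hn

lemma U_one : U K 1 := ⟨one_ne_zero, 0, R_zero, by rw [th_one]; ring⟩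

lemma U_mul {u v : ℚ[X]} (hu : U K u) (hv : U K v) : U K (u * v) := by
  obtain ⟨hu0, P, hP, e⟩ := hu
  obtain ⟨hv0, P', hP', e'⟩ := hv
  refine ⟨mul_ne_zero hu0 hv0, P + P', R_add hP hP', ?_⟩
  rw [th_mul]
  linear_combination v * e + u * e'

lemma U_pow {u : ℚ[X]} (hu : U K u) (n : ℕ) : U K (u ^ n) := by
  induction n with
  | zero => rw [pow_zero]; exact U_one
  | succ n ih => rw [pow_succ]; exact U_mul ih hu

lemma U_prod {ι : Type*} (s : Finset ι) (f : ι → ℚ[X]) (hf : ∀ i ∈ s, U K (f i)) :
    U K (∏ i ∈ s, f i) := by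
  classical
  induction s using Finset.induction_on with
  | empty => simpa using U_one
  | insert a s ha ih =>
    rw [Finset.prod_insert ha]
    exact U_mul (hf a (Finset.mem_insert_self a s))
      (ih fun i hi => hf i (Finset.mem_insert_of_mem hi))

lemma th_X_pow (k : ℕ) : th (X ^ k : ℚ[X]) = C (k : ℚ) * X ^ k := by
  ext n
  rw [th_coeff, coeff_C_mul, coeff_X_pow]
  split_ifs with h
  · rw [h]
  · ring

lemma th_add (f g : ℚ[X]) : th (f + g) = th f + th g := by
  unfold th
  rw [derivative_add]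
  ring

lemma th_sub (f g : ℚ[X]) : th (f - g) = th f - th g := by
  unfold th
  rw [derivative_sub]
  ring

lemma U_plus {k : ℕ} (hk : k ∈ K) : U K (1 + X ^ k) := by
  classical
  refine ⟨plus_ne, C (k : ℚ) * (X ^ k * (1 - X ^ k) *
    ∏ j ∈ K.erase k, ((1 + X ^ j) * (1 - X ^ j))), ?_, ?_⟩
  · have h1 := R_mul (R_C (K := K) (k : ℚ)) (R_mul (R_mul (R_X_pow hk) (R_minus hk))
      (R_prod (K.erase k) (Finset.erase_subset k K)))
    refine R_mono ?_ h1
    rw [Finset.card_erase_of_mem hk]
    have := Finset.card_pos.mpr ⟨k, hk⟩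
    omega
  · rw [th_add, th_one, th_X_pow]
    unfold Q
    rw [← Finset.mul_prod_erase K _ hk]
    ring

lemma U_minus {k : ℕ} (hk : k ∈ K) (h0 : k ≠ 0) : U K (1 - X ^ k) := by
  classical
  refine ⟨minus_ne h0, C (-(k : ℚ)) * (X ^ k * (1 + X ^ k) *
    ∏ j ∈ K.erase k, ((1 + X ^ j) * (1 - X ^ j))), ?_, ?_⟩
  · have h1 := R_mul (R_C (K := K) (-(k : ℚ))) (R_mul (R_mul (R_X_pow hk) (R_plus hk))
      (R_prod (K.erase k) (Finset.erase_subset k K)))
    refine R_mono ?_ h1
    rw [Finset.card_erase_of_mem hk]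
    have := Finset.card_pos.mpr ⟨k, hk⟩
    omega
  · rw [th_sub, th_one, th_X_pow, map_neg]
    unfold Q
    rw [← Finset.mul_prod_erase K _ hk]
    ring

/-- the order of a combination is close to the order of one of its terms -/
lemma locate (hK : 0 ∉ K) {ι : Type*} (s : Finset ι) (u : ι → ℚ[X]) (c : ι → ℚ)
    (hu : ∀ i ∈ s, U K (u i)) (n : ℕ) (hn : s.card ≤ n)
    (hf : ∑ i ∈ s, C (c i) * u i ≠ 0) :
    ∃ i ∈ s, rootMultiplicity 1 (u i) ≤ rootMultiplicity 1 (∑ i ∈ s, C (c i) * u i) ∧
      rootMultiplicity 1 (∑ i ∈ s, C (c i) * u i) ≤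
        rootMultiplicity 1 (u i) + B K.card (2 * K.card) n 0 := by
  classical
  set f : ℚ[X] := ∑ i ∈ s, C (c i) * u i with hfdef
  set o := rootMultiplicity 1 f with ho
  set low := s.filter fun i => rootMultiplicity 1 (u i) ≤ o with hlow
  set fl : ℚ[X] := ∑ i ∈ low, C (c i) * u i with hfl
  have hsplit : fl + ∑ i ∈ s.filter (fun i => ¬ rootMultiplicity 1 (u i) ≤ o), C (c i) * u i = f :=
    Finset.sum_filter_add_sum_filter_not s _ _
  have hhigh : (X - C 1) ^ (o + 1) ∣
      ∑ i ∈ s.filter (fun i => ¬ rootMultiplicity 1 (u i) ≤ o), C (c i) * u i := by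
    apply Finset.dvd_sum
    intro i hi
    rw [Finset.mem_filter] at hi
    apply Dvd.dvd.mul_left
    rw [← le_rootMultiplicity_iff (hu i hi.1).1]
    omega
  have hfd : (X - C 1) ^ o ∣ f := pow_rootMultiplicity_dvd f 1
  have hfn : ¬ (X - C 1) ^ (o + 1) ∣ f := by
    intro h
    have := (le_rootMultiplicity_iff hf).mpr h
    omega
  have hfln : ¬ (X - C 1) ^ (o + 1) ∣ fl := by
    intro h
    exact hfn (hsplit ▸ dvd_add h hhigh)
  have hfl0 : fl ≠ 0 := by
    intro h
    exact hfln (h ▸ dvd_zero _)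
  have hfld : (X - C 1) ^ o ∣ fl := by
    have h1 : fl = f - ∑ i ∈ s.filter (fun i => ¬ rootMultiplicity 1 (u i) ≤ o), C (c i) * u i := by
      rw [← hsplit]; ring
    rw [h1]
    exact dvd_sub hfd ((pow_dvd_pow _ (Nat.le_succ o)).trans hhigh)
  have hord : rootMultiplicity 1 fl = o := by
    apply le_antisymm
    · by_contra h
      push Not at h
      exact hfln ((le_rootMultiplicity_iff hfl0).mp h)
    · exact (le_rootMultiplicity_iff hfl0).mpr hfld
  have hP : ∀ i : ι, ∃ P, i ∈ s → (R K (2 * K.card) P ∧ Q K * th (u i) = P * u i) := by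
    intro i
    by_cases hi : i ∈ s
    · obtain ⟨P, hP⟩ := (hu i hi).2
      exact ⟨P, fun _ => hP⟩
    · exact ⟨0, fun h => absurd h hi⟩
  choose P hP using hP
  have hcard : low.card ≤ n := (Finset.card_filter_le _ _).trans hn
  obtain ⟨i, hi, hle⟩ := zero_est (Q_ne hK) R_Q u P n 0 low (fun i => C (c i)) hcard
    (fun i hi => ⟨(hu i (Finset.mem_filter.mp hi).1).1, (hP i (Finset.mem_filter.mp hi).1).1,
      (hP i (Finset.mem_filter.mp hi).1).2⟩)
    (fun i _ => R_C _) hfl0
  rw [Finset.mem_filter] at hi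
  refine ⟨i, hi.1, hi.2, ?_⟩
  have h2 : rootMultiplicity 1 (∑ i ∈ low, C (c i) * u i) = o := hord
  rw [h2] at hle
  exact hle

lemma ord_pow_mul {G : ℚ[X]} (h : G.eval 1 ≠ 0) (n : ℕ) :
    rootMultiplicity 1 ((1 - X) ^ n * G) = n := by
  have hG : G ≠ 0 := by
    rintro rfl
    exact h eval_zero
  have e : ((1 - X) ^ n * G : ℚ[X]) = (X - C 1) ^ n * ((-1) ^ n * G) := by
    have : (1 - X : ℚ[X]) = (-1) * (X - C 1) := by rw [map_one]; ring
    rw [this, mul_pow]
    ring
  rw [e]
  have h1 : ((-1) ^ n * G : ℚ[X]) ≠ 0 := mul_ne_zero (pow_ne_zero _ (by norm_num)) hG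
  rw [rootMultiplicity_mul (mul_ne_zero (pow_ne_zero _ (X_sub_C_ne_zero 1)) h1),
    rootMultiplicity_X_sub_C_pow]
  rw [rootMultiplicity_eq_zero, add_zero]
  intro hr
  rw [IsRoot.def, eval_mul] at hr
  rcases mul_eq_zero.mp hr with h2 | h2
  · simp at h2
  · exact h h2

/-- `k (p - k) + B < r (p - r)` if `k < r` and `p` is large -/
lemma gap {k r p b : ℕ} (hk : k < r) (hp : b + r + k < p) : k * (p - k) + b < r * (p - r) := by
  obtain ⟨q, rfl⟩ : ∃ q, p = r + k + q := ⟨p - (r + k), by omega⟩
  have hq : b < q := by omega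
  have h1 : r + k + q - k = r + q := by omega
  have h2 : r + k + q - r = k + q := by omega
  rw [h1, h2]
  obtain ⟨d, rfl⟩ : ∃ d, r = k + 1 + d := ⟨r - (k + 1), by omega⟩
  nlinarith [Nat.zero_le (d * q)]

/-- The main argument. If `W = ∑_k w_k (1 + X) ^ (N - k (p - k)) (1 - X) ^ (k (p - k))` with
positive symmetric `w_k` then `M W` is not a combination of `T` products. -/
lemma main_abstract (hK : 0 ∉ K) (h1K : 1 ∈ K) (T p N : ℕ) (w : ℕ → ℚ) (hw : ∀ k ≤ p, 0 < w k)
    (hsym : ∀ k ≤ p, w (p - k) = w k) (W M : ℚ[X]) (hM : U K M)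
    (hW : W = ∑ k ∈ range (p + 1),
      C (w k) * ((1 + X) ^ (N - k * (p - k)) * (1 - X) ^ (k * (p - k))))
    (b : Fin T → ℚ[X]) (hb : ∀ i, U K (b i)) (c : Fin T → ℚ)
    (heq : M * W = ∑ i, C (c i) * b i)
    (hp : B K.card (2 * K.card) (2 * T + 1) 0 + (2 * T + 2) < p) : False := by
  classical
  set bd := B K.card (2 * K.card) (2 * T + 1) 0 with hbd
  set A : ℕ → ℚ[X] := fun k => (1 + X) ^ (N - k * (p - k)) * (1 - X) ^ (k * (p - k)) with hA
  set μ := rootMultiplicity 1 M with hμ
  have hA0 : ∀ k, U K (A k) := fun k => by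
    have e1 := U_plus h1K
    have e2 := U_minus h1K one_ne_zero
    rw [pow_one] at e1 e2
    exact U_mul (U_pow e1 _) (U_pow e2 _)
  have hAord : ∀ k, rootMultiplicity 1 (A k) = k * (p - k) := by
    intro k
    simp only [hA]
    rw [mul_comm]
    apply ord_pow_mul
    norm_num
  have hAsym : ∀ k ≤ p, A (p - k) = A k := by
    intro k hk
    simp only [hA]
    have : (p - k) * (p - (p - k)) = k * (p - k) := by
      rw [Nat.sub_sub_self hk, mul_comm]
    rw [this]
  -- the tails
  have tail : ∀ r, 2 * r < p → W = ∑ k ∈ range r, C (2 * w k) * A k +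
      ∑ k ∈ Finset.Icc r (p - r), C (w k) * A k := by
    intro r hr
    induction r with
    | zero =>
      rw [hW, Finset.sum_range_zero, zero_add]
      apply Finset.sum_congr _ fun k _ => rfl
      ext k
      simp only [Finset.mem_range, Finset.mem_Icc]
      omega
    | succ r ih =>
      rw [ih (by omega), Finset.sum_range_succ, add_assoc]
      congr 1
      have e1 : Finset.Icc r (p - r) = insert r (insert (p - r) (Finset.Icc (r + 1) (p - (r + 1)))) := by
        ext k
        simp only [Finset.mem_insert, Finset.mem_Icc]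
        omega
      rw [e1, Finset.sum_insert, Finset.sum_insert, hAsym r (by omega), hsym r (by omega)]
      · rw [map_mul]
        have : (C (2 : ℚ) : ℚ[X]) = 2 := rfl
        rw [this]
        ring
      · simp only [Finset.mem_Icc]
        omega
      · simp only [Finset.mem_insert, Finset.mem_Icc]
        omega
  have tailord : ∀ r, 2 * r < p →
      (∑ k ∈ Finset.Icc r (p - r), C (w k) * A k) ≠ 0 ∧
      rootMultiplicity 1 (∑ k ∈ Finset.Icc r (p - r), C (w k) * A k) = r * (p - r) := by
    intro r hr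
    set G : ℚ[X] := ∑ k ∈ Finset.Icc r (p - r),
      C (w k) * ((1 + X) ^ (N - k * (p - k)) * (1 - X) ^ (k * (p - k) - r * (p - r))) with hG
    have e : ∑ k ∈ Finset.Icc r (p - r), C (w k) * A k = (1 - X) ^ (r * (p - r)) * G := by
      rw [hG, Finset.mul_sum]
      apply Finset.sum_congr rfl
      intro k hk
      rw [Finset.mem_Icc] at hk
      have h1 : r * (p - r) ≤ k * (p - k) := by
        obtain ⟨x, rfl⟩ : ∃ x, k = r + x := ⟨k - r, by omega⟩
        obtain ⟨y, rfl⟩ : ∃ y, p = r + x + r + y := ⟨p - (r + x + r), by omega⟩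
        have e1 : r + x + r + y - r = r + x + y := by omega
        have e2 : r + x + r + y - (r + x) = r + y := by omega
        rw [e1, e2]
        nlinarith [Nat.zero_le (x * y)]
      have h2 : ((1 - X) ^ (k * (p - k)) : ℚ[X]) =
          (1 - X) ^ (r * (p - r)) * (1 - X) ^ (k * (p - k) - r * (p - r)) := by
        rw [← pow_add, Nat.add_sub_cancel' h1]
      simp only [hA]
      rw [h2]
      ring
    have hG1 : 0 < G.eval 1 := by
      rw [hG, eval_finsetSum]
      apply Finset.sum_pos'
      · intro k hk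
        rw [Finset.mem_Icc] at hk
        have := (hw k (by omega)).le
        simp only [eval_mul, eval_C, eval_pow, eval_add, eval_sub, eval_one, eval_X, sub_self]
        apply mul_nonneg this
        apply mul_nonneg
        · positivity
        · exact pow_nonneg le_rfl _
      · refine ⟨r, Finset.mem_Icc.mpr ⟨le_rfl, by omega⟩, ?_⟩
        have := hw r (by omega)
        simp only [eval_mul, eval_C, eval_pow, eval_add, eval_sub, eval_one, eval_X, sub_self,
          Nat.sub_self, pow_zero, mul_one]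
        exact mul_pos this (by positivity)
    rw [e]
    refine ⟨?_, ord_pow_mul hG1.ne' _⟩
    apply mul_ne_zero
    · apply pow_ne_zero
      have := minus_ne (k := 1) one_ne_zero
      rwa [pow_one] at this
    · rintro h
      rw [h, eval_zero] at hG1
      exact lt_irrefl _ hG1
  -- localisation
  set u : Fin T ⊕ ℕ → ℚ[X] := Sum.elim b fun k => M * A k with hu
  have key : ∀ r, 1 ≤ r → r ≤ T + 1 → ∃ i : Fin T,
      rootMultiplicity 1 (b i) ≤ μ + r * (p - r) ∧
      μ + r * (p - r) ≤ rootMultiplicity 1 (b i) + bd := by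
    intro r hr1 hr2
    set cc : Fin T ⊕ ℕ → ℚ := Sum.elim c fun k => -(2 * w k) with hcc
    set s : Finset (Fin T ⊕ ℕ) := Finset.disjSum Finset.univ (range r) with hs
    have hsum : ∑ i ∈ s, C (cc i) * u i = M * ∑ k ∈ Finset.Icc r (p - r), C (w k) * A k := by
      rw [hs, Finset.sum_disjSum]
      simp only [hcc, hu, Sum.elim_inl, Sum.elim_inr]
      have e1 : ∑ k ∈ range r, C (-(2 * w k)) * (M * A k) =
          -(M * ∑ k ∈ range r, C (2 * w k) * A k) := by
        rw [Finset.mul_sum, ← Finset.sum_neg_distrib]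
        apply Finset.sum_congr rfl
        intro k _
        rw [map_neg]
        ring
      have e2 := tail r (by omega)
      rw [← heq, e1]
      linear_combination M * e2
    have hto := tailord r (by omega)
    have hne : ∑ i ∈ s, C (cc i) * u i ≠ 0 := by
      rw [hsum]
      exact mul_ne_zero hM.1 hto.1
    have hord : rootMultiplicity 1 (∑ i ∈ s, C (cc i) * u i) = μ + r * (p - r) := by
      rw [hsum, rootMultiplicity_mul (mul_ne_zero hM.1 hto.1), hto.2]
    have hcard : s.card ≤ 2 * T + 1 := by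
      rw [hs, Finset.card_disjSum, Finset.card_univ, Fintype.card_fin, Finset.card_range]
      omega
    obtain ⟨i, hi, h1, h2⟩ := locate hK s u cc (by
      intro i _
      rcases i with i | k
      · exact hb i
      · exact U_mul hM (hA0 k)) (2 * T + 1) hcard hne
    rw [hord] at h1 h2
    rcases i with i | k
    · exact ⟨i, h1, h2⟩
    · exfalso
      rw [hs, Finset.inr_mem_disjSum, Finset.mem_range] at hi
      have h3 : rootMultiplicity 1 (u (Sum.inr k)) = μ + k * (p - k) := by
        simp only [hu, Sum.elim_inr]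
        rw [rootMultiplicity_mul (mul_ne_zero hM.1 (hA0 k).1), hAord]
      rw [h3] at h2
      have h4 := gap (b := bd) hi (show bd + r + k < p by omega)
      omega
  choose i hi1 hi2 using fun r : Fin (T + 1) => key (r.1 + 1) (by omega) (by omega)
  have hinj : Function.Injective i := by
    have hne : ∀ r r' : Fin (T + 1), r < r' → i r ≠ i r' := by
      intro r r' hlt heq
      have h1 := hi1 r
      have h2 := hi2 r'
      rw [heq] at h1
      have h4 := gap (b := bd) (k := r.1 + 1) (r := r'.1 + 1) (p := p) (by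
        have : r.1 < r'.1 := hlt
        omega) (by omega)
      omega
    intro r r' h
    rcases lt_trichotomy r r' with h1 | h1 | h1
    · exact absurd h (hne r r' h1)
    · exact h1
    · exact absurd h.symm (hne r' r h1)
  have := Fintype.card_le_of_injective i hinj
  rw [Fintype.card_fin, Fintype.card_fin] at this
  omega

end Pool.Agent.H22R3.EG
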