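import Mathlib

set_option autoImplicit false

namespace Pool.Agent.H22R3

open Finset

variable {p : ℕ} [hp : Fact p.Prime]

/-- squared absolute value of a quadratic Gauss sum with linear term -/
theorem gauss_normSq (hp2 : p ≠ 2) (ψ : AddChar (ZMod p) ℂ) (hψ : ψ.IsPrimitive) (u v : ZMod p)
    (hu : u ≠ 0) : ‖∑ x : ZMod p, ψ (u * x ^ 2 + v * x)‖ = Real.sqrt p := by
  classical
  set S := ∑ x : ZMod p, ψ (u * x ^ 2 + v * x) with hS
  have h2 : (2 : ZMod p) ≠ 0 := by
    intro h
    have : ((2 : ℕ) : ZMod p) = 0 := by exact_mod_cast h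
    rw [ZMod.natCast_eq_zero_iff] at this
    have := (Nat.prime_dvd_prime_iff_eq hp.out Nat.prime_two).1 this
    exact hp2 this
  have h1 : S * (starRingEnd ℂ) S = p := by
    rw [hS, map_sum, sum_mul_sum, sum_comm]
    have e1 : ∀ y : ZMod p, ∑ x : ZMod p, ψ (u * x ^ 2 + v * x) *
        (starRingEnd ℂ) (ψ (u * y ^ 2 + v * y))
        = ∑ h : ZMod p, ψ (u * h ^ 2 + v * h) * ψ (y * (2 * u * h)) := by
      intro y
      rw [← Equiv.sum_comp (Equiv.addRight y)]
      apply sum_congr rfl
      intro h _
      rw [← AddChar.map_neg_eq_conj, ← AddChar.map_add_eq_mul, ← AddChar.map_add_eq_mul]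
      congr 1
      simp only [Equiv.coe_addRight]
      ring
    rw [sum_congr rfl (fun y _ => e1 y), sum_comm]
    have e2 : ∀ h : ZMod p, ∑ y : ZMod p, ψ (u * h ^ 2 + v * h) * ψ (y * (2 * u * h))
        = if h = 0 then (p : ℂ) else 0 := by
      intro h
      rw [← mul_sum, AddChar.sum_mulShift _ hψ]
      by_cases hh : h = 0
      · simp [hh, ZMod.card]
      · rw [if_neg hh, if_neg]
        · simp
        · intro h0
          rcases mul_eq_zero.1 h0 with h3 | h3
          · rcases mul_eq_zero.1 h3 with h4 | h4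
            · exact h2 h4
            · exact hu h4
          · exact hh h3
    rw [sum_congr rfl (fun h _ => e2 h)]
    simp
  have h3 : (‖S‖ : ℂ) ^ 2 = p := by
    rw [← h1, Complex.mul_conj']
  have h4 : ‖S‖ ^ 2 = p := by exact_mod_cast h3
  rw [← h4, Real.sqrt_sq (norm_nonneg _)]

/-- double quadratic sums are small unless all coefficients vanish -/
theorem double_sum_bound (hp2 : p ≠ 2) (ψ : AddChar (ZMod p) ℂ) (hψ : ψ.IsPrimitive)
    (A B C D E : ZMod p) (h : ¬ (A = 0 ∧ B = 0 ∧ C = 0 ∧ D = 0 ∧ E = 0)) :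
    ‖∑ q : ZMod p × ZMod p, ψ (A * q.1 ^ 2 + B * q.1 * q.2 + C * q.2 ^ 2 + D * q.1 + E * q.2)‖
      ≤ p * Real.sqrt p := by
  classical
  have hp1 : (1 : ℝ) ≤ Real.sqrt p := by
    rw [Real.one_le_sqrt]
    exact_mod_cast hp.out.one_lt.le
  have hcard : (Fintype.card (ZMod p) : ℝ) = p := by rw [ZMod.card]
  by_cases hA : A = 0
  · by_cases hC : C = 0
    · by_cases hB : B = 0
      · -- purely linear
        have h0 : ∑ q : ZMod p × ZMod p,
            ψ (A * q.1 ^ 2 + B * q.1 * q.2 + C * q.2 ^ 2 + D * q.1 + E * q.2)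
            = (∑ a : ZMod p, ψ (a * D)) * ∑ d : ZMod p, ψ (d * E) := by
          rw [Fintype.sum_prod_type, sum_mul_sum]
          apply sum_congr rfl; intro a _
          apply sum_congr rfl; intro d _
          rw [← AddChar.map_add_eq_mul, hA, hB, hC]
          congr 1; ring
        rw [h0, AddChar.sum_mulShift _ hψ, AddChar.sum_mulShift _ hψ]
        by_cases hD : D = 0
        · have hE : E ≠ 0 := fun hE => h ⟨hA, hB, hC, hD, hE⟩
          simp [hE]; positivity
        · simp [hD]; positivity
      · have h0 : ∑ q : ZMod p × ZMod p,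
            ψ (A * q.1 ^ 2 + B * q.1 * q.2 + C * q.2 ^ 2 + D * q.1 + E * q.2)
            = ∑ d : ZMod p, ψ (E * d) * ∑ a : ZMod p, ψ (a * (B * d + D)) := by
          rw [Fintype.sum_prod_type, sum_comm]
          apply sum_congr rfl; intro d _
          rw [mul_sum]
          apply sum_congr rfl; intro a _
          rw [← AddChar.map_add_eq_mul, hA, hC]
          congr 1; ring
        rw [h0]
        refine (norm_sum_le _ _).trans ?_
        calc ∑ d : ZMod p, ‖ψ (E * d) * ∑ a : ZMod p, ψ (a * (B * d + D))‖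
            ≤ ∑ d : ZMod p, (if d = -D / B then (p : ℝ) else 0) := by
              apply sum_le_sum
              intro d _
              rw [norm_mul, AddChar.norm_apply, one_mul, AddChar.sum_mulShift _ hψ]
              by_cases hd : B * d + D = 0
              · have : d = -D / B := by
                  rw [eq_div_iff hB]; linear_combination hd
                rw [if_pos this, if_pos hd]
                simp
              · rw [if_neg hd]
                split_ifs <;> simp
          _ = p := by simp
          _ ≤ p * Real.sqrt p := by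
              have : (0:ℝ) ≤ p := Nat.cast_nonneg _
              nlinarith
    · have h0 : ∑ q : ZMod p × ZMod p,
            ψ (A * q.1 ^ 2 + B * q.1 * q.2 + C * q.2 ^ 2 + D * q.1 + E * q.2)
            = ∑ a : ZMod p, ψ (A * a ^ 2 + D * a) * ∑ d : ZMod p, ψ (C * d ^ 2 + (B * a + E) * d) := by
        rw [Fintype.sum_prod_type]
        apply sum_congr rfl; intro a _
        rw [mul_sum]
        apply sum_congr rfl; intro d _
        rw [← AddChar.map_add_eq_mul]
        congr 1; ring
      rw [h0]
      refine (norm_sum_le _ _).trans ?_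
      calc ∑ a : ZMod p, ‖ψ (A * a ^ 2 + D * a) * ∑ d : ZMod p, ψ (C * d ^ 2 + (B * a + E) * d)‖
          = ∑ a : ZMod p, Real.sqrt p := by
            apply sum_congr rfl
            intro a _
            rw [norm_mul, AddChar.norm_apply, one_mul, gauss_normSq hp2 ψ hψ _ _ hC]
        _ ≤ p * Real.sqrt p := by simp
  · have h0 : ∑ q : ZMod p × ZMod p,
            ψ (A * q.1 ^ 2 + B * q.1 * q.2 + C * q.2 ^ 2 + D * q.1 + E * q.2)
            = ∑ d : ZMod p, ψ (C * d ^ 2 + E * d) * ∑ a : ZMod p, ψ (A * a ^ 2 + (B * d + D) * a) := by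
      rw [Fintype.sum_prod_type, sum_comm]
      apply sum_congr rfl; intro d _
      rw [mul_sum]
      apply sum_congr rfl; intro a _
      rw [← AddChar.map_add_eq_mul]
      congr 1; ring
    rw [h0]
    refine (norm_sum_le _ _).trans ?_
    calc ∑ d : ZMod p, ‖ψ (C * d ^ 2 + E * d) * ∑ a : ZMod p, ψ (A * a ^ 2 + (B * d + D) * a)‖
        = ∑ d : ZMod p, Real.sqrt p := by
          apply sum_congr rfl
          intro a _
          rw [norm_mul, AddChar.norm_apply, one_mul, gauss_normSq hp2 ψ hψ _ _ hA]
      _ ≤ p * Real.sqrt p := by simp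

end Pool.Agent.H22R3
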