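import Pool.Agent.H22R3.Factors
import Pool.Agent.H22R3.EvenGF

set_option autoImplicit false

/-!
Representations by few products of powers (with integer exponents) of few factors `1 + x ^ k`,
`1 - x ^ k`.
-/

namespace Pool.Agent.H22R3.EG

open Polynomial Finset

lemma B_mono (n : ℕ) : ∀ {L L' D D' m m' : ℕ}, L ≤ L' → D ≤ D' → m ≤ m' →
    B L D n m ≤ B L' D' n m' := by
  induction n with
  | zero => intro L L' D D' m m' _ _ _; exact le_rfl
  | succ n ih =>
    intro L L' D D' m m' h1 h2 h3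
    have e1 : B L D (n + 1) m = (m + 1) ^ L + B L D n (2 * m + D) + 1 := rfl
    have e2 : B L' D' (n + 1) m' = (m' + 1) ^ L' + B L' D' n (2 * m' + D') + 1 := rfl
    have e3 := ih h1 h2 (show 2 * m + D ≤ 2 * m' + D' by omega)
    have e4 : (m + 1) ^ L ≤ (m' + 1) ^ L' :=
      (Nat.pow_le_pow_left (by omega) L).trans (Nat.pow_le_pow_right (by omega) h1)
    omega

/-- The polynomial `F` is a combination with rational coefficients of `T` products of powers with
integer exponents of `x` and of factors `1 + x ^ k` and `1 - x ^ k`, where altogether at most `L`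
different positive indices `k` occur. -/
def HasForm (F : ℚ[X]) (T L : ℕ) : Prop :=
  ∃ (K : Finset ℕ) (c : Fin T → ℚ) (e : Fin T → ℤ) (a b : Fin T → ℕ → ℤ), 0 ∉ K ∧ K.card ≤ L ∧
    algebraMap ℚ[X] (RatFunc ℚ) F = ∑ i, RatFunc.C (c i) * (RatFunc.X ^ (e i) *
      ∏ k ∈ K, ((1 + RatFunc.X ^ k) ^ (a i k) * (1 - RatFunc.X ^ k) ^ (b i k)))

lemma U_X {K : Finset ℕ} : U K X := by
  refine ⟨X_ne_zero, Q K, R_Q, ?_⟩
  unfold th
  rw [derivative_X, mul_one]

lemma clear {F : ℚ[X]} {T : ℕ} {K : Finset ℕ} (hK : 0 ∉ K) {c : Fin T → ℚ} {e : Fin T → ℤ}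
    {a b : Fin T → ℕ → ℤ}
    (h : algebraMap ℚ[X] (RatFunc ℚ) F = ∑ i, RatFunc.C (c i) * (RatFunc.X ^ (e i) *
      ∏ k ∈ K, ((1 + RatFunc.X ^ k) ^ (a i k) * (1 - RatFunc.X ^ k) ^ (b i k)))) :
    ∃ (N : ℕ) (E : Fin T → ℕ) (A B : Fin T → ℕ → ℕ),
      (X ^ N * ∏ k ∈ K, ((1 + X ^ k) ^ N * (1 - X ^ k) ^ N)) * F =
        ∑ i, C (c i) * (X ^ (E i) *
          ∏ k ∈ K, ((1 + X ^ k) ^ (A i k) * (1 - X ^ k) ^ (B i k))) := by
  classical
  set N : ℕ := ∑ i, ((e i).natAbs + ∑ k ∈ K, ((a i k).natAbs + (b i k).natAbs)) with hN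
  have hle0 : ∀ i, (e i).natAbs + ∑ k ∈ K, ((a i k).natAbs + (b i k).natAbs) ≤ N := fun i =>
    Finset.single_le_sum
            (f := fun i => (e i).natAbs + ∑ k ∈ K, ((a i k).natAbs + (b i k).natAbs))
            (fun _ _ => Nat.zero_le _) (Finset.mem_univ i)
  have hle : ∀ i, ∀ k ∈ K, (a i k).natAbs + (b i k).natAbs ≤ N := by
    intro i k hk
    calc (a i k).natAbs + (b i k).natAbs ≤ ∑ k ∈ K, ((a i k).natAbs + (b i k).natAbs) :=
          Finset.single_le_sum (f := fun k => (a i k).natAbs + (b i k).natAbs)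
            (fun _ _ => Nat.zero_le _) hk
      _ ≤ N := by have := hle0 i; omega
  refine ⟨N, fun i => (e i + N).toNat, fun i k => (a i k + N).toNat,
    fun i k => (b i k + N).toNat, ?_⟩
  apply IsFractionRing.injective ℚ[X] (RatFunc ℚ)
  have hmap : ∀ k, algebraMap ℚ[X] (RatFunc ℚ) (1 + X ^ k) = 1 + RatFunc.X ^ k := by
    intro k
    rw [map_add, map_one, map_pow, RatFunc.algebraMap_X]
  have hmap' : ∀ k, algebraMap ℚ[X] (RatFunc ℚ) (1 - X ^ k) = 1 - RatFunc.X ^ k := by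
    intro k
    rw [map_sub, map_one, map_pow, RatFunc.algebraMap_X]
  have hne : ∀ k, (1 + RatFunc.X ^ k : RatFunc ℚ) ≠ 0 := by
    intro k
    rw [← hmap]
    intro h0
    exact plus_ne ((IsFractionRing.injective ℚ[X] (RatFunc ℚ)) (h0.trans (map_zero _).symm))
  have hne' : ∀ k ∈ K, (1 - RatFunc.X ^ k : RatFunc ℚ) ≠ 0 := by
    intro k hk
    rw [← hmap']
    intro h0
    exact minus_ne (fun h1 => hK (h1 ▸ hk))
      ((IsFractionRing.injective ℚ[X] (RatFunc ℚ)) (h0.trans (map_zero _).symm))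
  rw [map_mul, h, map_sum, Finset.mul_sum]
  apply Finset.sum_congr rfl
  intro i _
  have h3 : 0 ≤ e i + N := by have := hle0 i; omega
  have e3 : (RatFunc.X : RatFunc ℚ) ^ ((e i + N).toNat) = RatFunc.X ^ (e i) * RatFunc.X ^ N := by
    rw [← zpow_natCast, Int.toNat_of_nonneg h3, zpow_add₀ RatFunc.X_ne_zero, zpow_natCast]
  rw [map_mul, map_mul, map_mul, RatFunc.algebraMap_C, map_prod, map_prod, map_pow, map_pow,
    RatFunc.algebraMap_X, e3]
  have e4 : ∀ u v w z y : RatFunc ℚ, u * v * (w * (z * y)) = w * ((z * u) * (v * y)) := by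
    intro u v w z y
    ring
  rw [e4]
  congr 2
  rw [← Finset.prod_mul_distrib]
  apply Finset.prod_congr rfl
  intro k hk
  have h1 : 0 ≤ a i k + N := by have := hle i k hk; omega
  have h2 : 0 ≤ b i k + N := by have := hle i k hk; omega
  rw [map_mul, map_mul, map_pow, map_pow, map_pow, map_pow, hmap, hmap']
  have e1 : (1 + RatFunc.X ^ k : RatFunc ℚ) ^ ((a i k + N).toNat) =
      (1 + RatFunc.X ^ k) ^ (a i k) * (1 + RatFunc.X ^ k) ^ N := by
    rw [← zpow_natCast, Int.toNat_of_nonneg h1, zpow_add₀ (hne k), zpow_natCast]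
  have e2 : (1 - RatFunc.X ^ k : RatFunc ℚ) ^ ((b i k + N).toNat) =
      (1 - RatFunc.X ^ k) ^ (b i k) * (1 - RatFunc.X ^ k) ^ N := by
    rw [← zpow_natCast, Int.toNat_of_nonneg h2, zpow_add₀ (hne' k hk), zpow_natCast]
  rw [e1, e2]
  ring

/-- For `p` large the generating function of the labelled even graphs on `p` vertices is not a
combination of `T` products with at most `L` different indices. -/
theorem no_form (T L : ℕ) : ∃ P : ℕ, ∀ p, P ≤ p → ¬ HasForm (W (1 : Equiv.Perm (Fin p))) T L := by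
  classical
  refine ⟨B (L + 1) (2 * (L + 1)) (2 * T + 1) 0 + (2 * T + 2) + 1, ?_⟩
  rintro p hp ⟨K, c, e, a, b, hK, hL, h⟩
  obtain ⟨N, E, A, A', h1⟩ := clear hK h
  have hK' : 0 ∉ insert 1 K := by
    rw [Finset.mem_insert]
    rintro (h | h)
    · exact absurd h (by norm_num)
    · exact hK h
  have hcard : (insert 1 K).card ≤ L + 1 := (Finset.card_insert_le 1 K).trans (by omega)
  have hU : ∀ k ∈ K, ∀ m n : ℕ, U (insert 1 K) ((1 + X ^ k) ^ m * (1 - X ^ k) ^ n) := by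
    intro k hk m n
    have h0 : k ≠ 0 := fun h => hK (h ▸ hk)
    exact U_mul (U_pow (U_plus (Finset.mem_insert_of_mem hk)) m)
      (U_pow (U_minus (Finset.mem_insert_of_mem hk) h0) n)
  have hbd := B_mono (2 * T + 1) hcard (show 2 * (insert 1 K).card ≤ 2 * (L + 1) by omega)
    (le_refl 0)
  refine main_abstract hK' (Finset.mem_insert_self 1 K) T p (p.choose 2)
    (fun k => (p.choose k : ℚ) / 2 ^ p) ?_ ?_ (W (1 : Equiv.Perm (Fin p)))
    (X ^ N * ∏ k ∈ K, ((1 + X ^ k) ^ N * (1 - X ^ k) ^ N))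
    (U_mul (U_pow U_X N) (U_prod K _ fun k hk => hU k hk N N)) (W_one p)
    (fun i => X ^ (E i) * ∏ k ∈ K, ((1 + X ^ k) ^ (A i k) * (1 - X ^ k) ^ (A' i k)))
    (fun i => U_mul (U_pow U_X _) (U_prod K _ fun k hk => hU k hk _ _)) c h1 (by omega)
  · intro k hk
    have : 0 < p.choose k := Nat.choose_pos hk
    positivity
  · intro k hk
    rw [Nat.choose_symm hk]

end Pool.Agent.H22R3.EG
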