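import Pool.Agent.H862R3.Prim.Stmts2

set_option autoImplicit false

namespace Pool.Agent.H22R3.PV

open Pool.Agent.H862R3.Prim

variable {G : Type} [Group G]

/-- the conjugate `g T g⁻¹` -/
def cj (g : G) (T : Subgroup G) : Subgroup G := T.map (MulAut.conj g).toMonoidHom

theorem mem_cj (g : G) (T : Subgroup G) (x : G) : x ∈ cj g T ↔ g⁻¹ * x * g ∈ T := by
  unfold cj
  rw [Subgroup.mem_map]
  constructor
  · rintro ⟨y, hy, rfl⟩
    simpa [mul_assoc] using hy
  · intro h
    exact ⟨_, h, by simp [mul_assoc]⟩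

theorem cj_one (T : Subgroup G) : cj 1 T = T := by
  ext x; rw [mem_cj]; simp

theorem cj_mul (a b : G) (T : Subgroup G) : cj (a * b) T = cj a (cj b T) := by
  ext x; rw [mem_cj, mem_cj, mem_cj]; simp [mul_assoc]

theorem cj_mono (g : G) {S T : Subgroup G} (h : S ≤ T) : cj g S ≤ cj g T := by
  intro x hx
  rw [mem_cj] at hx ⊢
  exact h hx

theorem cj_inv_cj (g : G) (T : Subgroup G) : cj g⁻¹ (cj g T) = T := by
  rw [← cj_mul]; simp [cj_one]

theorem cj_cj_inv (g : G) (T : Subgroup G) : cj g (cj g⁻¹ T) = T := by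
  rw [← cj_mul]; simp [cj_one]

theorem cj_bot_iff (g : G) (T : Subgroup G) : cj g T = ⊥ ↔ T = ⊥ := by
  have hb : ∀ h : G, cj h (⊥ : Subgroup G) = ⊥ := by
    intro h
    ext x; rw [mem_cj]
    simp only [Subgroup.mem_bot]
    constructor
    · intro hx
      have : x = h * (h⁻¹ * x * h) * h⁻¹ := by group
      rw [this, hx]; simp
    · rintro rfl; simp
  constructor
  · intro h
    rw [← cj_inv_cj g T, h, hb]
  · rintro rfl; exact hb g

/-- `S` is normalised by `X` -/
def Nz (X S : Subgroup G) : Prop := ∀ x ∈ X, ∀ s ∈ S, x * s * x⁻¹ ∈ S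

theorem Nz.inf {X A B : Subgroup G} (hA : Nz X A) (hB : Nz X B) : Nz X (A ⊓ B) :=
  fun x hx s hs => ⟨hA x hx s hs.1, hB x hx s hs.2⟩

theorem Nz.cj {X T : Subgroup G} (hX : X.Normal) (h : Nz X T) (g : G) : Nz X (cj g T) := by
  intro x hx s hs
  rw [mem_cj] at hs ⊢
  have h1 : g⁻¹ * x * g ∈ X := by
    have := hX.conj_mem _ hx g⁻¹
    simpa [mul_assoc] using this
  have h2 := h _ h1 _ hs
  have h3 : g⁻¹ * (x * s * x⁻¹) * g = (g⁻¹ * x * g) * (g⁻¹ * s * g) * (g⁻¹ * x * g)⁻¹ := by group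
  rw [h3]; exact h2

theorem cj_normal (X : Subgroup G) (hX : X.Normal) (g : G) : cj g X = X := by
  ext x
  rw [mem_cj]
  constructor
  · intro h
    have := hX.conj_mem _ h g
    simpa [mul_assoc] using this
  · intro h
    have := hX.conj_mem _ h g⁻¹
    simpa [mul_assoc] using this

/-- minimal among the nontrivial subgroups of `X` normalised by `X` -/
def Mn (X T : Subgroup G) : Prop :=
  (T ≤ X ∧ T ≠ ⊥ ∧ Nz X T) ∧ ∀ S, S ≠ ⊥ → Nz X S → S ≤ T → S = T

theorem Mn.cj {X T : Subgroup G} (hX : X.Normal) (h : Mn X T) (g : G) : Mn X (cj g T) := by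
  refine ⟨⟨?_, ?_, h.1.2.2.cj hX g⟩, fun S hS hS2 hle => ?_⟩
  · rw [← cj_normal X hX g]; exact cj_mono g h.1.1
  · rw [Ne, cj_bot_iff]; exact h.1.2.1
  have h1 := h.2 (PV.cj g⁻¹ S) (by rw [Ne, cj_bot_iff]; exact hS) (hS2.cj hX g⁻¹) (by
    rw [← cj_inv_cj g T]; exact cj_mono _ hle)
  rw [← h1, cj_cj_inv]

theorem Mn.inf_or {X T S : Subgroup G} (h : Mn X T) (hS : Nz X S) : T ⊓ S = ⊥ ∨ T ≤ S := by
  by_cases hb : T ⊓ S = ⊥
  · exact Or.inl hb
  · right
    have := h.2 _ hb (h.1.2.2.inf hS) inf_le_left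
    rw [← this]; exact inf_le_right

theorem comm_of_inf {X A B : Subgroup G} (hA : Nz X A) (hB : Nz X B) (hAX : A ≤ X) (hBX : B ≤ X)
    (h : A ⊓ B = ⊥) : ∀ x ∈ A, ∀ y ∈ B, x * y = y * x := by
  intro x hx y hy
  have h1 : x * y * x⁻¹ * y⁻¹ ∈ A ⊓ B := by
    refine ⟨?_, ?_⟩
    · have h4 : x * y * x⁻¹ * y⁻¹ = x * (y * x⁻¹ * y⁻¹) := by group
      rw [h4]
      exact A.mul_mem hx (hA y (hBX hy) _ (A.inv_mem hx))
    · exact B.mul_mem (hB x (hAX hx) y hy) (B.inv_mem hy)
  rw [h, Subgroup.mem_bot] at h1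
  have h5 : x * y = (x * y * x⁻¹ * y⁻¹) * (y * x) := by group
  rw [h5, h1, one_mul]

theorem exists_Mn [Finite G] {P : Subgroup G} (hP : P.Normal) (hb : P ≠ ⊥) :
    ∃ T : Subgroup G, Mn P T := by
  have hne : {T : Subgroup G | T ≤ P ∧ T ≠ ⊥ ∧ Nz P T}.Nonempty :=
    ⟨P, le_rfl, hb, fun x _ s hs => hP.conj_mem s hs x⟩
  obtain ⟨m, hm⟩ := (Set.toFinite {T : Subgroup G | T ≤ P ∧ T ≠ ⊥ ∧ Nz P T}).exists_minimal hne
  exact ⟨m, hm.1, fun S hS hS2 hle => le_antisymm hle (hm.2 ⟨hle.trans hm.1.1, hS, hS2⟩ hle)⟩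

theorem iSup_cj {P T : Subgroup G} (hP : Pool.Agent.H862R3.Prim.MinNormal P) (hT : Mn P T) :
    (⨆ g : G, cj g T) = P := by
  have hle : ∀ h : G, cj h (⨆ g : G, cj g T) ≤ ⨆ g : G, cj g T := by
    intro h
    have : cj h (⨆ g : G, cj g T) = ⨆ g : G, cj h (cj g T) := by
      unfold cj
      rw [Subgroup.map_iSup]
    rw [this]
    refine iSup_le fun i => ?_
    rw [← cj_mul]
    exact le_iSup (fun g : G => cj g T) (h * i)
  refine hP.2.2 _ ?_ ?_ ?_
  · refine ⟨fun x hx h => hle h ?_⟩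
    rw [mem_cj]
    have : h⁻¹ * (h * x * h⁻¹) * h = x := by group
    rw [this]; exact hx
  · exact iSup_le fun i => (hT.cj hP.1 i).1.1
  · intro h
    have h1 : cj 1 T ≤ ⨆ g : G, cj g T := le_iSup (fun g : G => cj g T) 1
    rw [h, le_bot_iff, cj_bot_iff] at h1
    exact hT.1.2.1 h1

theorem nonab {P T : Subgroup G} (hP : Pool.Agent.H862R3.Prim.MinNormal P) (hT : Mn P T)
    (hna : ¬ Comm P) (g : G) : ¬ Comm (cj g T) := by
  intro hab0
  have hab : Comm T := by
    intro x hx y hy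
    have h1 : g * x * g⁻¹ ∈ cj g T := by
      rw [mem_cj]
      have : g⁻¹ * (g * x * g⁻¹) * g = x := by group
      rw [this]; exact hx
    have h2 : g * y * g⁻¹ ∈ cj g T := by
      rw [mem_cj]
      have : g⁻¹ * (g * y * g⁻¹) * g = y := by group
      rw [this]; exact hy
    have h3 := hab0 _ h1 _ h2
    have h4 : x * y = g⁻¹ * ((g * x * g⁻¹) * (g * y * g⁻¹)) * g := by group
    rw [h4, h3]; group
  have hTab : ∀ i : G, Comm (cj i T) := by
    intro i x hx y hy
    rw [mem_cj] at hx hy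
    have h1 := hab _ hx _ hy
    have h2 : x * y = i * ((i⁻¹ * x * i) * (i⁻¹ * y * i)) * i⁻¹ := by group
    rw [h2, h1]; group
  have hall : ∀ i j : G, ∀ x ∈ cj i T, ∀ y ∈ cj j T, x * y = y * x := by
    intro i j
    rcases (hT.cj hP.1 i).inf_or (hT.cj hP.1 j).1.2.2 with h | h
    · exact comm_of_inf (hT.cj hP.1 i).1.2.2 (hT.cj hP.1 j).1.2.2 (hT.cj hP.1 i).1.1
        (hT.cj hP.1 j).1.1 h
    · intro x hx y hy
      exact hTab j x (h hx) y hy
  have h1 : ∀ j, P ≤ Subgroup.centralizer (cj j T : Set G) := by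
    intro j
    rw [← iSup_cj hP hT]
    refine iSup_le fun i x hx => ?_
    rw [Subgroup.mem_centralizer_iff]
    intro y hy
    exact (hall i j x hx y hy).symm
  apply hna
  intro x hx y hy
  have h3 : P ≤ Subgroup.centralizer ({x} : Set G) := by
    rw [← iSup_cj hP hT]
    refine iSup_le fun j y hy => ?_
    rw [Subgroup.mem_centralizer_iff]
    intro z hz
    rw [Set.mem_singleton_iff] at hz
    subst hz
    exact ((Subgroup.mem_centralizer_iff.mp (h1 j hx)) y hy).symm
  exact (Subgroup.mem_centralizer_iff.mp (h3 hy)) x rfl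

theorem taskS : TaskS := by
  intro X _ _ P hP hna R hRP hRn
  obtain ⟨T, hT⟩ := exists_Mn hP.1 hP.2.1
  have hCn : Nz P (Subgroup.centralizer (R : Set X)) := by
    intro p hp c hc
    rw [Subgroup.mem_centralizer_iff] at hc ⊢
    intro r hr
    have h1 : p⁻¹ * r * p ∈ R := by
      have := hRn p⁻¹ (P.inv_mem hp) r hr
      simpa using this
    have h2 := hc _ h1
    have h3 : r * (p * c * p⁻¹) = p * ((p⁻¹ * r * p) * c) * p⁻¹ := by group
    rw [h3, h2]; group
  refine ⟨?_, ?_⟩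
  · by_contra hA
    have hAn : Nz P (R ⊓ Subgroup.centralizer (R : Set X)) := Nz.inf hRn hCn
    have hAab : Comm (R ⊓ Subgroup.centralizer (R : Set X)) := by
      intro x hx y hy
      exact (Subgroup.mem_centralizer_iff.mp hy.2) x hx.1
    have hcomm : ∀ g : X, ∀ x ∈ cj g T, ∀ y ∈ R ⊓ Subgroup.centralizer (R : Set X),
        x * y = y * x := by
      intro g
      rcases (hT.cj hP.1 g).inf_or hAn with h | h
      · exact comm_of_inf (hT.cj hP.1 g).1.2.2 hAn (hT.cj hP.1 g).1.1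
          (inf_le_left.trans hRP) h
      · exact absurd (fun x hx y hy => hAab x (h hx) y (h hy)) (nonab hP hT hna g)
    -- the centre of P
    have hZ : P ⊓ Subgroup.centralizer (P : Set X) = P := by
      refine hP.2.2 _ ?_ inf_le_left ?_
      · refine ⟨fun x hx g => ⟨hP.1.conj_mem x hx.1 g, ?_⟩⟩
        show g * x * g⁻¹ ∈ Subgroup.centralizer (P : Set X)
        rw [Subgroup.mem_centralizer_iff]
        intro r hr
        have h1 : g⁻¹ * r * g ∈ P := by
          have := hP.1.conj_mem r hr g⁻¹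
          simpa using this
        have h2 := (Subgroup.mem_centralizer_iff.mp hx.2) _ h1
        have h3 : r * (g * x * g⁻¹) = g * ((g⁻¹ * r * g) * x) * g⁻¹ := by group
        rw [h3, h2]; group
      · intro hbot
        apply hA
        rw [eq_bot_iff] at hbot ⊢
        intro a ha
        apply hbot
        refine ⟨hRP ha.1, ?_⟩
        show a ∈ Subgroup.centralizer (P : Set X)
        rw [Subgroup.mem_centralizer_iff]
        have h3 : P ≤ Subgroup.centralizer ({a} : Set X) := by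
          rw [← iSup_cj hP hT]
          refine iSup_le fun j y hy => ?_
          rw [Subgroup.mem_centralizer_iff]
          intro z hz
          rw [Set.mem_singleton_iff] at hz
          rw [hz]
          exact (hcomm j y hy a ha).symm
        intro r hr
        exact ((Subgroup.mem_centralizer_iff.mp (h3 hr)) a rfl).symm
    apply hna
    intro x hx y hy
    have hy2 : y ∈ P ⊓ Subgroup.centralizer (P : Set X) := by rw [hZ]; exact hy
    exact (Subgroup.mem_centralizer_iff.mp hy2.2) x hx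
  · refine le_antisymm (sup_le hRP inf_le_left) ?_
    rw [← iSup_cj hP hT]
    refine iSup_le fun g => ?_
    rw [iSup_cj hP hT]
    rcases (hT.cj hP.1 g).inf_or (S := R) hRn with h | h
    · refine le_trans ?_ le_sup_right
      refine le_inf (hT.cj hP.1 g).1.1 ?_
      intro x hx
      rw [Subgroup.mem_centralizer_iff]
      intro r hr
      exact (comm_of_inf (hT.cj hP.1 g).1.2.2 hRn (hT.cj hP.1 g).1.1 hRP h x hx r hr).symm
    · exact le_trans h le_sup_left

end Pool.Agent.H22R3.PV
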