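import Pool.Agent.H22R3.Gauss

set_option autoImplicit false

namespace Pool.Agent.H22R3

open Finset

/-- quadratic coefficients of the phases -/
def U : Fin 9 → ℤ := ![1, 1, 3, 3, -1, -1, -3, -3, 0]
/-- linear coefficients of the phases -/
def V : Fin 9 → ℤ := ![0, 1, 1, 2, 0, -1, -1, -2, 0]
/-- signs -/
def Cc : Fin 9 → ℤ := ![1, 1, 1, -1, 1, 1, 1, -1, 1]

theorem U_cases : ∀ s : Fin 9, s ≠ 8 → (U s = 1 ∨ U s = -1 ∨ U s = 3 ∨ U s = -3) := by decide

theorem final_check1 : ∀ s1 s2 s3 s4 : Fin 9, U s1 = 1 → U s2 = -3 → U s3 = 3 → U s4 = -1 →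
    V s1 + V s2 + V s3 + V s4 = 0 → V s2 + 2 * V s3 + 3 * V s4 = 0 →
    Cc s1 * Cc s2 * Cc s3 * Cc s4 = -1 := by decide +kernel

theorem final_check2 : ∀ s1 s2 s3 s4 : Fin 9, U s1 = -1 → U s2 = 3 → U s3 = -3 → U s4 = 1 →
    V s1 + V s2 + V s3 + V s4 = 0 → V s2 + 2 * V s3 + 3 * V s4 = 0 →
    Cc s1 * Cc s2 * Cc s3 * Cc s4 = -1 := by decide +kernel

theorem four_points (x1 x2 x3 x4 : ℤ) (h12 : x1 < x2) (h23 : x2 < x3) (h34 : x3 < x4)
    (s1 s2 s3 s4 : Fin 9) (n1 : s1 ≠ 8) (n2 : s2 ≠ 8) (n3 : s3 ≠ 8) (n4 : s4 ≠ 8)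
    (a0 : U s1 + U s2 + U s3 + U s4 = 0)
    (a1 : x1 * U s1 + x2 * U s2 + x3 * U s3 + x4 * U s4 = 0)
    (a2 : x1 ^ 2 * U s1 + x2 ^ 2 * U s2 + x3 ^ 2 * U s3 + x4 ^ 2 * U s4 = 0)
    (b0 : V s1 + V s2 + V s3 + V s4 = 0)
    (b1 : x1 * V s1 + x2 * V s2 + x3 * V s3 + x4 * V s4 = 0) :
    Cc s1 * Cc s2 * Cc s3 * Cc s4 = -1 := by
  obtain ⟨P, hP⟩ : ∃ P, P = x2 - x1 := ⟨_, rfl⟩
  obtain ⟨Q, hQ⟩ : ∃ Q, Q = x3 - x2 := ⟨_, rfl⟩
  obtain ⟨R, hR⟩ : ∃ R, R = x4 - x3 := ⟨_, rfl⟩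
  have hP0 : 0 < P := by omega
  have hQ0 : 0 < Q := by omega
  have hR0 : 0 < R := by omega
  have e2 : x2 = x1 + P := by omega
  have e3 : x3 = x1 + P + Q := by omega
  have e4 : x4 = x1 + P + Q + R := by omega
  subst e4 e3 e2
  have k1 : U s1 * ((P + Q) * (P + Q + R)) + U s2 * (Q * (Q + R)) = 0 := by
    linear_combination a2 - (2 * x1 + 2 * P + 2 * Q + R) * a1
      + (x1 + P + Q) * (x1 + P + Q + R) * a0
  have k2 : U s3 * (Q * (P + Q)) + U s4 * ((Q + R) * (P + Q + R)) = 0 := by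
    linear_combination a2 - (2 * x1 + P) * a1 + x1 * (x1 + P) * a0
  have c1 : (Q * (Q + R)) < (P + Q) * (P + Q + R) := by nlinarith
  have c2 : 0 < Q * (Q + R) := by positivity
  have c3 : Q * (P + Q) < (Q + R) * (P + Q + R) := by nlinarith
  have c4 : 0 < Q * (P + Q) := by positivity
  set X := (P + Q) * (P + Q + R) with hX
  set Y := Q * (Q + R) with hY
  set Z := Q * (P + Q) with hZ
  set W := (Q + R) * (P + Q + R) with hW
  have hu12 : (U s1 = 1 ∧ U s2 = -3) ∨ (U s1 = -1 ∧ U s2 = 3) := by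
    rcases U_cases s1 n1 with h | h | h | h <;> rcases U_cases s2 n2 with h' | h' | h' | h' <;>
      rw [h, h'] at k1 <;> first | (exact Or.inl ⟨h, h'⟩) | (exact Or.inr ⟨h, h'⟩) | (exfalso; omega)
  have hu34 : (U s3 = 3 ∧ U s4 = -1) ∨ (U s3 = -3 ∧ U s4 = 1) := by
    rcases U_cases s3 n3 with h | h | h | h <;> rcases U_cases s4 n4 with h' | h' | h' | h' <;>
      rw [h, h'] at k2 <;> first | (exact Or.inl ⟨h, h'⟩) | (exact Or.inr ⟨h, h'⟩) | (exfalso; omega)
  have hPQR : P = Q ∧ R = Q := by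
    have d1 : X = 3 * Y := by
      rcases hu12 with ⟨h, h'⟩ | ⟨h, h'⟩ <;> rw [h, h'] at k1 <;> linarith
    have d2 : W = 3 * Z := by
      rcases hu34 with ⟨h, h'⟩ | ⟨h, h'⟩ <;> rw [h, h'] at k2 <;> linarith
    have d3 : (P - R) * (P + 4 * Q + R) = 0 := by
      rw [hX, hY] at d1
      rw [hW, hZ] at d2
      linear_combination d1 - d2
    have d4 : P = R := by
      rcases mul_eq_zero.1 d3 with h | h
      · linarith
      · exfalso; linarith
    have d5 : (P + Q) * (P - Q) = 0 := by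
      rw [hX, hY, ← d4] at d1
      have : (P + Q) * (2 * P + Q - 3 * Q) = 0 := by linear_combination d1
      have h2 : (P + Q) * (2 * (P - Q)) = 0 := by linear_combination this
      rcases mul_eq_zero.1 h2 with h | h
      · rw [h]; ring
      · have : P - Q = 0 := by omega
        rw [this]; ring
    rcases mul_eq_zero.1 d5 with h | h
    · exfalso; linarith
    · exact ⟨by linarith, by linarith⟩
  obtain ⟨hPQ, hRQ⟩ := hPQR
  have v1 : V s2 + 2 * V s3 + 3 * V s4 = 0 := by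
    rw [hPQ, hRQ] at b1
    have : Q * (V s2 + 2 * V s3 + 3 * V s4) = 0 := by linear_combination b1 - x1 * b0
    rcases mul_eq_zero.1 this with h | h
    · exfalso; omega
    · exact h
  rcases hu12 with ⟨h1, h2⟩ | ⟨h1, h2⟩ <;> rcases hu34 with ⟨h3, h4⟩ | ⟨h3, h4⟩
  · exact final_check1 s1 s2 s3 s4 h1 h2 h3 h4 b0 v1
  · exfalso; omega
  · exfalso; omega
  · exact final_check2 s1 s2 s3 s4 h1 h2 h3 h4 b0 v1

variable {k : ℕ}

/-- all five moments vanish -/
def Valid (σ : Fin k → Fin 9) : Prop :=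
  ∑ i, U (σ i) = 0 ∧ ∑ i : Fin k, ((i : ℕ) : ℤ) * U (σ i) = 0 ∧
  ∑ i : Fin k, ((i : ℕ) : ℤ) ^ 2 * U (σ i) = 0 ∧ ∑ i, V (σ i) = 0 ∧
  ∑ i : Fin k, ((i : ℕ) : ℤ) * V (σ i) = 0

instance (σ : Fin k → Fin 9) : Decidable (Valid σ) := by unfold Valid; infer_instance

/-- support -/
def supp (σ : Fin k → Fin 9) : Finset (Fin k) := univ.filter (fun i => σ i ≠ 8)

theorem sum_supp (σ : Fin k → Fin 9) (F : Fin k → ℤ) (hF : ∀ i, σ i = 8 → F i = 0) :
    ∑ i, F i = ∑ i ∈ supp σ, F i := by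
  symm
  apply sum_subset (subset_univ _)
  intro i _ hi
  simp only [supp, mem_filter, mem_univ, true_and, not_not] at hi
  exact hF i hi

theorem U8 : U 8 = 0 := by decide
theorem V8 : V 8 = 0 := by decide
theorem Cc8 : Cc 8 = 1 := by decide

theorem valid_four (σ : Fin k → Fin 9) (h : Valid σ) (h4 : (supp σ).card = 4) :
    ∏ i, Cc (σ i) = -1 := by
  obtain ⟨a0, a1, a2, b0, b1⟩ := h
  rw [sum_supp σ _ (fun i hi => by rw [hi, U8])] at a0
  rw [sum_supp σ _ (fun i hi => by rw [hi, U8, mul_zero])] at a1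
  rw [sum_supp σ _ (fun i hi => by rw [hi, U8, mul_zero])] at a2
  rw [sum_supp σ _ (fun i hi => by rw [hi, V8])] at b0
  rw [sum_supp σ _ (fun i hi => by rw [hi, V8, mul_zero])] at b1
  have hprod : ∏ i, Cc (σ i) = ∏ i ∈ supp σ, Cc (σ i) := by
    symm
    apply prod_subset (subset_univ _)
    intro i _ hi
    simp only [supp, mem_filter, mem_univ, true_and, not_not] at hi
    rw [hi, Cc8]
  rw [hprod]
  set e := (supp σ).orderEmbOfFin h4 with he
  have himg : supp σ = univ.map e.toEmbedding := by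
    ext i
    rw [mem_map]
    constructor
    · intro hi
      have : i ∈ Set.range e := by
        rw [he, Finset.range_orderEmbOfFin]; exact hi
      obtain ⟨j, hj⟩ := this
      exact ⟨j, mem_univ _, hj⟩
    · rintro ⟨j, _, rfl⟩
      exact Finset.orderEmbOfFin_mem _ _ _
  rw [himg] at a0 a1 a2 b0 b1
  rw [himg]
  simp only [sum_map, prod_map, RelEmbedding.coe_toEmbedding, Fin.sum_univ_four,
    Fin.prod_univ_four] at a0 a1 a2 b0 b1 ⊢
  have hne : ∀ j, σ (e j) ≠ 8 := by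
    intro j
    have : e j ∈ supp σ := Finset.orderEmbOfFin_mem _ _ _
    simpa [supp] using this
  have hlt : ∀ i j : Fin 4, i < j → (((e i : Fin k) : ℕ) : ℤ) < (((e j : Fin k) : ℕ) : ℤ) := by
    intro i j hij
    have : e i < e j := e.strictMono hij
    exact_mod_cast this
  exact four_points _ _ _ _ (hlt 0 1 (by decide)) (hlt 1 2 (by decide)) (hlt 2 3 (by decide))
    _ _ _ _ (hne 0) (hne 1) (hne 2) (hne 3) a0 a1 a2 b0 b1

theorem valid_two (σ : Fin k → Fin 9) (h : Valid σ) : (supp σ).card ≠ 2 := by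
  intro h2
  obtain ⟨a0, a1, a2, b0, b1⟩ := h
  rw [sum_supp σ _ (fun i hi => by rw [hi, U8])] at a0
  rw [sum_supp σ _ (fun i hi => by rw [hi, U8, mul_zero])] at a1
  rw [card_eq_two] at h2
  obtain ⟨x, y, hxy, hs⟩ := h2
  have hx : σ x ≠ 8 := by
    have : x ∈ supp σ := by rw [hs]; simp
    simpa [supp] using this
  rw [hs, sum_pair hxy] at a0 a1
  have h3 : (((x : ℕ) : ℤ) - ((y : ℕ) : ℤ)) * U (σ x) = 0 := by
    linear_combination a1 - ((y : ℕ) : ℤ) * a0
  rcases mul_eq_zero.1 h3 with h | h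
  · apply hxy
    ext
    have : ((x : ℕ) : ℤ) = ((y : ℕ) : ℤ) := by linarith
    exact_mod_cast this
  · rcases U_cases (σ x) hx with h' | h' | h' | h' <;> omega

/-- the special assignment supported on the first four indices -/
def special (k : ℕ) : Fin k → Fin 9 := fun i =>
  if (i : ℕ) = 0 then 1 else if (i : ℕ) = 1 then 7 else if (i : ℕ) = 2 then 2
  else if (i : ℕ) = 3 then 4 else 8

theorem sum_special (hk : 4 ≤ k) (F : ℕ → Fin 9 → ℤ) (hF : ∀ i, F i 8 = 0) :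
    ∑ i : Fin k, F i (special k i) = F 0 1 + F 1 7 + F 2 2 + F 3 4 := by
  have h1 : ∑ i : Fin k, F i (special k i) = ∑ i ∈ range k, F i
      (if i = 0 then 1 else if i = 1 then 7 else if i = 2 then 2
        else if i = 3 then 4 else 8) := by
    rw [← Fin.sum_univ_eq_sum_range]
    rfl
  rw [h1, ← sum_subset (range_subset_range.2 hk)]
  · simp [sum_range_succ]
  · intro i _ hi
    rw [mem_range, not_lt] at hi
    rw [if_neg (by omega), if_neg (by omega), if_neg (by omega), if_neg (by omega)]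
    exact hF i

theorem special_valid (hk : 4 ≤ k) : Valid (special k) := by
  refine ⟨?_, ?_, ?_, ?_, ?_⟩
  · rw [sum_special hk (fun _ s => U s) (fun _ => U8)]; decide
  · rw [sum_special hk (fun i s => (i : ℤ) * U s) (fun _ => by simp [U8])]; decide
  · rw [sum_special hk (fun i s => (i : ℤ) ^ 2 * U s) (fun _ => by simp [U8])]; decide
  · rw [sum_special hk (fun _ s => V s) (fun _ => V8)]; decide
  · rw [sum_special hk (fun i s => (i : ℤ) * V s) (fun _ => by simp [V8])]; decide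

theorem special_card (hk : 4 ≤ k) : (supp (special k)).card = 4 := by
  have h := sum_special hk (fun _ s => if s = 8 then 0 else 1) (fun _ => by simp)
  have h2 : ((supp (special k)).card : ℤ) = ∑ i : Fin k, (if special k i = 8 then (0:ℤ) else 1) := by
    rw [supp, card_filter]
    push_cast
    apply sum_congr rfl
    intro i _
    by_cases hi : special k i = 8 <;> simp [hi]
  have h3 : ((supp (special k)).card : ℤ) = 4 := by
    rw [h2, h]; decide
  exact_mod_cast h3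

end Pool.Agent.H22R3
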