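import Pool.Agent.H22R3.APCount

set_option autoImplicit false

namespace Pool.Agent.H22R3

open Finset

theorem sum_prod_fun {ι κ : Type*} [Fintype ι] [DecidableEq ι] [Fintype κ] [DecidableEq κ]
    (F : ι → κ → ℝ) : ∑ c : ι → κ, ∏ x, F x (c x) = ∏ x, ∑ j, F x j := by
  rw [Finset.prod_univ_sum, Fintype.piFinset_univ]

/-- expectation of the event that a random colouring equals `j` on `S` -/
theorem sum_weight_event {ι κ : Type*} [Fintype ι] [DecidableEq ι] [Fintype κ] [DecidableEq κ]
    (f : κ → ι → ℝ) (hf1 : ∀ x, ∑ j, f j x = 1) (S : Finset ι) (j : κ) :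
    ∑ c : ι → κ, (∏ x, f (c x) x) * (if ∀ x ∈ S, c x = j then 1 else 0) = ∏ x ∈ S, f j x := by
  have h1 : ∀ c : ι → κ, (∏ x, f (c x) x) * (if ∀ x ∈ S, c x = j then (1:ℝ) else 0)
      = ∏ x, (f (c x) x * (if x ∈ S then (if c x = j then 1 else 0) else 1)) := by
    intro c
    rw [prod_mul_distrib]
    congr 1
    by_cases h : ∀ x ∈ S, c x = j
    · rw [if_pos h]
      symm
      apply prod_eq_one
      intro x _
      by_cases hx : x ∈ S
      · rw [if_pos hx, if_pos (h x hx)]
      · rw [if_neg hx]
    · rw [if_neg h]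
      push Not at h
      obtain ⟨x, hx, hxj⟩ := h
      symm
      apply prod_eq_zero (mem_univ x)
      rw [if_pos hx, if_neg hxj]
  rw [sum_congr rfl (fun c _ => h1 c)]
  rw [sum_prod_fun (fun x j' => f j' x * (if x ∈ S then (if j' = j then (1:ℝ) else 0) else 1))]
  have h2 : ∀ x : ι, ∑ j', f j' x * (if x ∈ S then (if j' = j then (1:ℝ) else 0) else 1)
      = if x ∈ S then f j x else 1 := by
    intro x
    by_cases hx : x ∈ S
    · simp [hx]
    · simp [hx, hf1 x]
  rw [prod_congr rfl (fun x _ => h2 x)]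
  rw [prod_ite_mem]
  simp

/-- Random rounding: fractional colourings of a cyclic group can be replaced by genuine ones. -/
theorem rounding (k N r : ℕ) [NeZero N] (hk : 1 ≤ k) (f : Fin r → ZMod N → ℝ)
    (hf0 : ∀ j x, 0 ≤ f j x) (hf1 : ∀ x, ∑ j, f j x = 1)
    (hinj : ∀ d : ZMod N, d ≠ 0 → ∀ i < k, ∀ j < k, (i : ZMod N) * d = (j : ZMod N) * d → i = j) :
    ∃ c : ZMod N → Fin r, ((monoZ k N c).card : ℝ) ≤
      (∑ p : ZMod N × ZMod N, ∑ j, ∏ i ∈ range k, f j (p.1 + (i : ZMod N) * p.2)) + N := by
  classical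
  set w : (ZMod N → Fin r) → ℝ := fun c => ∏ x, f (c x) x with hw
  have hw0 : ∀ c, 0 ≤ w c := fun c => prod_nonneg (fun x _ => hf0 _ _)
  have hw1 : ∑ c, w c = 1 := by
    rw [hw, sum_prod_fun (fun x j => f j x)]
    apply prod_eq_one
    intro x _
    exact hf1 x
  set E : ℝ := ∑ c, w c * ((monoZ k N c).card : ℝ) with hE
  have hex : ∃ c : ZMod N → Fin r, ((monoZ k N c).card : ℝ) ≤ E := by
    by_contra hcon
    push Not at hcon
    have h0 : ∑ c, w c * (((monoZ k N c).card : ℝ) - E) = 0 := by
      simp only [mul_sub, sum_sub_distrib, ← sum_mul, hw1, one_mul]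
      rw [hE]; ring
    have h1 := (sum_eq_zero_iff_of_nonneg (fun c _ =>
      mul_nonneg (hw0 c) (sub_nonneg.mpr (hcon c).le))).1 h0
    have h2 : ∀ c, w c = 0 := by
      intro c
      have := h1 c (mem_univ c)
      rcases mul_eq_zero.1 this with h | h
      · exact h
      · exact absurd h (sub_pos.mpr (hcon c)).ne'
    rw [sum_congr rfl (fun c _ => h2 c)] at hw1
    simp at hw1
  obtain ⟨c, hc⟩ := hex
  refine ⟨c, hc.trans ?_⟩
  -- compute the expectation
  have h1 : E = ∑ p : ZMod N × ZMod N, ∑ c, w c *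
      (if ∀ i < k, c (p.1 + (i : ZMod N) * p.2) = c p.1 then (1:ℝ) else 0) := by
    rw [hE, sum_comm]
    apply sum_congr rfl
    intro c _
    rw [← mul_sum]
    congr 1
    rw [monoZ, card_filter]
    push_cast
    rfl
  have h2 : ∀ p : ZMod N × ZMod N, ∑ c, w c *
      (if ∀ i < k, c (p.1 + (i : ZMod N) * p.2) = c p.1 then (1:ℝ) else 0)
      ≤ (∑ j, ∏ i ∈ range k, f j (p.1 + (i : ZMod N) * p.2)) + (if p.2 = 0 then 1 else 0) := by
    intro p
    by_cases hp : p.2 = 0
    · rw [if_pos hp]
      have a1 : ∑ c, w c * (if ∀ i < k, c (p.1 + (i : ZMod N) * p.2) = c p.1 then (1:ℝ) else 0)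
          ≤ ∑ c, w c := by
        apply sum_le_sum
        intro c _
        split_ifs
        · simp
        · simpa using hw0 c
      rw [hw1] at a1
      have a2 : 0 ≤ ∑ j, ∏ i ∈ range k, f j (p.1 + (i : ZMod N) * p.2) :=
        sum_nonneg (fun j _ => prod_nonneg (fun i _ => hf0 _ _))
      linarith
    · rw [if_neg hp, add_zero]
      apply le_of_eq
      set S : Finset (ZMod N) := (range k).image (fun i : ℕ => p.1 + (i : ZMod N) * p.2) with hS
      have a1 : ∀ c : ZMod N → Fin r,
          (if ∀ i < k, c (p.1 + (i : ZMod N) * p.2) = c p.1 then (1:ℝ) else 0)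
          = ∑ j, (if ∀ x ∈ S, c x = j then (1:ℝ) else 0) := by
        intro c
        have hmem : p.1 ∈ S := by
          rw [hS, mem_image]
          exact ⟨0, mem_range.mpr (by omega), by simp⟩
        by_cases h : ∀ i < k, c (p.1 + (i : ZMod N) * p.2) = c p.1
        · rw [if_pos h]
          rw [sum_eq_single (c p.1)]
          · rw [if_pos]
            intro x hx
            rw [hS, mem_image] at hx
            obtain ⟨i, hi, rfl⟩ := hx
            exact h i (mem_range.mp hi)
          · intro j _ hj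
            rw [if_neg]
            intro hall
            exact hj (hall _ hmem).symm
          · intro h'; exact absurd (mem_univ _) h'
        · rw [if_neg h]
          symm
          apply sum_eq_zero
          intro j _
          rw [if_neg]
          intro hall
          apply h
          intro i hi
          rw [hall _ hmem]
          apply hall
          rw [hS, mem_image]
          exact ⟨i, mem_range.mpr hi, rfl⟩
      have a2 : ∀ c : ZMod N → Fin r, w c *
          (if ∀ i < k, c (p.1 + (i : ZMod N) * p.2) = c p.1 then (1:ℝ) else 0)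
          = ∑ j, w c * (if ∀ x ∈ S, c x = j then (1:ℝ) else 0) := by
        intro c
        rw [a1 c, mul_sum]
      rw [sum_congr rfl (fun c _ => a2 c), sum_comm]
      apply sum_congr rfl
      intro j _
      rw [hw]
      rw [sum_weight_event f hf1 S j, hS, prod_image]
      intro i hi i' hi' hii
      simp only [coe_range, Set.mem_Iio] at hi hi'
      exact hinj p.2 hp i hi i' hi' (by simpa using hii)
  rw [h1]
  refine (sum_le_sum (fun p _ => h2 p)).trans ?_
  rw [sum_add_distrib]
  apply add_le_add le_rfl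
  have : ∑ p : ZMod N × ZMod N, (if p.2 = 0 then (1:ℝ) else 0) = N := by
    rw [Fintype.sum_prod_type]
    simp
  rw [this]

end Pool.Agent.H22R3
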