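import Pool.Agent.H22R3.Phase
import Pool.Agent.H22R3.Rounding

set_option autoImplicit false

namespace Pool.Agent.H22R3

open Finset

variable {p : ℕ} [hp : Fact p.Prime]

/-- the phases -/
def ph (s : Fin 9) (x : ZMod p) : ZMod p := (U s : ZMod p) * x ^ 2 + (V s : ZMod p) * x

/-- the quadratic perturbation -/
noncomputable def gf (x : ZMod p) : ℝ :=
  2 * (ZMod.stdAddChar (ph 0 x)).re + 2 * (ZMod.stdAddChar (ph 1 x)).re
    + 2 * (ZMod.stdAddChar (ph 2 x)).re - 2 * (ZMod.stdAddChar (ph 3 x)).re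

theorem gf_abs (x : ZMod p) : |gf x| ≤ 8 := by
  have h : ∀ s : Fin 9, |(ZMod.stdAddChar (ph s x)).re| ≤ 1 := by
    intro s
    refine (Complex.abs_re_le_norm _).trans ?_
    rw [AddChar.norm_apply]
  have h0 := abs_le.1 (h 0)
  have h1 := abs_le.1 (h 1)
  have h2 := abs_le.1 (h 2)
  have h3 := abs_le.1 (h 3)
  unfold gf
  rw [abs_le]
  constructor <;> linarith [h0.1, h0.2, h1.1, h1.2, h2.1, h2.2, h3.1, h3.2]

/-- coefficients -/
noncomputable def coef (τ : ℝ) (s : Fin 9) : ℂ := if s = 8 then 1 else (τ : ℂ) * (Cc s : ℂ)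

theorem re_two (z : ℂ) : ((2 * z.re : ℝ) : ℂ) = z + (starRingEnd ℂ) z := by
  rw [Complex.add_conj]

theorem one_add_gf (τ : ℝ) (x : ZMod p) :
    ((1 + τ * gf x : ℝ) : ℂ) = ∑ s : Fin 9, coef τ s * ZMod.stdAddChar (ph s x) := by
  have e4 : ph 4 x = - ph 0 x := by simp only [ph, U, V]; simp
  have e5 : ph 5 x = - ph 1 x := by simp only [ph, U, V]; simp; ring
  have e6 : ph 6 x = - ph 2 x := by simp only [ph, U, V]; simp; ring
  have e7 : ph 7 x = - ph 3 x := by simp only [ph, U, V]; simp; ring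
  have e8 : ph 8 x = 0 := by simp only [ph, U, V]; simp
  have hg : ((gf x : ℝ) : ℂ) = (ZMod.stdAddChar (ph 0 x) + ZMod.stdAddChar (ph 4 x))
      + (ZMod.stdAddChar (ph 1 x) + ZMod.stdAddChar (ph 5 x))
      + (ZMod.stdAddChar (ph 2 x) + ZMod.stdAddChar (ph 6 x))
      - (ZMod.stdAddChar (ph 3 x) + ZMod.stdAddChar (ph 7 x)) := by
    rw [e4, e5, e6, e7, AddChar.map_neg_eq_conj, AddChar.map_neg_eq_conj,
      AddChar.map_neg_eq_conj, AddChar.map_neg_eq_conj, ← re_two, ← re_two, ← re_two, ← re_two]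
    unfold gf
    push_cast
    ring
  have hc0 : coef τ 0 = τ := by simp [coef, Cc]
  have hc1 : coef τ 1 = τ := by simp [coef, Cc]
  have hc2 : coef τ 2 = τ := by simp [coef, Cc]
  have hc3 : coef τ 3 = -τ := by simp [coef, Cc]
  have hc4 : coef τ 4 = τ := by simp [coef, Cc]
  have hc5 : coef τ 5 = τ := by simp [coef, Cc]
  have hc6 : coef τ 6 = τ := by simp [coef, Cc]
  have hc7 : coef τ 7 = -τ := by simp [coef, Cc]
  have hc8 : coef τ 8 = 1 := by simp [coef]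
  push_cast
  rw [hg]
  rw [Fin.sum_univ_castSucc, Fin.sum_univ_eight]
  simp only [Fin.castSucc_zero, Fin.castSucc_one]
  have q2 : (Fin.castSucc (2 : Fin 8) : Fin 9) = 2 := rfl
  have q3 : (Fin.castSucc (3 : Fin 8) : Fin 9) = 3 := rfl
  have q4 : (Fin.castSucc (4 : Fin 8) : Fin 9) = 4 := rfl
  have q5 : (Fin.castSucc (5 : Fin 8) : Fin 9) = 5 := rfl
  have q6 : (Fin.castSucc (6 : Fin 8) : Fin 9) = 6 := rfl
  have q7 : (Fin.castSucc (7 : Fin 8) : Fin 9) = 7 := rfl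
  have q8 : (Fin.last 8 : Fin 9) = 8 := rfl
  rw [q2, q3, q4, q5, q6, q7, q8, hc0, hc1, hc2, hc3, hc4, hc5, hc6, hc7, hc8, e8,
    AddChar.map_zero_eq_one]
  ring

theorem stdAddChar_sum {k : ℕ} (F : Fin k → ZMod p) :
    (ZMod.stdAddChar (∑ i, F i) : ℂ) = ∏ i, ZMod.stdAddChar (F i) := by
  induction k with
  | zero => simp
  | succ n ih => rw [Fin.sum_univ_castSucc, Fin.prod_univ_castSucc, AddChar.map_add_eq_mul, ih]

/-- product of the coefficients -/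
theorem prod_coef {k : ℕ} (τ : ℝ) (σ : Fin k → Fin 9) :
    ∏ i, coef τ (σ i) = ((τ ^ (supp σ).card * ((∏ i, Cc (σ i) : ℤ) : ℝ) : ℝ) : ℂ) := by
  have h1 : ∀ i, coef τ (σ i) = (if σ i ≠ 8 then (τ : ℂ) else 1) * ((Cc (σ i) : ℤ) : ℂ) := by
    intro i
    by_cases hi : σ i = 8
    · rw [hi]; simp [coef, Cc8]
    · simp [coef, hi]
  rw [prod_congr rfl (fun i _ => h1 i), prod_mul_distrib, prod_ite]
  simp only [prod_const_one, mul_one, prod_const]
  rw [supp]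
  push_cast
  ring

/-- the double exponential sum attached to an assignment -/
noncomputable def Tsum {k : ℕ} (σ : Fin k → Fin 9) : ℂ :=
  ∑ q : ZMod p × ZMod p, ZMod.stdAddChar (∑ i : Fin k, ph (σ i) (q.1 + ((i : ℕ) : ZMod p) * q.2))

theorem phase_expand {k : ℕ} (σ : Fin k → Fin 9) (x d : ZMod p) :
    ∑ i : Fin k, ph (σ i) (x + ((i : ℕ) : ZMod p) * d) =
      ((∑ i, U (σ i) : ℤ) : ZMod p) * x ^ 2
      + ((2 * ∑ i : Fin k, ((i : ℕ) : ℤ) * U (σ i) : ℤ) : ZMod p) * x * d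
      + ((∑ i : Fin k, ((i : ℕ) : ℤ) ^ 2 * U (σ i) : ℤ) : ZMod p) * d ^ 2
      + ((∑ i, V (σ i) : ℤ) : ZMod p) * x
      + ((∑ i : Fin k, ((i : ℕ) : ℤ) * V (σ i) : ℤ) : ZMod p) * d := by
  push_cast
  simp only [mul_sum, sum_mul, ← sum_add_distrib]
  apply sum_congr rfl
  intro i _
  unfold ph
  ring

theorem Tsum_valid {k : ℕ} (σ : Fin k → Fin 9) (h : Valid σ) :
    Tsum (p := p) σ = (p : ℂ) ^ 2 := by
  obtain ⟨a0, a1, a2, b0, b1⟩ := h
  unfold Tsum
  have : ∀ q : ZMod p × ZMod p, ZMod.stdAddChar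
      (∑ i : Fin k, ph (σ i) (q.1 + ((i : ℕ) : ZMod p) * q.2)) = 1 := by
    intro q
    rw [phase_expand, a0, a1, a2, b0, b1]
    simp
  rw [sum_congr rfl (fun q _ => this q)]
  simp [Fintype.card_prod, ZMod.card]
  ring

theorem U_abs : ∀ s : Fin 9, |U s| ≤ 3 := by decide
theorem V_abs : ∀ s : Fin 9, |V s| ≤ 3 := by decide

theorem not_zero_mod {k : ℕ} (z : ℤ) (hz : |z| ≤ 6 * (k : ℤ) ^ 3) (hpk : 6 * k ^ 3 < p) (h0 : z ≠ 0) :
    ((z : ℤ) : ZMod p) ≠ 0 := by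
  intro h
  rw [ZMod.intCast_zmod_eq_zero_iff_dvd] at h
  have h1 : (p : ℤ) ≤ |z| := by
    have := Int.le_of_dvd (abs_pos.mpr h0) ((dvd_abs _ _).mpr h)
    exact this
  have h2 : ((6 * k ^ 3 : ℕ) : ℤ) < p := by exact_mod_cast hpk
  push_cast at h2
  linarith

theorem Tsum_invalid {k : ℕ} (hk : 1 ≤ k) (hpk : 6 * k ^ 3 < p) (σ : Fin k → Fin 9)
    (h : ¬ Valid σ) : ‖Tsum (p := p) σ‖ ≤ p * Real.sqrt p := by
  unfold Tsum
  have hp2 : p ≠ 2 := by
    have : 1 ≤ k ^ 3 := Nat.one_le_pow _ _ hk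
    omega
  rw [sum_congr rfl (fun q _ => by rw [phase_expand σ q.1 q.2])]
  apply double_sum_bound hp2 _ (ZMod.isPrimitive_stdAddChar p)
  rintro ⟨hA, hB, hC, hD, hE⟩
  apply h
  have bd : ∀ (e : ℕ) (he : e ≤ 2) (W : Fin 9 → ℤ) (hW : ∀ s, |W s| ≤ 3),
      |∑ i : Fin k, ((i : ℕ) : ℤ) ^ e * W (σ i)| ≤ 3 * (k : ℤ) ^ 3 := by
    intro e he W hW
    refine (abs_sum_le_sum_abs _ _).trans ?_
    calc ∑ i : Fin k, |((i : ℕ) : ℤ) ^ e * W (σ i)| ≤ ∑ i : Fin k, (k : ℤ) ^ 2 * 3 := by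
          apply sum_le_sum
          intro i _
          rw [abs_mul]
          apply mul_le_mul _ (hW _) (abs_nonneg _) (by positivity)
          rw [abs_of_nonneg (by positivity)]
          have h1 : (((i : ℕ) : ℤ)) ≤ k := by exact_mod_cast i.2.le
          calc ((i : ℕ) : ℤ) ^ e ≤ (k : ℤ) ^ e := pow_le_pow_left₀ (by positivity) h1 e
            _ ≤ (k : ℤ) ^ 2 := pow_le_pow_right₀ (by exact_mod_cast hk) he
      _ = 3 * (k : ℤ) ^ 3 := by
          simp only [sum_const, card_univ, Fintype.card_fin, nsmul_eq_mul]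
          ring
  have hk3 : (0 : ℤ) ≤ (k : ℤ) ^ 3 := by positivity
  refine ⟨?_, ?_, ?_, ?_, ?_⟩
  · by_contra h0
    refine not_zero_mod (k := k) _ ?_ hpk h0 hA
    have := bd 0 (by norm_num) U U_abs
    simp only [pow_zero, one_mul] at this
    linarith
  · by_contra h0
    refine not_zero_mod (k := k) _ ?_ hpk (mul_ne_zero two_ne_zero h0) hB
    have := bd 1 (by norm_num) U U_abs
    simp only [pow_one] at this
    rw [abs_mul]
    norm_num
    linarith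
  · by_contra h0
    refine not_zero_mod (k := k) _ ?_ hpk h0 hC
    have := bd 2 (by norm_num) U U_abs
    linarith
  · by_contra h0
    refine not_zero_mod (k := k) _ ?_ hpk h0 hD
    have := bd 0 (by norm_num) V V_abs
    simp only [pow_zero, one_mul] at this
    linarith
  · by_contra h0
    refine not_zero_mod (k := k) _ ?_ hpk h0 hE
    have := bd 1 (by norm_num) V V_abs
    simp only [pow_one] at this
    linarith

/-- the weighted count, expanded -/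
theorem weighted_expand (k : ℕ) (τ : ℝ) :
    ((∑ q : ZMod p × ZMod p, ∏ i ∈ range k, (1 + τ * gf (q.1 + (i : ZMod p) * q.2)) : ℝ) : ℂ)
      = ∑ σ : Fin k → Fin 9,
        ((τ ^ (supp σ).card * ((∏ i, Cc (σ i) : ℤ) : ℝ) : ℝ) : ℂ) * Tsum (p := p) σ := by
  have h1 : ∀ q : ZMod p × ZMod p,
      ((∏ i ∈ range k, (1 + τ * gf (q.1 + (i : ZMod p) * q.2)) : ℝ) : ℂ)
      = ∑ σ : Fin k → Fin 9, ((τ ^ (supp σ).card * ((∏ i, Cc (σ i) : ℤ) : ℝ) : ℝ) : ℂ) *
        ZMod.stdAddChar (∑ i : Fin k, ph (σ i) (q.1 + ((i : ℕ) : ZMod p) * q.2)) := by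
    intro q
    rw [Complex.ofReal_prod,
      ← Fin.prod_univ_eq_prod_range
        (fun i : ℕ => ((1 + τ * gf (q.1 + (i : ZMod p) * q.2) : ℝ) : ℂ)) k]
    rw [prod_congr rfl (fun i _ => one_add_gf τ _)]
    rw [Finset.prod_univ_sum, Fintype.piFinset_univ]
    apply sum_congr rfl
    intro σ _
    rw [prod_mul_distrib, prod_coef, stdAddChar_sum]
  rw [Complex.ofReal_sum, sum_congr rfl (fun q _ => h1 q), sum_comm]
  apply sum_congr rfl
  intro σ _
  rw [← mul_sum]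
  rfl

end Pool.Agent.H22R3
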