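import Pool.Agent.H22R3.Phase2

set_option autoImplicit false

namespace Pool.Agent.H22R3

open Finset

variable {p : ℕ} [hp : Fact p.Prime]

theorem Cc_abs : ∀ s : Fin 9, |Cc s| = 1 := by decide

theorem prod_Cc_abs {k : ℕ} (σ : Fin k → Fin 9) : |((∏ i, Cc (σ i) : ℤ) : ℝ)| = 1 := by
  have h : |(∏ i, Cc (σ i) : ℤ)| = 1 := by
    rw [abs_prod]
    exact prod_eq_one (fun i _ => Cc_abs _)
  exact_mod_cast h

theorem supp_empty {k : ℕ} (σ : Fin k → Fin 9) (h : (supp σ).card = 0) : σ = fun _ => 8 := by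
  rw [card_eq_zero] at h
  funext i
  by_contra hi
  have : i ∈ supp σ := by simp [supp, hi]
  rw [h] at this
  simp at this

theorem const_valid (k : ℕ) : Valid (fun _ : Fin k => (8 : Fin 9)) := by
  refine ⟨?_, ?_, ?_, ?_, ?_⟩ <;> simp [U8, V8]

theorem term_bound {k : ℕ} (hk : 4 ≤ k) (hpk : 6 * k ^ 3 < p) (ε : ℝ) (h0 : 0 ≤ ε) (h1 : ε ≤ 1)
    (σ : Fin k → Fin 9) :
    ((((ε ^ (supp σ).card * ((∏ i, Cc (σ i) : ℤ) : ℝ) : ℝ) : ℂ)
      + (((-ε) ^ (supp σ).card * ((∏ i, Cc (σ i) : ℤ) : ℝ) : ℝ) : ℂ)) * Tsum (p := p) σ).re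
    ≤ (if σ = (fun _ => 8) then 2 * (p : ℝ) ^ 2 else 0)
      + (if σ = special k then -2 * ε ^ 4 * (p : ℝ) ^ 2 else 0)
      + 2 * ε ^ 6 * (p : ℝ) ^ 2 + 2 * (p * Real.sqrt p) := by
  have hs : 0 ≤ 2 * (p * Real.sqrt (p : ℝ)) := by positivity
  have he6 : 0 ≤ 2 * ε ^ 6 * (p : ℝ) ^ 2 := by positivity
  have he4 : 0 ≤ 2 * ε ^ 4 * (p : ℝ) ^ 2 := by positivity
  have hp2 : 0 ≤ (p : ℝ) ^ 2 := by positivity
  have hscard := special_card hk
  have hsne : special k ≠ fun _ => 8 := by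
    intro h
    rw [h] at hscard
    simp [supp] at hscard
  by_cases hv : Valid σ
  · rw [Tsum_valid σ hv]
    have e1 : ((((ε ^ (supp σ).card * ((∏ i, Cc (σ i) : ℤ) : ℝ) : ℝ) : ℂ)
      + (((-ε) ^ (supp σ).card * ((∏ i, Cc (σ i) : ℤ) : ℝ) : ℝ) : ℂ)) * (p : ℂ) ^ 2).re
      = (ε ^ (supp σ).card + (-ε) ^ (supp σ).card) * ((∏ i, Cc (σ i) : ℤ) : ℝ) * (p : ℝ) ^ 2 := by
      have : ((((ε ^ (supp σ).card * ((∏ i, Cc (σ i) : ℤ) : ℝ) : ℝ) : ℂ)
      + (((-ε) ^ (supp σ).card * ((∏ i, Cc (σ i) : ℤ) : ℝ) : ℝ) : ℂ)) * (p : ℂ) ^ 2)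
      = (((ε ^ (supp σ).card + (-ε) ^ (supp σ).card) * ((∏ i, Cc (σ i) : ℤ) : ℝ)
        * (p : ℝ) ^ 2 : ℝ) : ℂ) := by
        push_cast; ring
      rw [this, Complex.ofReal_re]
    rw [e1]
    have hC := prod_Cc_abs σ
    have hC2 := abs_le.1 hC.le
    rcases Nat.even_or_odd (supp σ).card with hev | hodd
    · rw [hev.neg_pow]
      have hm : (supp σ).card = 0 ∨ (supp σ).card = 2 ∨ (supp σ).card = 4 ∨ 6 ≤ (supp σ).card := by
        obtain ⟨m, hm⟩ := hev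
        omega
      rcases hm with hm | hm | hm | hm
      · have := supp_empty σ hm
        subst this
        rw [if_pos rfl, if_neg hsne.symm, hm]
        have : ((∏ i : Fin k, Cc ((fun _ => (8 : Fin 9)) i) : ℤ) : ℝ) = 1 := by
          simp [Cc8]
        rw [this]
        norm_num
        linarith
      · exact absurd hm (valid_two σ hv)
      · have hne : σ ≠ fun _ => 8 := by
          intro h
          rw [h] at hm
          simp [supp] at hm
        rw [if_neg hne, hm, valid_four σ hv hm]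
        push_cast
        split_ifs <;> linarith
      · have hne : σ ≠ fun _ => 8 := by
          intro h
          rw [h] at hm
          simp [supp] at hm
        have hne2 : σ ≠ special k := by
          intro h
          rw [h] at hm
          omega
        rw [if_neg hne, if_neg hne2]
        have h6 : ε ^ (supp σ).card ≤ ε ^ 6 := pow_le_pow_of_le_one h0 h1 hm
        have h7 : 0 ≤ ε ^ (supp σ).card := by positivity
        have h8 : (ε ^ (supp σ).card + ε ^ (supp σ).card) * ((∏ i, Cc (σ i) : ℤ) : ℝ)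
            ≤ 2 * ε ^ 6 := by nlinarith [hC2.2]
        have h9 := mul_le_mul_of_nonneg_right h8 hp2
        linarith
    · have hne : σ ≠ fun _ => 8 := by
        intro h
        rw [h] at hodd
        simp [supp] at hodd
      have hne2 : σ ≠ special k := by
        intro h
        rw [h, hscard] at hodd
        exact absurd hodd (by decide)
      rw [if_neg hne, if_neg hne2, hodd.neg_pow]
      have : (ε ^ (supp σ).card + -ε ^ (supp σ).card) = 0 := by ring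
      rw [this]
      linarith
  · have hne : σ ≠ fun _ => 8 := by
      intro h
      exact hv (h ▸ const_valid k)
    have hne2 : σ ≠ special k := by
      intro h
      exact hv (h ▸ special_valid hk)
    rw [if_neg hne, if_neg hne2]
    have hT := Tsum_invalid (p := p) (by omega) hpk σ hv
    have hw : ‖(((ε ^ (supp σ).card * ((∏ i, Cc (σ i) : ℤ) : ℝ) : ℝ) : ℂ)
      + (((-ε) ^ (supp σ).card * ((∏ i, Cc (σ i) : ℤ) : ℝ) : ℝ) : ℂ))‖ ≤ 2 := by
      refine (norm_add_le _ _).trans ?_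
      rw [Complex.norm_real, Complex.norm_real, norm_mul, norm_mul, norm_pow, norm_pow, norm_neg,
        Real.norm_eq_abs, Real.norm_eq_abs, prod_Cc_abs, abs_of_nonneg h0]
      have := pow_le_one₀ (n := (supp σ).card) h0 h1
      linarith
    have h3 := (Complex.re_le_norm ((((ε ^ (supp σ).card * ((∏ i, Cc (σ i) : ℤ) : ℝ) : ℝ) : ℂ)
      + (((-ε) ^ (supp σ).card * ((∏ i, Cc (σ i) : ℤ) : ℝ) : ℝ) : ℂ)) * Tsum (p := p) σ))
    rw [norm_mul] at h3
    have h4 := mul_le_mul hw hT (norm_nonneg _) (by norm_num)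
    linarith

theorem weighted_bound {k : ℕ} (hk : 4 ≤ k) (hpk : 6 * k ^ 3 < p) (ε : ℝ) (h0 : 0 ≤ ε)
    (h1 : ε ≤ 1) :
    (∑ q : ZMod p × ZMod p, ∏ i ∈ range k, (1 + ε * gf (q.1 + (i : ZMod p) * q.2)))
    + (∑ q : ZMod p × ZMod p, ∏ i ∈ range k, (1 + (-ε) * gf (q.1 + (i : ZMod p) * q.2)))
    ≤ 2 * (p : ℝ) ^ 2 - 2 * ε ^ 4 * (p : ℝ) ^ 2
      + 9 ^ k * (2 * ε ^ 6 * (p : ℝ) ^ 2 + 2 * (p * Real.sqrt p)) := by
  set A := ∑ q : ZMod p × ZMod p, ∏ i ∈ range k, (1 + ε * gf (q.1 + (i : ZMod p) * q.2)) with hA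
  set B := ∑ q : ZMod p × ZMod p, ∏ i ∈ range k, (1 + (-ε) * gf (q.1 + (i : ZMod p) * q.2))
    with hB
  have e1 : A + B = (((A : ℝ) : ℂ) + ((B : ℝ) : ℂ)).re := by
    rw [← Complex.ofReal_add, Complex.ofReal_re]
  rw [e1, hA, hB, weighted_expand, weighted_expand, ← sum_add_distrib]
  rw [sum_congr rfl (fun σ _ => (add_mul _ _ _).symm), Complex.re_sum]
  refine (sum_le_sum (fun σ _ => term_bound hk hpk ε h0 h1 σ)).trans ?_
  rw [sum_add_distrib, sum_add_distrib, sum_add_distrib]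
  simp only [sum_ite_eq', mem_univ, if_true, sum_const, card_univ, Fintype.card_pi, Fintype.card_fin,
    prod_const, nsmul_eq_mul]
  push_cast
  apply le_of_eq
  ring

theorem exists_colouring_ge4 (k r : ℕ) (hk : 4 ≤ k) (hr : 2 ≤ r) :
    ∃ (N : ℕ) (hN : NeZero N) (c : ZMod N → Fin r),
      ((monoZ k N c).card : ℝ) * (r : ℝ) ^ (k - 1) < (N : ℝ) ^ 2 := by
  set ε : ℝ := 1 / (8 * 3 ^ k) with hε
  have h3k : (1 : ℝ) ≤ 3 ^ k := one_le_pow₀ (by norm_num)
  have hε0 : 0 < ε := by positivity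
  have hε8 : 8 * ε ≤ 1 := by
    rw [hε, mul_one_div, div_le_one (by positivity)]
    linarith
  have hε1 : ε ≤ 1 := by linarith
  set M : ℝ := (2 * 9 ^ k + (r : ℝ) ^ k) / ε ^ 4 with hM
  have hM0 : 0 ≤ M := by positivity
  obtain ⟨p, hpge, hpp⟩ := Nat.exists_infinite_primes (max (6 * k ^ 3 + 1) (⌈M ^ 2⌉₊))
  have : Fact p.Prime := ⟨hpp⟩
  have hpk : 6 * k ^ 3 < p := by
    have := le_trans (le_max_left _ _) hpge
    omega
  have hpM : M ^ 2 ≤ p := by
    have h1 := le_trans (le_max_right _ _) hpge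
    have h2 : (⌈M ^ 2⌉₊ : ℝ) ≤ p := by exact_mod_cast h1
    exact (Nat.le_ceil _).trans h2
  have hsq : M ≤ Real.sqrt p := Real.le_sqrt_of_sq_le hpM
  have hkp : k < p := by
    have : k ≤ k ^ 3 := Nat.le_self_pow (by norm_num) k
    omega
  have : NeZero p := ⟨hpp.ne_zero⟩
  set s := Real.sqrt (p : ℝ) with hs
  have hss : s ^ 2 = p := Real.sq_sqrt (Nat.cast_nonneg _)
  have hs1 : 1 ≤ s := by
    rw [hs, Real.one_le_sqrt]
    exact_mod_cast hpp.one_lt.le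
  have hr0 : (0 : ℝ) < r := by
    have : 0 < r := by omega
    exact_mod_cast this
  -- weights
  let f : Fin r → ZMod p → ℝ := fun j x =>
    if (j : ℕ) = 0 then (1 + ε * gf x) / r else if (j : ℕ) = 1 then (1 + (-ε) * gf x) / r else 1 / r
  have hg : ∀ x : ZMod p, |ε * gf x| ≤ 1 := by
    intro x
    rw [abs_mul, abs_of_pos hε0]
    have := gf_abs x
    nlinarith
  have hf0 : ∀ j x, 0 ≤ f j x := by
    intro j x
    have h := abs_le.1 (hg x)
    simp only [f]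
    split_ifs
    · apply div_nonneg _ hr0.le
      linarith [h.1]
    · apply div_nonneg _ hr0.le
      linarith [h.2]
    · positivity
  have hsplit : ∀ (F : Fin r → ℝ) (a b e : ℝ), (∀ j : Fin r, F j = if (j : ℕ) = 0 then a else
      if (j : ℕ) = 1 then b else e) → ∑ j, F j = a + b + ((r : ℝ) - 2) * e := by
    intro F a b e hF
    rw [sum_congr rfl (fun j _ => hF j)]
    rw [Fin.sum_univ_eq_sum_range (fun j : ℕ => if j = 0 then a else if j = 1 then b else e) r]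
    obtain ⟨t, rfl⟩ : ∃ t, r = t + 2 := ⟨r - 2, by omega⟩
    rw [sum_range_succ', sum_range_succ']
    simp
    ring
  have hf1 : ∀ x, ∑ j, f j x = 1 := by
    intro x
    rw [hsplit _ _ _ _ (fun j => rfl)]
    field_simp
    ring
  have hinj : ∀ d : ZMod p, d ≠ 0 → ∀ i < k, ∀ j < k, (i : ZMod p) * d = (j : ZMod p) * d →
      i = j := by
    intro d hd i hi j hj hij
    have h1 := mul_right_cancel₀ hd hij
    rw [ZMod.natCast_eq_natCast_iff'] at h1
    rwa [Nat.mod_eq_of_lt (by omega), Nat.mod_eq_of_lt (by omega)] at h1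
  obtain ⟨c, hc⟩ := rounding k p r (by omega) f hf0 hf1 hinj
  refine ⟨p, inferInstance, c, ?_⟩
  have hsum : ∀ q : ZMod p × ZMod p, ∑ j, ∏ i ∈ range k, f j (q.1 + (i : ZMod p) * q.2)
      = (∏ i ∈ range k, (1 + ε * gf (q.1 + (i : ZMod p) * q.2))
        + ∏ i ∈ range k, (1 + (-ε) * gf (q.1 + (i : ZMod p) * q.2)) + ((r : ℝ) - 2)) / r ^ k := by
    intro q
    rw [hsplit _ ((∏ i ∈ range k, (1 + ε * gf (q.1 + (i : ZMod p) * q.2))) / r ^ k)
      ((∏ i ∈ range k, (1 + (-ε) * gf (q.1 + (i : ZMod p) * q.2))) / r ^ k) (1 / r ^ k)]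
    · ring
    · intro j
      simp only [f]
      split_ifs
      · rw [prod_div_distrib]; simp
      · rw [prod_div_distrib]; simp
      · rw [prod_div_distrib]; simp
  rw [sum_congr rfl (fun q _ => hsum q), ← sum_div, sum_add_distrib, sum_add_distrib] at hc
  have hW := weighted_bound (p := p) hk hpk ε hε0.le hε1
  set W := (∑ q : ZMod p × ZMod p, ∏ i ∈ range k, (1 + ε * gf (q.1 + (i : ZMod p) * q.2)))
    + (∑ q : ZMod p × ZMod p, ∏ i ∈ range k, (1 + (-ε) * gf (q.1 + (i : ZMod p) * q.2))) with hWd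
  have hcard : ∑ q : ZMod p × ZMod p, ((r : ℝ) - 2) = (p : ℝ) ^ 2 * ((r : ℝ) - 2) := by
    rw [sum_const, card_univ, Fintype.card_prod, ZMod.card, nsmul_eq_mul]
    push_cast
    ring
  rw [hcard] at hc
  have hrk : (0 : ℝ) < (r : ℝ) ^ k := by positivity
  have h5 : ((monoZ k p c).card : ℝ) * (r : ℝ) ^ k ≤ W + (p : ℝ) ^ 2 * ((r : ℝ) - 2)
      + p * (r : ℝ) ^ k := by
    have := mul_le_mul_of_nonneg_right hc hrk.le
    rw [add_mul, div_mul_cancel₀ _ hrk.ne'] at this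
    exact this
  have h9 : (9 : ℝ) ^ k * ε ^ 2 = 1 / 64 := by
    rw [hε, one_div, inv_pow, mul_pow, ← pow_mul, mul_comm k 2, pow_mul]
    norm_num
  have h6 : W + p * (r : ℝ) ^ k < 2 * (p : ℝ) ^ 2 := by
    have hp1 : (1 : ℝ) ≤ p := by exact_mod_cast hpp.one_lt.le
    have hε4 : 0 < ε ^ 4 := by positivity
    have h10 : 2 * 9 ^ k + (r : ℝ) ^ k ≤ s * ε ^ 4 := by
      have := mul_le_mul_of_nonneg_right hsq hε4.le
      rwa [hM, div_mul_cancel₀ _ hε4.ne'] at this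
    have h11 : 9 ^ k * (2 * ε ^ 6 * (p : ℝ) ^ 2 + 2 * (p * s))
        = ε ^ 4 / 32 * (p : ℝ) ^ 2 + 2 * 9 ^ k * (p * s) := by
      have : 9 ^ k * (2 * ε ^ 6 * (p : ℝ) ^ 2 + 2 * (p * s))
        = 2 * (9 ^ k * ε ^ 2) * ε ^ 4 * (p : ℝ) ^ 2 + 2 * 9 ^ k * (p * s) := by ring
      rw [this, h9]; ring
    rw [h11] at hW
    have h12 : (p : ℝ) * (r : ℝ) ^ k ≤ (r : ℝ) ^ k * (p * s) := by
      have : 0 ≤ (p : ℝ) * (r : ℝ) ^ k := by positivity
      nlinarith
    have h13 : 2 * 9 ^ k * (p * s) + (r : ℝ) ^ k * (p * s) ≤ ε ^ 4 * (p : ℝ) ^ 2 := by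
      have h14 : (2 * 9 ^ k + (r : ℝ) ^ k) * (p * s) ≤ (s * ε ^ 4) * (p * s) :=
        mul_le_mul_of_nonneg_right h10 (by positivity)
      have h15 : (s * ε ^ 4) * (p * s) = ε ^ 4 * (p : ℝ) ^ 2 := by
        have : (s * ε ^ 4) * (p * s) = ε ^ 4 * p * s ^ 2 := by ring
        rw [this, hss]; ring
      linarith
    have h16 : 0 < ε ^ 4 * (p : ℝ) ^ 2 := by positivity
    linarith
  have h7 : ((monoZ k p c).card : ℝ) * (r : ℝ) ^ k < (p : ℝ) ^ 2 * r := by
    have : (p : ℝ) ^ 2 * ((r : ℝ) - 2) = (p : ℝ) ^ 2 * r - 2 * (p : ℝ) ^ 2 := by ring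
    linarith
  have h8 : (r : ℝ) ^ k = (r : ℝ) ^ (k - 1) * r := by
    rw [← pow_succ]; congr 1; omega
  rw [h8, ← mul_assoc] at h7
  exact lt_of_mul_lt_mul_right h7 hr0.le

end Pool.Agent.H22R3
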