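import Pool.Agent.H972ST.Stmts

set_option autoImplicit false

namespace Pool.Agent.H22R3.ST

open Pool.Agent.H972ST

theorem MI4 : MI ^ 4 = 1 := by decide +kernel
theorem MJ2 : MJ * MJ = MI ^ 2 := by decide +kernel
theorem MIJ : MI * MJ = MJ * MI ^ 3 := by decide +kernel

theorem MI_mod (k l : ℕ) (h : k % 4 = l % 4) : MI ^ k = MI ^ l := by
  have h1 : ∀ k : ℕ, MI ^ k = MI ^ (k % 4) := by
    intro k
    conv_lhs => rw [← Nat.div_add_mod k 4, pow_add, pow_mul, MI4, one_pow, one_mul]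
  rw [h1 k, h1 l, h]

theorem MI_MJ (k : ℕ) : MI ^ k * MJ = MJ * MI ^ (3 * k) := by
  induction k with
  | zero => simp
  | succ k ih =>
    rw [pow_succ, mul_assoc, MIJ, ← mul_assoc, ih, mul_assoc, ← pow_add]
    congr 2

theorem val1 : ∀ i j : ZMod (2 * 2), (i + j).val % 4 = (i.val + j.val) % 4 := by decide
theorem val2 : ∀ i j : ZMod (2 * 2), (j - i).val % 4 = (3 * i.val + j.val) % 4 := by decide
theorem val3 : ∀ i j : ZMod (2 * 2), (((2 : ℕ) : ZMod (2 * 2)) + j - i).val % 4 =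
    (2 + (3 * i.val + j.val)) % 4 := by decide

theorem mat_a (i : ZMod (2 * 2)) : mat (.a i) = MI ^ i.val := rfl
theorem mat_xa (i : ZMod (2 * 2)) : mat (.xa i) = MJ * MI ^ i.val := rfl

theorem mat_mul (g h : QuaternionGroup 2) : mat (g * h) = mat g * mat h := by
  rcases g with i | i <;> rcases h with j | j
  · rw [QuaternionGroup.a_mul_a, mat_a, mat_a, mat_a, ← pow_add]
    exact MI_mod _ _ (val1 i j)
  · rw [QuaternionGroup.a_mul_xa, mat_a, mat_xa, mat_xa, ← mul_assoc, MI_MJ, mul_assoc, ← pow_add]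
    rw [MI_mod _ _ (val2 i j)]
  · rw [QuaternionGroup.xa_mul_a, mat_a, mat_xa, mat_xa, mul_assoc, ← pow_add]
    rw [MI_mod _ _ (val1 i j)]
  · rw [QuaternionGroup.xa_mul_xa, mat_a, mat_xa, mat_xa]
    rw [show MJ * MI ^ i.val * (MJ * MI ^ j.val) = MJ * (MI ^ i.val * MJ) * MI ^ j.val by
      simp only [mul_assoc]]
    rw [MI_MJ, ← mul_assoc, MJ2, mul_assoc, ← pow_add, ← pow_add]
    exact MI_mod _ _ (val3 i j)

theorem mat_one : mat 1 = 1 := by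
  have : (1 : QuaternionGroup 2) = .a 0 := rfl
  rw [this, mat_a]
  simp

theorem mi_vec (x : Fin 8 → ℤ) : MI.mulVec x =
    ![x 0, x 1, - x 2, - x 3, - x 0 - 2 * x 1 - x 4 - 2 * x 5, x 0 + x 1 + x 4 + x 5,
      x 1 + x 5 - x 7, x 0 + x 1 + x 4 + x 5 + x 6] := by
  funext i
  fin_cases i <;>
    simp [MI, Matrix.mulVec, dotProduct, Fin.sum_univ_succ] <;> ring_nf

theorem mj_vec (x : Fin 8 → ℤ) : MJ.mulVec x =
    ![- x 0, - x 1, x 2, - x 3, x 1 - x 4 - 2 * x 6, x 4 + x 6 + x 7, x 0 + x 4 + x 6,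
      - x 1 - x 5 + x 6] := by
  funext i
  fin_cases i <;>
    simp [MJ, Matrix.mulVec, dotProduct, Fin.sum_univ_succ] <;> ring_nf

theorem InZ_MI (m : ℤ) (x : Fin 8 → ℤ) (h : InZ m x) : InZ m (MI.mulVec x) := by
  rw [mi_vec]
  have e1 : y1 ![x 0, x 1, - x 2, - x 3, - x 0 - 2 * x 1 - x 4 - 2 * x 5, x 0 + x 1 + x 4 + x 5,
      x 1 + x 5 - x 7, x 0 + x 1 + x 4 + x 5 + x 6] = - y2 x := by
    simp [y1, y2]; ring
  have e2 : y2 ![x 0, x 1, - x 2, - x 3, - x 0 - 2 * x 1 - x 4 - 2 * x 5, x 0 + x 1 + x 4 + x 5,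
      x 1 + x 5 - x 7, x 0 + x 1 + x 4 + x 5 + x 6] = y1 x := by
    simp [y1, y2]; ring
  have e3 : y3 ![x 0, x 1, - x 2, - x 3, - x 0 - 2 * x 1 - x 4 - 2 * x 5, x 0 + x 1 + x 4 + x 5,
      x 1 + x 5 - x 7, x 0 + x 1 + x 4 + x 5 + x 6] = - y4 x := by
    simp [y3, y4]; ring
  have e4 : y4 ![x 0, x 1, - x 2, - x 3, - x 0 - 2 * x 1 - x 4 - 2 * x 5, x 0 + x 1 + x 4 + x 5,
      x 1 + x 5 - x 7, x 0 + x 1 + x 4 + x 5 + x 6] = y3 x := by
    simp [y3, y4]; ring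
  obtain ⟨h1, h2, h3, h4, h5, h6, h7⟩ := h
  unfold InZ
  rw [e1, e2, e3, e4]
  simp only [Matrix.cons_val_zero, Matrix.cons_val_one, Matrix.cons_val, abs_neg]
  refine ⟨?_, ?_, ?_, ?_, ?_, ?_, ?_⟩ <;> linarith

theorem InZ_MJ (m : ℤ) (x : Fin 8 → ℤ) (h : InZ m x) : InZ m (MJ.mulVec x) := by
  rw [mj_vec]
  have e1 : y1 ![- x 0, - x 1, x 2, - x 3, x 1 - x 4 - 2 * x 6, x 4 + x 6 + x 7,
      x 0 + x 4 + x 6, - x 1 - x 5 + x 6] = - y3 x := by
    simp [y1, y3]; ring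
  have e2 : y2 ![- x 0, - x 1, x 2, - x 3, x 1 - x 4 - 2 * x 6, x 4 + x 6 + x 7,
      x 0 + x 4 + x 6, - x 1 - x 5 + x 6] = y4 x := by
    simp [y4, y2]; ring
  have e3 : y3 ![- x 0, - x 1, x 2, - x 3, x 1 - x 4 - 2 * x 6, x 4 + x 6 + x 7,
      x 0 + x 4 + x 6, - x 1 - x 5 + x 6] = y1 x := by
    simp [y3, y1]; ring
  have e4 : y4 ![- x 0, - x 1, x 2, - x 3, x 1 - x 4 - 2 * x 6, x 4 + x 6 + x 7,
      x 0 + x 4 + x 6, - x 1 - x 5 + x 6] = - y2 x := by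
    simp [y2, y4]; ring
  obtain ⟨h1, h2, h3, h4, h5, h6, h7⟩ := h
  unfold InZ
  rw [e1, e2, e3, e4]
  simp only [Matrix.cons_val_zero, Matrix.cons_val_one, Matrix.cons_val, abs_neg]
  refine ⟨?_, ?_, ?_, ?_, ?_, ?_, ?_⟩ <;> linarith

theorem InZ_MIpow (k : ℕ) (m : ℤ) (x : Fin 8 → ℤ) (h : InZ m x) : InZ m ((MI ^ k).mulVec x) := by
  induction k with
  | zero => simpa using h
  | succ k ih =>
    rw [pow_succ', ← Matrix.mulVec_mulVec]
    exact InZ_MI m _ ih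

theorem InZ_mat (g : QuaternionGroup 2) (m : ℤ) (x : Fin 8 → ℤ) (h : InZ m x) :
    InZ m ((mat g).mulVec x) := by
  rcases g with i | i
  · rw [mat_a]; exact InZ_MIpow _ m x h
  · rw [mat_xa, ← Matrix.mulVec_mulVec]
    exact InZ_MJ m _ (InZ_MIpow _ m x h)

/-- the linear equivalence of a group element -/
noncomputable def linE (g : QuaternionGroup 2) : (Fin 8 → ℤ) ≃ₗ[ℤ] (Fin 8 → ℤ) :=
  LinearEquiv.ofLinearMap (Matrix.mulVecLin (mat g)) (Matrix.mulVecLin (mat g⁻¹))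
    (by rw [← Matrix.mulVecLin_mul, ← mat_mul, mul_inv_cancel, mat_one, Matrix.mulVecLin_one])
    (by rw [← Matrix.mulVecLin_mul, ← mat_mul, inv_mul_cancel, mat_one, Matrix.mulVecLin_one])

theorem linE_apply (g : QuaternionGroup 2) (x : Fin 8 → ℤ) : linE g x = (mat g).mulVec x := rfl

theorem tRho : TRho := by
  refine ⟨⟨⟨fun g => (linE g).toAffineEquiv, ?_⟩, ?_⟩, ?_, ?_, ?_, ?_, ?_⟩
  · ext x i
    show (linE 1 x) i = x i
    rw [linE_apply, mat_one, Matrix.one_mulVec]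
  · intro g h
    ext x i
    show (linE (g * h) x) i = (linE g (linE h x)) i
    rw [linE_apply, linE_apply, linE_apply, mat_mul, Matrix.mulVec_mulVec]
  · intro g
    show linE g 0 = 0
    exact map_zero _
  · intro g x
    rfl
  · intro g x
    rfl
  · intro g
    show LinearMap.toMatrix' (Matrix.mulVecLin (mat g)) = mat g
    exact LinearMap.toMatrix'_toLin' _
  · intro g m x h
    exact InZ_mat g m x h

end Pool.Agent.H22R3.ST
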