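import Mathlib

set_option autoImplicit false

/-!
Orders at `1` of sums of products of few factors `1 + X ^ k`, `1 - X ^ k` of arbitrary size.
-/

namespace Pool.Agent.H22R3.EG

open Polynomial Finset

/-- the derivation `X d/dX` -/
noncomputable def th (f : ℚ[X]) : ℚ[X] := X * derivative f

lemma th_coeff (f : ℚ[X]) (n : ℕ) : (th f).coeff n = n * f.coeff n := by
  unfold th
  rcases n with _ | n
  · simp
  · rw [coeff_X_mul, coeff_derivative]
    push_cast
    ring

lemma th_mul (f g : ℚ[X]) : th (f * g) = th f * g + f * th g := by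
  unfold th
  rw [derivative_mul]
  ring

lemma th_sum {ι : Type*} (s : Finset ι) (f : ι → ℚ[X]) : th (∑ i ∈ s, f i) = ∑ i ∈ s, th (f i) := by
  unfold th
  rw [derivative_sum, Finset.mul_sum]

lemma dvd_th {f : ℚ[X]} {n : ℕ} (h : (X - C 1) ^ n ∣ f) : (X - C 1) ^ (n - 1) ∣ th f :=
  (pow_sub_one_dvd_derivative_of_pow_dvd h).mul_left _

/-- a polynomial with at most `N` monomials does not vanish to the order `N` at `1` -/
lemma sparse (N : ℕ) : ∀ f : ℚ[X], f ≠ 0 → f.support.card ≤ N → ¬ (X - C 1) ^ N ∣ f := by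
  induction N with
  | zero =>
    intro f hf hc
    have : f.support = ∅ := Finset.card_eq_zero.mp (by omega)
    exact absurd (support_eq_empty.mp this) hf
  | succ N ih =>
    intro f hf hc hdvd
    obtain ⟨e, he⟩ := support_nonempty.mpr hf
    set g : ℚ[X] := th f - C (e : ℚ) * f with hg
    have hgc : ∀ n, g.coeff n = ((n : ℚ) - e) * f.coeff n := by
      intro n
      rw [hg, coeff_sub, th_coeff, coeff_C_mul]
      ring
    have hdg : (X - C 1) ^ N ∣ g := by
      apply dvd_sub
      · exact dvd_th (n := N + 1) hdvd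
      · exact ((pow_dvd_pow _ (Nat.le_succ N)).trans hdvd).mul_left _
    by_cases hg0 : g = 0
    · -- `f` is a monomial
      have hsupp : ∀ n, n ≠ e → f.coeff n = 0 := by
        intro n hn
        have h1 := hgc n
        rw [hg0, coeff_zero] at h1
        rcases mul_eq_zero.mp h1.symm with h | h
        · exact absurd (by exact_mod_cast (sub_eq_zero.mp h)) hn
        · exact h
      have hfm : f = monomial e (f.coeff e) := by
        ext n
        rw [coeff_monomial]
        split_ifs with h
        · rw [h]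
        · exact hsupp n (Ne.symm h)
      have h1 : (X - C (1 : ℚ)) ∣ f := (dvd_pow_self _ (Nat.succ_ne_zero N)).trans hdvd
      have h2 : f.eval 1 = 0 := by
        have := dvd_iff_isRoot.mp h1
        exact this
      rw [hfm, eval_monomial, one_pow, mul_one] at h2
      exact (mem_support_iff.mp he) h2
    · apply ih g hg0 _ hdg
      have hsub : g.support ⊆ f.support.erase e := by
        intro n hn
        rw [mem_support_iff, hgc] at hn
        rw [Finset.mem_erase, mem_support_iff]
        constructor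
        · rintro rfl
          exact hn (by rw [sub_self, zero_mul])
        · intro h
          exact hn (by rw [h, mul_zero])
      have := Finset.card_le_card hsub
      rw [Finset.card_erase_of_mem he] at this
      omega

/-- exponents `∑ α_k k` with `α_k ≤ m` -/
def S (K : Finset ℕ) (m : ℕ) : Set ℕ := {n | ∃ α : ℕ → ℕ, (∀ k, α k ≤ m) ∧ n = ∑ k ∈ K, α k * k}

/-- polynomials with all exponents in `S K m` -/
def R (K : Finset ℕ) (m : ℕ) (f : ℚ[X]) : Prop := ∀ n, f.coeff n ≠ 0 → n ∈ S K m

variable {K : Finset ℕ}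

lemma R_mono {m m' : ℕ} (h : m ≤ m') {f : ℚ[X]} (hf : R K m f) : R K m' f := by
  intro n hn
  obtain ⟨α, h1, h2⟩ := hf n hn
  exact ⟨α, fun k => (h1 k).trans h, h2⟩

lemma R_add {m : ℕ} {f g : ℚ[X]} (hf : R K m f) (hg : R K m g) : R K m (f + g) := by
  intro n hn
  by_cases h : f.coeff n = 0
  · apply hg
    rwa [coeff_add, h, zero_add] at hn
  · exact hf n h

lemma R_neg {m : ℕ} {f : ℚ[X]} (hf : R K m f) : R K m (-f) := by
  intro n hn
  rw [coeff_neg, neg_ne_zero] at hn
  exact hf n hn

lemma R_sub {m : ℕ} {f g : ℚ[X]} (hf : R K m f) (hg : R K m g) : R K m (f - g) := by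
  rw [sub_eq_add_neg]
  exact R_add hf (R_neg hg)

lemma R_mul {m m' : ℕ} {f g : ℚ[X]} (hf : R K m f) (hg : R K m' g) : R K (m + m') (f * g) := by
  intro n hn
  rw [coeff_mul] at hn
  obtain ⟨⟨i, j⟩, hij, h⟩ := Finset.exists_ne_zero_of_sum_ne_zero hn
  rw [Finset.HasAntidiagonal.mem_antidiagonal] at hij
  obtain ⟨α, h1, h2⟩ := hf i (left_ne_zero_of_mul h)
  obtain ⟨β, h3, h4⟩ := hg j (right_ne_zero_of_mul h)
  refine ⟨fun k => α k + β k, fun k => add_le_add (h1 k) (h3 k), ?_⟩
  simp only at hij
  rw [← hij, h2, h4, ← Finset.sum_add_distrib]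
  exact Finset.sum_congr rfl fun k _ => by ring

lemma R_th {m : ℕ} {f : ℚ[X]} (hf : R K m f) : R K m (th f) := by
  intro n hn
  rw [th_coeff] at hn
  exact hf n (right_ne_zero_of_mul hn)

lemma R_C (c : ℚ) : R K 0 (C c) := by
  intro n hn
  rw [coeff_C] at hn
  refine ⟨fun _ => 0, fun _ => le_rfl, ?_⟩
  split_ifs at hn with h
  · rw [h]; simp
  · exact absurd rfl hn

lemma R_one : R K 0 1 := by
  have := R_C (K := K) 1
  rwa [map_one] at this

lemma R_X_pow {k : ℕ} (hk : k ∈ K) : R K 1 (X ^ k) := by
  intro n hn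
  rw [coeff_X_pow] at hn
  split_ifs at hn with h
  · refine ⟨fun j => if j = k then 1 else 0, fun j => by dsimp only; split_ifs <;> omega, ?_⟩
    rw [h]
    simp [Finset.sum_ite_eq', hk]
  · exact absurd rfl hn

lemma R_card {m : ℕ} {f : ℚ[X]} (hf : R K m f) : f.support.card ≤ (m + 1) ^ K.card := by
  classical
  have hsub : f.support ⊆ (Finset.pi K fun _ => range (m + 1)).image
      (fun α => ∑ k ∈ K.attach, α k.1 k.2 * k.1) := by
    intro n hn
    obtain ⟨α, h1, h2⟩ := hf n (mem_support_iff.mp hn)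
    rw [Finset.mem_image]
    refine ⟨fun k _ => α k, ?_, ?_⟩
    · rw [Finset.mem_pi]
      intro k _
      rw [Finset.mem_range]
      exact Nat.lt_succ_of_le (h1 k)
    · rw [h2]
      exact Finset.sum_attach K fun k => α k * k
  calc f.support.card ≤ _ := Finset.card_le_card hsub
    _ ≤ (Finset.pi K fun _ => range (m + 1)).card := Finset.card_image_le
    _ = (m + 1) ^ K.card := by
      rw [Finset.card_pi]
      simp

/-- order at `1` of a polynomial with exponents in `S K m` -/
lemma R_order {m : ℕ} {f : ℚ[X]} (h0 : f ≠ 0) (hf : R K m f) :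
    rootMultiplicity 1 f ≤ (m + 1) ^ K.card := by
  by_contra hlt
  push Not at hlt
  have h1 : (X - C 1) ^ ((m + 1) ^ K.card) ∣ f :=
    (le_rootMultiplicity_iff h0).mp hlt.le
  exact sparse _ f h0 (R_card hf) h1

lemma th_order {f : ℚ[X]} {n : ℕ} (h : (X - C 1) ^ n ∣ f) (A B : ℚ[X]) :
    (X - C 1) ^ (n - 1) ∣ A * th f - B * f :=
  dvd_sub ((dvd_th h).mul_left _) (((pow_dvd_pow _ (Nat.sub_le n 1)).trans h).mul_left _)

lemma order_eq {f h : ℚ[X]} (hf : f ≠ 0) (hh : h ≠ 0) (e : h * th f = f * th h) :
    rootMultiplicity 1 f = rootMultiplicity 1 h := by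
  obtain ⟨f1, hf1, hf1'⟩ := exists_eq_pow_rootMultiplicity_mul_and_not_dvd f hf 1
  obtain ⟨h1, hh1, hh1'⟩ := exists_eq_pow_rootMultiplicity_mul_and_not_dvd h hh 1
  set a := rootMultiplicity 1 f
  set b := rootMultiplicity 1 h
  have key : ∀ (n : ℕ) (g : ℚ[X]), (X - C 1) * derivative ((X - C 1) ^ n * g) =
      (X - C 1) ^ n * (C (n : ℚ) * g + (X - C 1) * derivative g) := by
    intro n g
    rw [derivative_mul, derivative_X_sub_C_pow]
    rcases n with _ | n
    · simp
    · rw [Nat.add_sub_cancel]
      push_cast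
      simp only [map_add, map_natCast, map_one]
      ring
  have e1 : (X - C 1) ^ (a + b) * (h1 * (C (a : ℚ) * f1 + (X - C 1) * derivative f1)) =
      (X - C 1) ^ (a + b) * (f1 * (C (b : ℚ) * h1 + (X - C 1) * derivative h1)) := by
    have e2 : X * ((X - C 1) * (h * derivative f)) = X * ((X - C 1) * (f * derivative h)) := by
      unfold th at e
      linear_combination (X - C 1) * e
    have e3 : (X - C 1) * (h * derivative f) = (X - C 1) * (f * derivative h) :=
      mul_left_cancel₀ X_ne_zero e2
    have k1 := key a f1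
    have k2 := key b h1
    rw [← hf1] at k1
    rw [← hh1] at k2
    calc (X - C 1) ^ (a + b) * (h1 * (C (a : ℚ) * f1 + (X - C 1) * derivative f1))
        = ((X - C 1) ^ b * h1) * ((X - C 1) ^ a * (C (a : ℚ) * f1 + (X - C 1) * derivative f1)) := by
          rw [pow_add]; ring
      _ = h * ((X - C 1) * derivative f) := by rw [← k1, ← hh1]
      _ = f * ((X - C 1) * derivative h) := by linear_combination e3
      _ = ((X - C 1) ^ a * f1) * ((X - C 1) ^ b * (C (b : ℚ) * h1 + (X - C 1) * derivative h1)) := by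
          rw [← k2, ← hf1]
      _ = _ := by rw [pow_add]; ring
  have hne : ((X - C 1) ^ (a + b) : ℚ[X]) ≠ 0 := pow_ne_zero _ (X_sub_C_ne_zero 1)
  have e4 := mul_left_cancel₀ hne e1
  have e5 := congrArg (eval 1) e4
  simp only [eval_mul, eval_add, eval_C, eval_sub, eval_X, sub_self, zero_mul, add_zero] at e5
  have hf2 : f1.eval 1 ≠ 0 := fun h => hf1' (dvd_iff_isRoot.mpr h)
  have hh2 : h1.eval 1 ≠ 0 := fun h => hh1' (dvd_iff_isRoot.mpr h)
  have e6 : (a : ℚ) = b := by
    have : ((a : ℚ) - b) * (f1.eval 1 * h1.eval 1) = 0 := by linear_combination e5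
    rcases mul_eq_zero.mp this with h | h
    · exact sub_eq_zero.mp h
    · exact absurd h (mul_ne_zero hf2 hh2)
  exact_mod_cast e6

/-- the bound in the zero estimate -/
def B (L D : ℕ) : ℕ → ℕ → ℕ
  | 0, _ => 0
  | n + 1, m => (m + 1) ^ L + B L D n (2 * m + D) + 1

/-- zero estimate -/
lemma zero_est {Q : ℚ[X]} (hQ : Q ≠ 0) {D : ℕ} (hQD : R K D Q) {ι : Type*} (u P : ι → ℚ[X]) :
    ∀ (n m : ℕ) (s : Finset ι) (r : ι → ℚ[X]), s.card ≤ n →
      (∀ i ∈ s, u i ≠ 0 ∧ R K D (P i) ∧ Q * th (u i) = P i * u i) →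
      (∀ i ∈ s, R K m (r i)) → ∑ i ∈ s, r i * u i ≠ 0 →
      ∃ i ∈ s, rootMultiplicity 1 (∑ i ∈ s, r i * u i) ≤
        rootMultiplicity 1 (u i) + B K.card D n m := by
  classical
  intro n
  induction n with
  | zero =>
    intro m s r hs _ _ hne
    have : s = ∅ := Finset.card_eq_zero.mp (by omega)
    rw [this, Finset.sum_empty] at hne
    exact absurd rfl hne
  | succ n ih =>
    intro m s r hs hu hr hne
    have hex : ∃ i ∈ s, r i ≠ 0 := by
      by_contra hall
      push Not at hall
      exact hne (Finset.sum_eq_zero fun i hi => by rw [hall i hi, zero_mul])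
    obtain ⟨i0, hi0, hr0⟩ := hex
    set f : ℚ[X] := ∑ i ∈ s, r i * u i with hfdef
    set g : ℚ[X] := (Q * r i0) * th f - (Q * th (r i0) + P i0 * r i0) * f with hgdef
    set r' : ι → ℚ[X] := fun i => r i0 * (Q * th (r i) + r i * P i) -
      (Q * th (r i0) + P i0 * r i0) * r i with hr'
    have hgsum : g = ∑ i ∈ s, r' i * u i := by
      rw [hgdef, hfdef, th_sum, Finset.mul_sum, Finset.mul_sum, ← Finset.sum_sub_distrib]
      apply Finset.sum_congr rfl
      intro i hi
      rw [th_mul]
      have h1 := (hu i hi).2.2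
      simp only [hr']
      linear_combination (r i0 * r i) * h1
    have hr'0 : r' i0 = 0 := by
      simp only [hr']
      ring
    have hgsum' : g = ∑ i ∈ s.erase i0, r' i * u i := by
      rw [hgsum, ← Finset.add_sum_erase s _ hi0, hr'0, zero_mul, zero_add]
    have hfd : (X - C 1) ^ (rootMultiplicity 1 f) ∣ f := pow_rootMultiplicity_dvd f 1
    have hgd : (X - C 1) ^ (rootMultiplicity 1 f - 1) ∣ g := th_order hfd _ _
    by_cases hg0 : g = 0
    · -- `f` and `r i0 * u i0` have the same order
      have hu0 := hu i0 hi0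
      have hh : r i0 * u i0 ≠ 0 := mul_ne_zero hr0 hu0.1
      have e : (r i0 * u i0) * th f = f * th (r i0 * u i0) := by
        have e1 : Q * ((r i0 * u i0) * th f) = Q * (f * th (r i0 * u i0)) := by
          rw [th_mul]
          have h1 := hu0.2.2
          have h2 : (Q * r i0) * th f - (Q * th (r i0) + P i0 * r i0) * f = 0 := hg0
          linear_combination (u i0) * h2 - f * r i0 * h1
        exact mul_left_cancel₀ hQ e1
      have h3 := order_eq hne hh e
      refine ⟨i0, hi0, ?_⟩
      rw [h3, rootMultiplicity_mul hh]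
      have h4 := R_order hr0 (hr i0 hi0)
      have h5 : B K.card D (n + 1) m = (m + 1) ^ K.card + B K.card D n (2 * m + D) + 1 := rfl
      rw [h5]
      omega
    · have hc : (s.erase i0).card ≤ n := by
        rw [Finset.card_erase_of_mem hi0]
        omega
      obtain ⟨i, hi, hle⟩ := ih (2 * m + D) (s.erase i0) r' hc
        (fun i hi => hu i (Finset.mem_of_mem_erase hi)) (by
          intro i hi
          have hi' := Finset.mem_of_mem_erase hi
          simp only [hr']
          have a1 := hr i0 hi0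
          have a2 := hr i hi'
          have a3 := (hu i hi').2.1
          have a4 := (hu i0 hi0).2.1
          have b1 : R K (m + (D + m)) (r i0 * (Q * th (r i) + r i * P i)) := by
            refine R_mul a1 (R_add (R_mul hQD (R_th a2)) ?_)
            have := R_mul a2 a3
            rwa [add_comm] at this
          have b2 : R K ((D + m) + m) ((Q * th (r i0) + P i0 * r i0) * r i) :=
            R_mul (R_add (R_mul hQD (R_th a1)) (R_mul a4 a1)) a2
          exact R_sub (R_mono (by omega) b1) (R_mono (by omega) b2))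
        (by rw [← hgsum']; exact hg0)
      rw [← hgsum'] at hle
      refine ⟨i, Finset.mem_of_mem_erase hi, ?_⟩
      have h6 : rootMultiplicity 1 f - 1 ≤ rootMultiplicity 1 g :=
        (le_rootMultiplicity_iff hg0).mpr hgd
      have h5 : B K.card D (n + 1) m = (m + 1) ^ K.card + B K.card D n (2 * m + D) + 1 := rfl
      rw [h5]
      omega

end Pool.Agent.H22R3.EG
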