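import Pool.Agent.H22R3.Rounding

set_option autoImplicit false

namespace Pool.Agent.H22R3

open Finset

/-- mod 3 weights -/
noncomputable def gw (r : ℕ) (j : ℕ) (a : ZMod 3) : ℝ :=
  if j = 0 then (if a = 0 then 0 else 3 / (2 * r))
  else if j = 1 then (if a = 1 then 0 else 3 / (2 * r))
  else if j = 2 then (if a = 2 then 0 else 3 / (2 * r)) else 1 / r

theorem hsplit3 (r : ℕ) (hr : 3 ≤ r) (F : Fin r → ℝ) (a b c e : ℝ)
    (hF : ∀ j : Fin r, F j = if (j : ℕ) = 0 then a else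
      if (j : ℕ) = 1 then b else if (j : ℕ) = 2 then c else e) :
    ∑ j, F j = a + b + c + ((r : ℝ) - 3) * e := by
  rw [sum_congr rfl (fun j _ => hF j)]
  rw [Fin.sum_univ_eq_sum_range (fun j : ℕ => if j = 0 then a else if j = 1 then b else
    if j = 2 then c else e) r]
  obtain ⟨t, rfl⟩ : ∃ t, r = t + 3 := ⟨r - 3, by omega⟩
  rw [sum_range_succ', sum_range_succ', sum_range_succ']
  simp
  ring

theorem gw_sum (r : ℕ) (hr : 3 ≤ r) (a : ZMod 3) : ∑ j : Fin r, gw r j a = 1 := by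
  rw [hsplit3 r hr (fun j : Fin r => gw r j a) (if a = 0 then 0 else 3 / (2 * r))
    (if a = 1 then 0 else 3 / (2 * r)) (if a = 2 then 0 else 3 / (2 * r)) (1 / r) (fun j => rfl)]
  have hr0 : (0 : ℝ) < r := by
    have : 0 < r := by omega
    exact_mod_cast this
  have h : a = 0 ∨ a = 1 ∨ a = 2 := by revert a; decide
  have h01 : (0 : ZMod 3) ≠ 1 := by decide
  have h02 : (0 : ZMod 3) ≠ 2 := by decide
  have h12 : (1 : ZMod 3) ≠ 2 := by decide
  rcases h with rfl | rfl | rfl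
  · rw [if_pos rfl, if_neg h01, if_neg h02]; field_simp; ring
  · rw [if_neg h01.symm, if_pos rfl, if_neg h12]; field_simp; ring
  · rw [if_neg h02.symm, if_neg h12.symm, if_pos rfl]; field_simp; ring

theorem gw_nonneg (r : ℕ) (j : ℕ) (a : ZMod 3) : 0 ≤ gw r j a := by
  unfold gw
  split_ifs <;> positivity

theorem count_avoid : ∀ c : ZMod 3, (univ.filter (fun q : ZMod 3 × ZMod 3 =>
    q.1 ≠ c ∧ q.1 + q.2 ≠ c ∧ q.1 + 2 * q.2 ≠ c)).card = 2 := by decide

theorem sum_avoid (w : ℝ) (c : ZMod 3) :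
    ∑ q : ZMod 3 × ZMod 3, ((if q.1 = c then 0 else w) * (if q.1 + q.2 = c then 0 else w)
      * (if q.1 + 2 * q.2 = c then 0 else w)) = 2 * w ^ 3 := by
  have h : ∀ q : ZMod 3 × ZMod 3, ((if q.1 = c then 0 else w) * (if q.1 + q.2 = c then 0 else w)
      * (if q.1 + 2 * q.2 = c then 0 else w))
      = if (q.1 ≠ c ∧ q.1 + q.2 ≠ c ∧ q.1 + 2 * q.2 ≠ c) then w ^ 3 else 0 := by
    intro q
    by_cases h1 : q.1 = c <;> by_cases h2 : q.1 + q.2 = c <;> by_cases h3 : q.1 + 2 * q.2 = c <;>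
      simp [h1, h2, h3]
    ring
  rw [sum_congr rfl (fun q _ => h q), ← sum_filter, sum_const, count_avoid]
  simp

theorem gw_total (r : ℕ) (hr : 3 ≤ r) :
    ∑ q : ZMod 3 × ZMod 3, ∑ j : Fin r, ∏ i ∈ range 3, gw r j (q.1 + (i : ZMod 3) * q.2)
      = 9 * ((r : ℝ) - 3 / 4) / r ^ 3 := by
  have hr0 : (0 : ℝ) < r := by
    have : 0 < r := by omega
    exact_mod_cast this
  have h1 : ∀ q : ZMod 3 × ZMod 3, ∑ j : Fin r, ∏ i ∈ range 3, gw r j (q.1 + (i : ZMod 3) * q.2)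
      = ((if q.1 = 0 then 0 else 3 / (2 * (r : ℝ))) * (if q.1 + q.2 = 0 then 0 else 3 / (2 * (r : ℝ)))
          * (if q.1 + 2 * q.2 = 0 then 0 else 3 / (2 * (r : ℝ))))
        + ((if q.1 = 1 then 0 else 3 / (2 * (r : ℝ))) * (if q.1 + q.2 = 1 then 0 else 3 / (2 * (r : ℝ)))
          * (if q.1 + 2 * q.2 = 1 then 0 else 3 / (2 * (r : ℝ))))
        + ((if q.1 = 2 then 0 else 3 / (2 * (r : ℝ))) * (if q.1 + q.2 = 2 then 0 else 3 / (2 * (r : ℝ)))
          * (if q.1 + 2 * q.2 = 2 then 0 else 3 / (2 * (r : ℝ))))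
        + ((r : ℝ) - 3) * (1 / r * (1 / r) * (1 / r)) := by
    intro q
    apply hsplit3 r hr
    intro j
    simp only [prod_range_succ, prod_range_zero, one_mul, Nat.cast_zero, zero_mul, add_zero,
      Nat.cast_one, Nat.cast_ofNat, gw]
    split_ifs <;> rfl
  rw [sum_congr rfl (fun q _ => h1 q), sum_add_distrib, sum_add_distrib, sum_add_distrib,
    sum_avoid, sum_avoid, sum_avoid, sum_const, card_univ, Fintype.card_prod, ZMod.card]
  simp only [nsmul_eq_mul]
  push_cast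
  field_simp
  ring

theorem exists_colouring_three (r : ℕ) (hr : 3 ≤ r) :
    ∃ (N : ℕ) (_hN : NeZero N) (c : ZMod N → Fin r),
      ((monoZ 3 N c).card : ℝ) * (r : ℝ) ^ 2 < (N : ℝ) ^ 2 := by
  have hr0 : (0 : ℝ) < r := by
    have : 0 < r := by omega
    exact_mod_cast this
  obtain ⟨p, hpge, hpp⟩ := Nat.exists_infinite_primes (r ^ 3 + 5)
  have hp3 : Nat.Coprime 3 p := by
    rw [Nat.coprime_primes Nat.prime_three hpp]
    omega
  have : Fact p.Prime := ⟨hpp⟩
  have : NeZero p := ⟨hpp.ne_zero⟩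
  have : NeZero (3 * p) := ⟨by have := hpp.pos; omega⟩
  let e := ZMod.chineseRemainder hp3
  let f : Fin r → ZMod (3 * p) → ℝ := fun j x => gw r j (e x).1
  have hinj : ∀ d : ZMod (3 * p), d ≠ 0 → ∀ i < (3 : ℕ), ∀ j < (3 : ℕ),
      (i : ZMod (3 * p)) * d = (j : ZMod (3 * p)) * d → i = j := by
    have hodd : ¬ 2 ∣ p := by
      intro h
      have := (Nat.prime_dvd_prime_iff_eq Nat.prime_two hpp).1 h
      omega
    have hcop : Nat.Coprime 2 (3 * p) := by
      rw [Nat.Prime.coprime_iff_not_dvd Nat.prime_two]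
      omega
    have hu : IsUnit ((2 : ℕ) : ZMod (3 * p)) := (ZMod.isUnit_iff_coprime 2 (3 * p)).2 hcop
    intro d hd
    have h2 : (2 : ZMod (3 * p)) * d ≠ 0 := by
      intro h
      apply hd
      have := (IsUnit.mul_right_eq_zero hu).1 (by exact_mod_cast h)
      exact this
    intro i hi j hj hij
    interval_cases i <;> interval_cases j <;> simp at hij ⊢
    · exact hd hij.symm
    · exact h2 hij.symm
    · exact hd hij
    · apply hd; linear_combination -hij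
    · exact h2 hij
    · apply hd; linear_combination hij
  obtain ⟨c, hc⟩ := rounding 3 (3 * p) r (by norm_num) f (fun j x => gw_nonneg r j _)
    (fun x => gw_sum r hr _) hinj
  refine ⟨3 * p, inferInstance, c, ?_⟩
  have hsum : ∑ q : ZMod (3 * p) × ZMod (3 * p), ∑ j, ∏ i ∈ range 3,
      f j (q.1 + (i : ZMod (3 * p)) * q.2) = (p : ℝ) ^ 2 * (9 * ((r : ℝ) - 3 / 4) / r ^ 3) := by
    rw [← gw_total r hr]
    have e1 : ∀ q : ZMod (3 * p) × ZMod (3 * p), ∑ j, ∏ i ∈ range 3,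
      f j (q.1 + (i : ZMod (3 * p)) * q.2)
      = (fun a b : ZMod 3 × ZMod p => ∑ j : Fin r, ∏ i ∈ range 3,
          gw r j (a.1 + (i : ZMod 3) * b.1)) (e q.1) (e q.2) := by
      intro q
      simp only [f]
      apply sum_congr rfl; intro j _
      apply prod_congr rfl; intro i _
      congr 1
      rw [map_add, map_mul, map_natCast]
      simp
    rw [sum_congr rfl (fun q _ => e1 q), Fintype.sum_prod_type]
    have e2 : ∀ x : ZMod (3 * p), ∑ y : ZMod (3 * p),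
        (fun a b : ZMod 3 × ZMod p => ∑ j : Fin r, ∏ i ∈ range 3,
          gw r j (a.1 + (i : ZMod 3) * b.1)) (e x) (e y)
        = ∑ b : ZMod 3 × ZMod p,
        (fun a b : ZMod 3 × ZMod p => ∑ j : Fin r, ∏ i ∈ range 3,
          gw r j (a.1 + (i : ZMod 3) * b.1)) (e x) b := by
      intro x
      exact Equiv.sum_comp e.toEquiv (fun b => (fun a b : ZMod 3 × ZMod p => ∑ j : Fin r,
        ∏ i ∈ range 3, gw r j (a.1 + (i : ZMod 3) * b.1)) (e x) b)
    simp only [] at e2 ⊢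
    rw [sum_congr rfl (fun x _ => e2 x)]
    have e3 := Equiv.sum_comp e.toEquiv (fun a => ∑ b : ZMod 3 × ZMod p, ∑ j : Fin r,
        ∏ i ∈ range 3, gw r j (a.1 + (i : ZMod 3) * b.1))
    refine Eq.trans e3 ?_
    rw [Fintype.sum_prod_type, Fintype.sum_prod_type]
    simp only [Fintype.sum_prod_type, sum_const, card_univ, ZMod.card, nsmul_eq_mul]
    simp only [mul_sum]
    ring_nf
  rw [hsum] at hc
  push_cast at hc ⊢
  have hrp : (r : ℝ) ^ 3 < p := by
    have : r ^ 3 < p := by omega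
    exact_mod_cast this
  have h5 := mul_le_mul_of_nonneg_right hc (show (0 : ℝ) ≤ r ^ 3 by positivity)
  have h6 : ((p : ℝ) ^ 2 * (9 * ((r : ℝ) - 3 / 4) / r ^ 3) + 3 * p) * r ^ 3
      = 9 * p ^ 2 * r - 27 / 4 * p ^ 2 + 3 * p * r ^ 3 := by
    field_simp
    ring
  rw [h6] at h5
  have hp0 : (0 : ℝ) < p := by exact_mod_cast hpp.pos
  have h7 : 3 * (p : ℝ) * r ^ 3 < 27 / 4 * p ^ 2 := by nlinarith
  have h8 : (((monoZ 3 (3 * p) c).card : ℝ) * r ^ 2) * r < (3 * p) ^ 2 * r := by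
    nlinarith
  exact lt_of_mul_lt_mul_right h8 hr0.le

end Pool.Agent.H22R3
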